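import Pool.Agent.helper7.AQ.Defs

/-!
# AQ-Aug: independent sets of a matroid given by its rank function

* `rk_union_le`: `σ (S ∪ T) ≤ σ S + T.card`, induction on `T` with `unit`.  `rk_le_card`: `S = ∅` in this.
* `rk_indep_sub`: if `F.card = σ F` and `F' ⊆ F` then `F'.card = σ F'`: `σ F ≤ σ F' + (F \ F').card` by `rk_union_le`.
* `rk_insert_all`: if `σ (insert e F) = σ F` for all `e ∈ S` then `σ (F ∪ S) = σ F`: induction on `S`:
  `σ (F ∪ insert e S') ≤ σ (F ∪ S') + σ (insert e F) - σ ((F ∪ S') ∩ insert e F) ≤ σ (F ∪ S') + σ F - σ F` (`submod` for `F ∪ S'` and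
  `insert e F`; the intersection contains `F`; `mono`).
* `aug`: take a maximal `F'` (`Finset.exists_max_image` or strong induction) with `F ⊆ F' ⊆ S`, `F'.card = σ F'`.  For `e ∈ S`:
  `σ (insert e F') = σ F'`: clear for `e ∈ F'`; otherwise `σ (insert e F')` is `σ F'` or `σ F' + 1` (`mono`, `unit`), and the second is
  impossible because `insert e F'` would be a larger such set.  So `σ S = σ (F' ∪ S) = σ F'` by `rk_insert_all`.
-/

set_option autoImplicit false

open Finset

namespace Pool.Agent.helper7.AQ

variable {E : Type} [DecidableEq E] {σ : Finset E → ℕ}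

theorem rk_union_le (hσ : Rk σ) (S T : Finset E) : σ (S ∪ T) ≤ σ S + T.card := by
  induction T using Finset.induction_on with
  | empty => simp
  | insert a T ha ih =>
    rw [Finset.card_insert_of_notMem ha, Finset.union_insert]
    have := hσ.unit (S ∪ T) a
    omega

theorem rk_le_card (hσ : Rk σ) (S : Finset E) : σ S ≤ S.card := by
  have h := rk_union_le hσ ∅ S
  rw [Finset.empty_union, hσ.empty, zero_add] at h
  exact h

theorem rk_indep_sub (hσ : Rk σ) {F F' : Finset E} (h : F.card = σ F) (h' : F' ⊆ F) :
    F'.card = σ F' := by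
  have h1 := rk_union_le hσ F' (F \ F')
  rw [Finset.union_sdiff_of_subset h'] at h1
  have h2 := Finset.card_sdiff_add_card_eq_card h'
  have h3 := rk_le_card hσ F'
  omega

theorem rk_insert_all (hσ : Rk σ) (F S : Finset E) (h : ∀ e ∈ S, σ (insert e F) = σ F) :
    σ (F ∪ S) = σ F := by
  induction S using Finset.induction_on with
  | empty => simp
  | insert a S ha ih =>
    have ih' := ih (fun e he => h e (Finset.mem_insert_of_mem he))
    have h1 := h a (Finset.mem_insert_self a S)
    have h2 := hσ.submod (F ∪ S) (insert a F)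
    have h3 : (F ∪ S) ∪ insert a F = F ∪ insert a S := by
      ext x
      simp only [Finset.mem_union, Finset.mem_insert]
      tauto
    have h4 : F ⊆ (F ∪ S) ∩ insert a F := by
      intro x hx
      simp only [Finset.mem_inter, Finset.mem_union, Finset.mem_insert]
      tauto
    have h5 := hσ.mono _ _ h4
    have h6 : F ⊆ F ∪ insert a S := Finset.subset_union_left
    have h7 := hσ.mono _ _ h6
    rw [h3] at h2
    omega

theorem aug (hσ : Rk σ) (F S : Finset E) (hF : F ⊆ S) (h : F.card = σ F) :
    ∃ F' : Finset E, F ⊆ F' ∧ F' ⊆ S ∧ F'.card = σ F' ∧ σ F' = σ S := by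
  obtain ⟨F', hF', hmax⟩ := Finset.exists_max_image
    (S.powerset.filter fun X => F ⊆ X ∧ X.card = σ X) Finset.card
    ⟨F, Finset.mem_filter.2 ⟨Finset.mem_powerset.2 hF, Finset.Subset.refl F, h⟩⟩
  rw [Finset.mem_filter, Finset.mem_powerset] at hF'
  obtain ⟨h1, h2, h3⟩ := hF'
  refine ⟨F', h2, h1, h3, ?_⟩
  have key : ∀ e ∈ S, σ (insert e F') = σ F' := by
    intro e he
    by_cases hm : e ∈ F'
    · rw [Finset.insert_eq_of_mem hm]
    · by_contra hne
      have h4 := hσ.mono _ _ (Finset.subset_insert e F')
      have h5 := hσ.unit F' e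
      have h6 : (insert e F').card = σ (insert e F') := by
        rw [Finset.card_insert_of_notMem hm]
        omega
      have h7 := hmax (insert e F') (Finset.mem_filter.2
        ⟨Finset.mem_powerset.2 (Finset.insert_subset he h1),
          h2.trans (Finset.subset_insert e F'), h6⟩)
      rw [Finset.card_insert_of_notMem hm] at h7
      omega
  have h8 := rk_insert_all hσ F' S key
  rw [Finset.union_eq_right.2 h1] at h8
  exact h8.symm

end Pool.Agent.helper7.AQ
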