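import Pool.Agent.helper7.AQ.Defs

/-!
# AQ-Cells: division of the colour classes into cells

PROOF.  Number the elements of every class `col G κ k` by `pos e < a_k`, `a_k = |col G κ k|` (`Finset.equivFin`).  Let
`idx e = min (pos e / g) (a_k / g - 1)` for `e` of colour `k` (with natural number subtraction; for `a_k < g` it is `0`).  For `a_k ≥ g` the
values are `0, ..., a_k / g - 1`, and the set of the `e` with index `i` has `g` elements for `i < a_k / g - 1` and
`a_k - (a_k / g - 1) * g ∈ [g, 2 g)` elements for `i = a_k / g - 1`.  For `0 < a_k < g` there is one cell, with `a_k` elements.  The set of the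
pairs `(κ e, idx e)`, `e ∈ G` (an image), has some number `m` of elements; number them by `Fin m` (`Finset.equivFin`), `cl e` = the number of the
pair of `e ∈ G` (arbitrary for `e ∉ G`: if `G` is nonempty then `m > 0`; if `G` is empty...  then `m = 0` is not possible if `E` is nonempty,
so assume `G` nonempty).  Cells with less than `g` elements are whole nonempty classes with less than `g` elements; by `hs` there is at
most one such class.
-/

set_option autoImplicit false

open Finset
open scoped Classical

namespace Pool.Agent.helper7.AQ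

theorem cells {E K : Type} (G : Finset E) (hG : G.Nonempty) (κ : E → K) (g : ℕ) (hg : 0 < g)
    (hs : ∀ k k', (col G κ k).Nonempty → (col G κ k').Nonempty → (col G κ k).card < g →
      (col G κ k').card < g → k = k') :
    ∃ (m : ℕ) (cl : E → Fin m), Cell G κ m cl g := by
  have hmem : ∀ e, e ∈ G → e ∈ col G κ (κ e) := fun e he => by
    unfold col
    exact Finset.mem_filter.2 ⟨he, rfl⟩
  let pos : E → ℕ := fun e => if h : e ∈ G then
    (((col G κ (κ e)).equivFin ⟨e, hmem e h⟩ : Fin _) : ℕ) else 0
  have hpos_lt : ∀ e ∈ G, pos e < (col G κ (κ e)).card := by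
    intro e he
    simp only [pos, he, dif_pos]
    exact Fin.is_lt _
  -- general description
  have hpos : ∀ k, ∀ e (h : e ∈ col G κ k), pos e = (((col G κ k).equivFin ⟨e, h⟩ : Fin _) : ℕ) := by
    intro k e h
    have h1 := (Finset.mem_filter.1 h).1
    have h2 := (Finset.mem_filter.1 h).2
    subst h2
    simp only [pos, h1, dif_pos]
  have hinj : ∀ k, ∀ e ∈ col G κ k, ∀ e' ∈ col G κ k, pos e = pos e' → e = e' := by
    intro k e he e' he' h
    rw [hpos k e he, hpos k e' he'] at h
    have h1 := (col G κ k).equivFin.injective (Fin.ext h)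
    exact congrArg Subtype.val h1
  have hsurj : ∀ k, ∀ j, j < (col G κ k).card → ∃ e ∈ col G κ k, pos e = j := by
    intro k j hj
    refine ⟨((col G κ k).equivFin.symm ⟨j, hj⟩ : {x // x ∈ col G κ k}), Subtype.property _, ?_⟩
    rw [hpos k _ (Subtype.property _)]
    simp
  let idx : E → ℕ := fun e => min (pos e / g) ((col G κ (κ e)).card / g - 1)
  let P : Finset (K × ℕ) := G.image fun e => (κ e, idx e)
  have hP : ∀ e, e ∈ G → (κ e, idx e) ∈ P := fun e he => Finset.mem_image.2 ⟨e, he, rfl⟩
  have hPne : P.Nonempty := hG.image _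
  let cl : E → Fin P.card := fun e => if h : e ∈ G then P.equivFin ⟨(κ e, idx e), hP e h⟩
    else ⟨0, hPne.card_pos⟩
  have hcl : ∀ e ∈ G, ∀ z, cl e = z ↔ (κ e, idx e) = (P.equivFin.symm z : K × ℕ) := by
    intro e he z
    simp only [cl, he, dif_pos]
    constructor
    · rintro rfl
      simp
    · intro h
      rw [← Equiv.eq_symm_apply]
      exact Subtype.ext h
  -- upper bound
  have hQ : ∀ z, ∀ e, e ∈ Qc G cl z ↔ e ∈ col G κ (P.equivFin.symm z : K × ℕ).1 ∧
      idx e = (P.equivFin.symm z : K × ℕ).2 := by
    intro z e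
    unfold Qc col
    rw [Finset.mem_filter, Finset.mem_filter]
    constructor
    · rintro ⟨h1, h2⟩
      have h3 := (hcl e h1 z).1 h2
      exact ⟨⟨h1, congrArg Prod.fst h3⟩, congrArg Prod.snd h3⟩
    · rintro ⟨⟨h1, h2⟩, h3⟩
      exact ⟨h1, (hcl e h1 z).2 (Prod.ext h2 h3)⟩
  have hne : ∀ z, (Qc G cl z).Nonempty := by
    intro z
    obtain ⟨e, he, h⟩ := Finset.mem_image.1 (P.equivFin.symm z).2
    exact ⟨e, (hQ z e).2 ⟨by
      unfold col
      exact Finset.mem_filter.2 ⟨he, congrArg Prod.fst h⟩, congrArg Prod.snd h⟩⟩
  have hidx : ∀ k, ∀ e ∈ col G κ k, idx e = min (pos e / g) ((col G κ k).card / g - 1) := by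
    intro k e he
    have h2 := (Finset.mem_filter.1 he).2
    subst h2
    rfl
  have hle : ∀ z, (Qc G cl z).card ≤ 2 * g := by
    intro z
    set k := (P.equivFin.symm z : K × ℕ).1 with hk
    set i := (P.equivFin.symm z : K × ℕ).2 with hi
    have h1 : (Qc G cl z).card ≤ (Finset.Ico (i * g) ((i + 2) * g)).card := by
      refine Finset.card_le_card_of_injOn pos ?_ ?_
      · intro e he
        obtain ⟨h1, h2⟩ := (hQ z e).1 he
        rw [← hk] at h1
        rw [← hi] at h2
        have h3 := hidx k e h1
        rw [h2] at h3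
        have h4 : pos e < (col G κ k).card := by
          have := hpos_lt e (Finset.mem_filter.1 h1).1
          rwa [(Finset.mem_filter.1 h1).2] at this
        rw [Finset.coe_Ico, Set.mem_Ico]
        constructor
        · have : i ≤ pos e / g := by
            rw [h3]
            exact min_le_left _ _
          exact (Nat.le_div_iff_mul_le hg).1 this
        · rcases le_total (pos e / g) ((col G κ k).card / g - 1) with h5 | h5
          · rw [min_eq_left h5] at h3
            have : pos e < (pos e / g + 1) * g := by
              rw [add_mul, one_mul]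
              exact Nat.lt_div_mul_add hg
            rw [← h3] at this
            nlinarith
          · rw [min_eq_right h5] at h3
            have h6 : (col G κ k).card < ((col G κ k).card / g + 1) * g := by
              rw [add_mul, one_mul]
              exact Nat.lt_div_mul_add hg
            have h7 : (col G κ k).card / g + 1 ≤ i + 2 := by omega
            have h8 := Nat.mul_le_mul_right g h7
            omega
      · intro e he e' he' h
        exact hinj k e ((hQ z e).1 he).1 e' ((hQ z e').1 he').1 h
    rw [Nat.card_Ico] at h1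
    have : (i + 2) * g - i * g = 2 * g := by
      rw [← Nat.sub_mul]
      congr 1
      omega
    omega
  -- lower bound
  have hge : ∀ z, g ≤ (col G κ (P.equivFin.symm z : K × ℕ).1).card → g ≤ (Qc G cl z).card := by
    intro z hz
    obtain ⟨e0, he0⟩ := hne z
    obtain ⟨h01, h02⟩ := (hQ z e0).1 he0
    have h03 := hidx _ e0 h01
    set k := (P.equivFin.symm z : K × ℕ).1 with hk
    set i := (P.equivFin.symm z : K × ℕ).2 with hi
    rw [h02] at h03
    have hi1 : i ≤ (col G κ k).card / g - 1 := by
      rw [h03]
      exact min_le_right _ _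
    have hone : 1 ≤ (col G κ k).card / g := (Nat.one_le_div_iff hg).2 hz
    have hi2 : (i + 1) * g ≤ (col G κ k).card :=
      (Nat.le_div_iff_mul_le hg).1 (by omega)
    have h1 : (Finset.Ico (i * g) ((i + 1) * g)).card ≤ (Qc G cl z).card := by
      refine Finset.card_le_card_of_surjOn pos ?_
      intro j hj
      rw [Finset.coe_Ico, Set.mem_Ico] at hj
      obtain ⟨e, he, hpe⟩ := hsurj k j (by omega)
      refine ⟨e, ?_, hpe⟩
      refine (hQ z e).2 ⟨he, ?_⟩
      rw [hidx k e he, hpe]
      have hji : j / g = i := by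
        exact Nat.div_eq_of_lt_le hj.1 hj.2
      rw [hji]
      exact min_eq_left hi1
    rw [Nat.card_Ico] at h1
    have : (i + 1) * g - i * g = g := by
      rw [add_mul, one_mul]
      omega
    omega
  refine ⟨P.card, cl, ⟨hne, hle, ?_, ?_⟩⟩
  · intro z z' hz hz'
    have h1 : (col G κ (P.equivFin.symm z : K × ℕ).1).card < g := by
      by_contra h
      exact absurd (hge z (not_lt.1 h)) (not_le.2 hz)
    have h1' : (col G κ (P.equivFin.symm z' : K × ℕ).1).card < g := by
      by_contra h
      exact absurd (hge z' (not_lt.1 h)) (not_le.2 hz')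
    obtain ⟨e, he⟩ := hne z
    obtain ⟨e', he'⟩ := hne z'
    obtain ⟨ha, hb⟩ := (hQ z e).1 he
    obtain ⟨ha', hb'⟩ := (hQ z' e').1 he'
    have hkk := hs _ _ ⟨e, ha⟩ ⟨e', ha'⟩ h1 h1'
    have hz0 : (P.equivFin.symm z : K × ℕ).2 = 0 := by
      rw [← hb, hidx _ e ha, Nat.div_eq_of_lt h1]
      simp
    have hz0' : (P.equivFin.symm z' : K × ℕ).2 = 0 := by
      rw [← hb', hidx _ e' ha', Nat.div_eq_of_lt h1']
      simp
    have : (P.equivFin.symm z : K × ℕ) = (P.equivFin.symm z' : K × ℕ) :=
      Prod.ext hkk (hz0.trans hz0'.symm)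
    exact P.equivFin.symm.injective (Subtype.ext this)
  · intro e he e' he' h
    have h1 := (hcl e he (cl e')).1 h
    have h2 := (hcl e' he' (cl e')).1 rfl
    rw [← h2] at h1
    exact congrArg Prod.fst h1

end Pool.Agent.helper7.AQ
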