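import Pool.Agent.helper7.AQ.Aug

/-!
# AQ-Chain: a maximal chain of tight sets

Let `P = {e | 0 < x e}`.
* `tight_union`, `tight_inter`: `x (S ∪ T) + x (S ∩ T) = x S + x T = ρ S + ρ T ≥ ρ (S ∪ T) + ρ (S ∩ T)` and `x ≤ ρ` for both sets.
* `tight_empty`: both sides are `0`.  `tight_supp`: `P` is tight: `x P = x univ = ρ univ ≥ ρ P ≥ x P`.
* `chain`: define `c 0 = ∅` and `c (i + 1)` = a tight set of minimal cardinality with `c i ⊂ c (i + 1) ⊆ P` if `c i ≠ P` (it exists, because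
  `P` is such a set if `c i ⊂ P`), and `c (i + 1) = P` if `c i = P`.  All `c i ⊆ P`; `(c i).card ≥ i` as long as `c i ≠ P`, so
  `c l = P` for `l = P.card`; (take the least `l` with `c l = P`, `Nat.find`).  If `i < l`, `S` is tight, `c i ⊆ S ⊆ c (i + 1)` and `S ≠ c i`
  then `S` has at least as many elements as `c (i + 1)`, so `S = c (i + 1)`.
-/

set_option autoImplicit false

open Finset

namespace Pool.Agent.helper7.AQ

variable {E K : Type} [Fintype E] [DecidableEq E] {ρ : Finset E → ℕ} {κ : E → K} {x : E → ℝ}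

theorem tight_union_inter (hρ : Rk ρ) (hx : Pol ρ κ x) {S T : Finset E} (hS : Tight ρ x S)
    (hT : Tight ρ x T) : Tight ρ x (S ∪ T) ∧ Tight ρ x (S ∩ T) := by
  unfold Tight at hS hT ⊢
  have h1 := Finset.sum_union_inter (s₁ := S) (s₂ := T) (f := x)
  have h2 := hρ.submod S T
  have h2' : (ρ (S ∪ T) : ℝ) + ρ (S ∩ T) ≤ ρ S + ρ T := by exact_mod_cast h2
  have h3 := hx.le (S ∪ T)
  have h4 := hx.le (S ∩ T)
  constructor <;> linarith

theorem tight_empty (hρ : Rk ρ) : Tight ρ x ∅ := by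
  unfold Tight
  rw [hρ.empty]
  simp

theorem tight_supp (hρ : Rk ρ) (hx : Pol ρ κ x) :
    Tight ρ x (univ.filter fun e => 0 < x e) ∧ ρ (univ.filter fun e => 0 < x e) = ρ univ := by
  have h1 : ∑ e ∈ univ.filter (fun e => 0 < x e), x e = ∑ e, x e := by
    apply Finset.sum_filter_of_ne
    intro e _ hne
    exact lt_of_le_of_ne (hx.nonneg e) (Ne.symm hne)
  have h2 := hx.tot
  have h3 := hx.le (univ.filter fun e => 0 < x e)
  have h4 := hρ.mono (univ.filter fun e => 0 < x e) univ (Finset.subset_univ _)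
  have h5 : (ρ univ : ℝ) ≤ ρ (univ.filter fun e => 0 < x e) := by linarith
  have h6 : ρ univ ≤ ρ (univ.filter fun e => 0 < x e) := by exact_mod_cast h5
  have h7 : ρ (univ.filter fun e => 0 < x e) = ρ univ := le_antisymm h4 h6
  refine ⟨?_, h7⟩
  unfold Tight
  rw [h7]
  linarith

private theorem chain_step (hρ : Rk ρ) (hx : Pol ρ κ x) (S : Finset E) (_hS : Tight ρ x S)
    (hSP : S ⊆ univ.filter (fun e => 0 < x e)) :
    ∃ S', Tight ρ x S' ∧ S' ⊆ univ.filter (fun e => 0 < x e) ∧ S ⊆ S' ∧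
      (S ≠ univ.filter (fun e => 0 < x e) → S ≠ S') ∧
      ∀ T, Tight ρ x T → S ⊆ T → T ⊆ S' → T = S ∨ T = S' := by
  classical
  by_cases h : S = univ.filter (fun e => 0 < x e)
  · refine ⟨univ.filter (fun e => 0 < x e), (tight_supp hρ hx).1, Finset.Subset.refl _, hSP,
      fun hne => (hne h).elim, fun T _ h1 h2 => Or.inr (Finset.Subset.antisymm h2 (h ▸ h1))⟩
  · obtain ⟨S', hS', hmin⟩ := Finset.exists_min_image
      ((univ.filter (fun e => 0 < x e)).powerset.filter fun X => Tight ρ x X ∧ S ⊆ X ∧ S ≠ X)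
      Finset.card
      ⟨univ.filter (fun e => 0 < x e), Finset.mem_filter.2
        ⟨Finset.mem_powerset.2 (Finset.Subset.refl _), (tight_supp hρ hx).1, hSP, h⟩⟩
    rw [Finset.mem_filter, Finset.mem_powerset] at hS'
    obtain ⟨h1, h2, h3, h4⟩ := hS'
    refine ⟨S', h2, h1, h3, fun _ => h4, fun T hT hST hTS' => ?_⟩
    by_cases hTS : T = S
    · exact Or.inl hTS
    · right
      have h5 := hmin T (Finset.mem_filter.2
        ⟨Finset.mem_powerset.2 (hTS'.trans h1), hT, hST, fun h' => hTS h'.symm⟩)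
      exact Finset.eq_of_subset_of_card_le hTS' h5

theorem chain (hρ : Rk ρ) (hx : Pol ρ κ x) :
    ∃ (c : ℕ → Finset E) (l : ℕ), c 0 = ∅ ∧ c l = univ.filter (fun e => 0 < x e) ∧
      (∀ i, c i ⊆ c (i + 1)) ∧ (∀ i, Tight ρ x (c i)) ∧
      ∀ i < l, ∀ S, Tight ρ x S → c i ⊆ S → S ⊆ c (i + 1) → S = c i ∨ S = c (i + 1) := by
  classical
  choose f hf1 hf2 hf3 hf4 hf5 using chain_step hρ hx
  let nx : {S : Finset E // Tight ρ x S ∧ S ⊆ univ.filter (fun e => 0 < x e)} →
      {S : Finset E // Tight ρ x S ∧ S ⊆ univ.filter (fun e => 0 < x e)} :=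
    fun S => ⟨f S.1 S.2.1 S.2.2, hf1 S.1 S.2.1 S.2.2, hf2 S.1 S.2.1 S.2.2⟩
  let d : ℕ → {S : Finset E // Tight ρ x S ∧ S ⊆ univ.filter (fun e => 0 < x e)} :=
    fun i => nx^[i] ⟨∅, tight_empty hρ, Finset.empty_subset _⟩
  have hd : ∀ i, d (i + 1) = nx (d i) := fun i => Function.iterate_succ_apply' nx i _
  have hsub : ∀ i, (d i).1 ⊆ (d (i + 1)).1 := by
    intro i
    rw [hd i]
    exact hf3 (d i).1 (d i).2.1 (d i).2.2
  have hcard : ∀ i, (d i).1 = univ.filter (fun e => 0 < x e) ∨ i ≤ (d i).1.card := by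
    intro i
    induction i with
    | zero => exact Or.inr (Nat.zero_le _)
    | succ i ih =>
      by_cases h : (d i).1 = univ.filter (fun e => 0 < x e)
      · left
        exact Finset.Subset.antisymm (d (i + 1)).2.2 (h.symm.subset.trans (hsub i))
      · right
        have h1 : i ≤ (d i).1.card := ih.resolve_left h
        have h2 : (d i).1 ≠ (d (i + 1)).1 := by
          rw [hd i]
          exact hf4 (d i).1 (d i).2.1 (d i).2.2 h
        have h3 := Finset.card_lt_card (Finset.ssubset_iff_subset_ne.2 ⟨hsub i, h2⟩)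
        omega
  refine ⟨fun i => (d i).1, (univ.filter (fun e => 0 < x e)).card, rfl, ?_, hsub,
    fun i => (d i).2.1, ?_⟩
  · rcases hcard (univ.filter (fun e => 0 < x e)).card with h | h
    · exact h
    · exact Finset.eq_of_subset_of_card_le (d _).2.2 h
  · intro i _ S hS h1 h2
    have h3 : (d (i + 1)).1 = f (d i).1 (d i).2.1 (d i).2.2 := by rw [hd i]
    simp only at h1 h2 ⊢
    rw [h3] at h2 ⊢
    exact hf5 (d i).1 (d i).2.1 (d i).2.2 S hS h1 h2

end Pool.Agent.helper7.AQ
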