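import Mathlib

/-!
# AQ: colour-balanced spanning tree decompositions, asymptotic form (MP_387ec7_co)

RESULT.  For `n ≥ n₀` and EVERY (improper) edge colouring of `K_{2n}` there is a decomposition into `n` spanning
trees such that all but `n ^ (24 / 25)` of the trees satisfy `⌊m_k / n⌋ ≤ |E_k(T)| ≤ ⌈m_k / n⌉` for all colours `k`.

PLAN.  Refine the colouring `c` to `κ`: every class of `κ` has at most `n` edges, and every class `k` of `c` is the union
of `⌊m_k / n⌋` classes of `κ` with exactly `n` edges and one with fewer edges (`Ref`).  It is enough to find edge-disjoint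
spanning trees which meet every class of `κ` at most once and the classes with exactly `n` edges exactly once.
State: the graph `G` of the remaining edges has `N * (2 n - 1)` edges, every class has at most `N` edges
in `G` (`St`).  One step: find a spanning tree `T ⊆ G` which is rainbow for `κ` and meets all classes with exactly
`N` edges in `G` (`Tr`); then `G \ T` is a state for `N - 1`.  Start: `N = n`, `G = K_{2n}`.
The step: (1) `WRado`, `GRado` (Edmonds): if `x` is a point of the matroid intersection polytope (`Fr`: `x ≥ 0` with support in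
`H`, total `2 n - 1`, at most `|A| - 1` inside every vertex set `A`, at most `1` on every colour class), then for every weight `w`
there is a rainbow spanning tree `T ⊆ H` with `w(T) ≤ w · x` which meets all classes with `x`-mass `1`.
(2) `Samp`: divide the colour classes of `G` into cells with about `g = n ^ (1 / 4)` edges, choose one random edge in every
cell, and give it the mass `|cell| / N`.  The chosen edges form a sparse graph `H` (all degrees at most
`4 * n ^ (3 / 4)`), `x` is an `Fr` if `G` is robust (`Robust`), and `w · x` is close to `w(G) / N` for the weight `w` in question.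
(3) the potential `Ps`: the sum of `exp (lam * (2 N - deg v))` over all vertices `v`, plus the fourth Schatten norm `q4 M`, the
trace of `M ^ 4`, of the deviation matrix `M = adj G - (N / n) (J - I)`.  The weight of the edge `uv` is
`lam * (1 + lam * Δ) * (w_u + w_v) - 8 * (M ^ 3) u v`.  `Pot`: the potential grows by at most
`(13 / n) * Ps + 4000 * n ^ (11 / 4)` in one step, so it is always at most `2 * 10 ^ 9 * n ^ (15 / 4)`, and this implies that
`G` is robust as long as `N ≥ n ^ (24 / 25)`.
The last `N` trees come from the Nash-Williams theorem (`NW`).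
-/

set_option autoImplicit false

open Finset
open scoped Classical

namespace Pool.Agent.helper7.AQ

/-! ### Matroids -/

/-- rank function of a matroid on the set `E` -/
structure Rk {E : Type} [DecidableEq E] (σ : Finset E → ℕ) : Prop where
  empty : σ ∅ = 0
  mono : ∀ S T, S ⊆ T → σ S ≤ σ T
  submod : ∀ S T, σ (S ∪ T) + σ (S ∩ T) ≤ σ S + σ T
  unit : ∀ S e, σ (insert e S) ≤ σ S + 1

/-- the elements of `G` with colour `k` -/
noncomputable def col {E K : Type} (G : Finset E) (κ : E → K) (k : K) : Finset E :=
  G.filter fun e => κ e = k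

/-- the elements of `G` with a colour in `J` -/
noncomputable def cols {E K : Type} (G : Finset E) (κ : E → K) (J : Finset K) : Finset E :=
  G.filter fun e => κ e ∈ J

/-- `x` is in the base polytope of the matroid, and it has at most `1` on every colour class -/
structure Pol {E K : Type} [Fintype E] (ρ : Finset E → ℕ) (κ : E → K) (x : E → ℝ) : Prop where
  nonneg : ∀ e, 0 ≤ x e
  le : ∀ S : Finset E, ∑ e ∈ S, x e ≤ ρ S
  tot : ∑ e, x e = ρ univ
  colr : ∀ k, ∑ e ∈ col univ κ k, x e ≤ 1

/-- tight set -/
def Tight {E : Type} (ρ : Finset E → ℕ) (x : E → ℝ) (S : Finset E) : Prop :=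
  ∑ e ∈ S, x e = ρ S

/-- the rank function of the direct sum of the minors given by the chain `c 0 ⊆ c 1 ⊆ ... ⊆ c l` -/
def sg {E : Type} [DecidableEq E] (ρ : Finset E → ℕ) (c : ℕ → Finset E) (l : ℕ)
    (S : Finset E) : ℕ :=
  ∑ i ∈ range l, (ρ ((S ∩ c (i + 1)) ∪ c i) - ρ (c i))

/-! ### Graphs -/

variable {V : Type} [Fintype V] [DecidableEq V]

/-- the functions on the vertices which are constant along the edges in `S` -/
def ker (S : Finset (Sym2 V)) : Submodule ℚ (V → ℚ) where
  carrier := {f | ∀ u v, s(u, v) ∈ S → f u = f v}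
  add_mem' := by
    intro f g hf hg u v h
    simp only [Pi.add_apply, hf u v h, hg u v h]
  zero_mem' := by
    intro u v _
    rfl
  smul_mem' := by
    intro a f hf u v h
    simp only [Pi.smul_apply, hf u v h]

/-- the rank function of the cycle matroid -/
noncomputable def gr (S : Finset (Sym2 V)) : ℕ := Fintype.card V - Module.finrank ℚ (ker S)

/-- the edges of `G` inside `A` -/
noncomputable def inA (G : Finset (Sym2 V)) (A : Finset V) : Finset (Sym2 V) :=
  G.filter fun e => ∀ v ∈ e, v ∈ A

/-- the edges of `G` at `v` -/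
noncomputable def atV (G : Finset (Sym2 V)) (v : V) : Finset (Sym2 V) := G.filter fun e => v ∈ e

/-- a fractional rainbow spanning tree with support in `H` -/
structure Fr {K : Type} (κ : Sym2 V → K) (H : Finset (Sym2 V)) (x : Sym2 V → ℝ) : Prop where
  nonneg : ∀ e, 0 ≤ x e
  supp : ∀ e, e ∉ H → x e = 0
  tot : ∑ e, x e = (Fintype.card V : ℝ) - 1
  set : ∀ A : Finset V, A.Nonempty → ∑ e ∈ inA univ A, x e ≤ (A.card : ℝ) - 1
  colr : ∀ k, ∑ e ∈ col univ κ k, x e ≤ 1

/-- `T` is a rainbow spanning tree in `G` which meets all colour classes with `N` elements -/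
structure Tr {K : Type} (N : ℕ) (κ : Sym2 V → K) (G T : Finset (Sym2 V)) : Prop where
  sub : T ⊆ G
  tree : (SimpleGraph.fromEdgeSet (T : Set (Sym2 V))).IsTree
  card : T.card + 1 = Fintype.card V
  inj : ∀ e ∈ T, ∀ e' ∈ T, κ e = κ e' → e = e'
  meet : ∀ k, (col G κ k).card = N → ∃ e ∈ T, κ e = k

/-- the state: the remaining graph has `N * (2 n - 1)` edges, at most `N` of every colour -/
structure St {K : Type} (n N : ℕ) (κ : Sym2 V → K) (G : Finset (Sym2 V)) : Prop where
  nd : ∀ e ∈ G, ¬ e.IsDiag
  card : G.card = N * (2 * n - 1)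
  colr : ∀ k, (col G κ k).card ≤ N

/-! ### Sampling -/

/-- the cell with index `z` -/
noncomputable def Qc {E : Type} (G : Finset E) {m : ℕ} (cl : E → Fin m) (z : Fin m) : Finset E :=
  G.filter fun e => cl e = z

/-- division of the colour classes into cells of size about `g` -/
structure Cell {E K : Type} (G : Finset E) (κ : E → K) (m : ℕ) (cl : E → Fin m) (g : ℕ) :
    Prop where
  ne : ∀ z, (Qc G cl z).Nonempty
  le : ∀ z, (Qc G cl z).card ≤ 2 * g
  ge : ∀ z z', (Qc G cl z).card < g → (Qc G cl z').card < g → z = z'
  colr : ∀ e ∈ G, ∀ e' ∈ G, cl e = cl e' → κ e = κ e'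

/-- the sample space: the choices of one element in every cell -/
noncomputable def Om {E : Type} (G : Finset E) {m : ℕ} (cl : E → Fin m) : Finset (Fin m → E) :=
  Fintype.piFinset (Qc G cl)

/-- the chosen element of a cell gets the mass `|cell| / N` -/
noncomputable def xs {E : Type} (G : Finset E) {m : ℕ} (cl : E → Fin m) (N : ℕ) (ω : Fin m → E)
    (e : E) : ℝ :=
  if e ∈ G ∧ ω (cl e) = e then ((Qc G cl (cl e)).card : ℝ) / N else 0

/-! ### The potential -/

/-- adjacency matrix -/
noncomputable def adj (G : Finset (Sym2 V)) : Matrix V V ℝ :=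
  fun u v => if s(u, v) ∈ G then 1 else 0

/-- the matrix `J - I` -/
noncomputable def off (V : Type) [DecidableEq V] : Matrix V V ℝ := fun u v => if u = v then 0 else 1

/-- the deviation matrix -/
noncomputable def Mx (n N : ℕ) (G : Finset (Sym2 V)) : Matrix V V ℝ :=
  adj G - ((N : ℝ) / n) • off V

/-- the trace of `M ^ 4` for a symmetric matrix `M` -/
noncomputable def q4 (M : Matrix V V ℝ) : ℝ := ∑ u, ∑ v, ((M * M) u v) ^ 2

/-- the part `- 8 * (M ^ 3) u v` of the weight of the edge `uv` (`-4` times the sum over the two orders) -/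
noncomputable def fM (M : Matrix V V ℝ) (e : Sym2 V) : ℝ :=
  -4 * ∑ p ∈ univ.filter (fun p : V × V => s(p.1, p.2) = e), (M * M * M) p.1 p.2

/-- the weight of a vertex -/
noncomputable def wv (lam : ℝ) (N : ℕ) (G : Finset (Sym2 V)) (v : V) : ℝ :=
  Real.exp (lam * (2 * (N : ℝ) - ((atV G v).card : ℝ)))

/-- the potential -/
noncomputable def Ps (lam : ℝ) (n N : ℕ) (G : Finset (Sym2 V)) : ℝ :=
  ∑ v, wv lam N G v + q4 (Mx n N G)

end Pool.Agent.helper7.AQ
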