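import Mathlib

/-!
# AQ-Hoef: Hoeffding's inequality for independent choices (counting form)

* `exp_le`: `exp y ≤ y + exp (y ^ 2)` for all real `y`.  For `|y| ≤ 1`: `exp y ≤ 1 + y + y ^ 2` (for instance `Real.abs_exp_sub_one_sub_id_le`) and
  `1 + y ^ 2 ≤ exp (y ^ 2)`.  For `y > 1`: `exp y ≤ exp (y ^ 2)`.  For `y < -1`: `exp y ≤ 1` and `y + exp (y ^ 2) ≥ y + 1 + y ^ 2 ≥ 1`.
* `hoef`: let `μ i = (∑ a ∈ Q i, F i a) / |Q i|`, `s = t / (2 D)`.  For every `i` and `a ∈ Q i`: `|F i a - μ i| ≤ r i` (`r i ≥ 0` by `hr` for `a = b`).  So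
  `∑ a ∈ Q i, exp (s * (F i a - μ i)) ≤ ∑ a ∈ Q i, (s * (F i a - μ i) + exp (s ^ 2 * r i ^ 2)) = |Q i| * exp (s ^ 2 * r i ^ 2)`.
  For the set `B` of the `ω` in question: `|B| * exp (s * t) ≤ ∑ ω ∈ piFinset Q, exp (s * ∑ i, (F i (ω i) - μ i))
  = ∏ i, ∑ a ∈ Q i, exp (s * (F i a - μ i))` (`Finset.prod_univ_sum` / `Fintype.piFinset`, `Real.exp_sum`)
  `≤ (∏ i, |Q i|) * exp (s ^ 2 * D)`, and `s ^ 2 * D - s * t = - t ^ 2 / (4 D)`; `Fintype.card_piFinset`.
* `hoef'`: `hoef` for `- F`.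
-/

set_option autoImplicit false

open Finset
open scoped Classical

namespace Pool.Agent.helper7.AQ

theorem exp_le (y : ℝ) : Real.exp y ≤ y + Real.exp (y ^ 2) := by
  have h1 : y ^ 2 + 1 ≤ Real.exp (y ^ 2) := Real.add_one_le_exp _
  rcases le_or_gt |y| 1 with h | h
  · have h2 := abs_le.1 (Real.abs_exp_sub_one_sub_id_le h)
    linarith [h2.2]
  · rcases le_or_gt 0 y with h0 | h0
    · rw [abs_of_nonneg h0] at h
      have h3 : Real.exp y ≤ Real.exp (y ^ 2) := Real.exp_le_exp.2 (by nlinarith)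
      linarith
    · rw [abs_of_neg h0] at h
      have h3 : Real.exp y ≤ 1 := Real.exp_le_one_iff.2 h0.le
      nlinarith

theorem hoef {m : ℕ} {E : Type} (Q : Fin m → Finset E) (hQ : ∀ i, (Q i).Nonempty)
    (F : Fin m → E → ℝ) (r : Fin m → ℝ) (hr : ∀ i, ∀ a ∈ Q i, ∀ b ∈ Q i, F i a - F i b ≤ r i)
    (D t : ℝ) (hD : 0 < D) (ht : 0 ≤ t) (hrD : ∑ i, r i ^ 2 ≤ D) :
    (((Fintype.piFinset Q).filter fun ω =>
      ∑ i, (∑ a ∈ Q i, F i a) / ((Q i).card : ℝ) + t ≤ ∑ i, F i (ω i)).card : ℝ) ≤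
      (Fintype.piFinset Q).card * Real.exp (-(t ^ 2 / (4 * D))) := by
  set μ : Fin m → ℝ := fun i => (∑ a ∈ Q i, F i a) / ((Q i).card : ℝ) with hμ
  set s : ℝ := t / (2 * D) with hs
  have hs0 : 0 ≤ s := by positivity
  have hc : ∀ i, (0 : ℝ) < ((Q i).card : ℝ) := fun i => by exact_mod_cast (hQ i).card_pos
  have hsum0 : ∀ i, ∑ a ∈ Q i, (F i a - μ i) = 0 := by
    intro i
    rw [Finset.sum_sub_distrib, Finset.sum_const, nsmul_eq_mul, hμ]
    field_simp [(hc i).ne']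
    ring
  have hr0 : ∀ i, 0 ≤ r i := fun i => by
    obtain ⟨a, ha⟩ := hQ i
    simpa using hr i a ha a ha
  have habs : ∀ i, ∀ a ∈ Q i, |F i a - μ i| ≤ r i := by
    intro i a ha
    have h1 : F i a - μ i = (∑ b ∈ Q i, (F i a - F i b)) / ((Q i).card : ℝ) := by
      rw [Finset.sum_sub_distrib, Finset.sum_const, nsmul_eq_mul, hμ]
      field_simp [(hc i).ne']
    rw [h1, abs_le]
    constructor
    · rw [le_div_iff₀ (hc i)]
      have : ∑ b ∈ Q i, (F i b - F i a) ≤ ∑ b ∈ Q i, r i :=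
        Finset.sum_le_sum fun b hb => hr i b hb a ha
      rw [Finset.sum_const, nsmul_eq_mul] at this
      have h2 : ∑ b ∈ Q i, (F i b - F i a) = - ∑ b ∈ Q i, (F i a - F i b) := by
        rw [← Finset.sum_neg_distrib]
        exact Finset.sum_congr rfl fun b _ => by ring
      linarith
    · rw [div_le_iff₀ (hc i)]
      have : ∑ b ∈ Q i, (F i a - F i b) ≤ ∑ b ∈ Q i, r i :=
        Finset.sum_le_sum fun b hb => hr i a ha b hb
      rw [Finset.sum_const, nsmul_eq_mul] at this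
      linarith
  have hone : ∀ i, ∑ a ∈ Q i, Real.exp (s * (F i a - μ i)) ≤
      ((Q i).card : ℝ) * Real.exp (s ^ 2 * r i ^ 2) := by
    intro i
    calc ∑ a ∈ Q i, Real.exp (s * (F i a - μ i))
        ≤ ∑ a ∈ Q i, (s * (F i a - μ i) + Real.exp (s ^ 2 * r i ^ 2)) := by
          refine Finset.sum_le_sum fun a ha => ?_
          refine (exp_le _).trans ?_
          have h1 : (s * (F i a - μ i)) ^ 2 ≤ s ^ 2 * r i ^ 2 := by
            rw [mul_pow]
            refine mul_le_mul_of_nonneg_left ?_ (sq_nonneg s)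
            rw [← sq_abs (F i a - μ i)]
            exact pow_le_pow_left₀ (abs_nonneg _) (habs i a ha) 2
          have := Real.exp_le_exp.2 h1
          linarith
      _ = ((Q i).card : ℝ) * Real.exp (s ^ 2 * r i ^ 2) := by
          rw [Finset.sum_add_distrib, ← Finset.mul_sum, hsum0 i, mul_zero, zero_add,
            Finset.sum_const, nsmul_eq_mul]
  set B := (Fintype.piFinset Q).filter fun ω => ∑ i, μ i + t ≤ ∑ i, F i (ω i) with hB
  have h1 : (B.card : ℝ) * Real.exp (s * t) ≤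
      ∑ ω ∈ Fintype.piFinset Q, ∏ i, Real.exp (s * (F i (ω i) - μ i)) := by
    calc (B.card : ℝ) * Real.exp (s * t) = ∑ ω ∈ B, Real.exp (s * t) := by
          rw [Finset.sum_const, nsmul_eq_mul]
      _ ≤ ∑ ω ∈ B, ∏ i, Real.exp (s * (F i (ω i) - μ i)) := by
          refine Finset.sum_le_sum fun ω hω => ?_
          rw [← Real.exp_sum, ← Finset.mul_sum, Finset.sum_sub_distrib]
          refine Real.exp_le_exp.2 (mul_le_mul_of_nonneg_left ?_ hs0)
          have := (Finset.mem_filter.1 hω).2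
          linarith
      _ ≤ ∑ ω ∈ Fintype.piFinset Q, ∏ i, Real.exp (s * (F i (ω i) - μ i)) :=
          Finset.sum_le_sum_of_subset_of_nonneg (Finset.filter_subset _ _)
            fun ω _ _ => Finset.prod_nonneg fun i _ => (Real.exp_pos _).le
  have h2 : ∑ ω ∈ Fintype.piFinset Q, ∏ i, Real.exp (s * (F i (ω i) - μ i)) =
      ∏ i, ∑ a ∈ Q i, Real.exp (s * (F i a - μ i)) := by
    rw [Finset.prod_univ_sum]
  have h3 : ∏ i, ∑ a ∈ Q i, Real.exp (s * (F i a - μ i)) ≤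
      (Fintype.piFinset Q).card * Real.exp (s ^ 2 * D) := by
    calc ∏ i, ∑ a ∈ Q i, Real.exp (s * (F i a - μ i))
        ≤ ∏ i, (((Q i).card : ℝ) * Real.exp (s ^ 2 * r i ^ 2)) :=
          Finset.prod_le_prod (fun i _ => Finset.sum_nonneg fun a _ => (Real.exp_pos _).le)
            fun i _ => hone i
      _ = (Fintype.piFinset Q).card * Real.exp (s ^ 2 * ∑ i, r i ^ 2) := by
          rw [Finset.prod_mul_distrib, ← Real.exp_sum, ← Finset.mul_sum, Fintype.card_piFinset]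
          push_cast
          rfl
      _ ≤ (Fintype.piFinset Q).card * Real.exp (s ^ 2 * D) := by
          refine mul_le_mul_of_nonneg_left (Real.exp_le_exp.2 ?_) (Nat.cast_nonneg _)
          exact mul_le_mul_of_nonneg_left hrD (sq_nonneg s)
  have h4 : (B.card : ℝ) * Real.exp (s * t) ≤
      (Fintype.piFinset Q).card * Real.exp (s ^ 2 * D) := by
    rw [h2] at h1
    exact h1.trans h3
  have h5 : Real.exp (-(t ^ 2 / (4 * D))) = Real.exp (s ^ 2 * D) * Real.exp (-(s * t)) := by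
    rw [← Real.exp_add]
    congr 1
    rw [hs]
    field_simp
    ring
  rw [h5, ← mul_assoc]
  calc (B.card : ℝ) = (B.card : ℝ) * Real.exp (s * t) * Real.exp (-(s * t)) := by
        rw [mul_assoc, ← Real.exp_add, add_neg_cancel, Real.exp_zero, mul_one]
    _ ≤ _ := mul_le_mul_of_nonneg_right h4 (Real.exp_pos _).le

theorem hoef' {m : ℕ} {E : Type} (Q : Fin m → Finset E) (hQ : ∀ i, (Q i).Nonempty)
    (F : Fin m → E → ℝ) (r : Fin m → ℝ) (hr : ∀ i, ∀ a ∈ Q i, ∀ b ∈ Q i, F i a - F i b ≤ r i)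
    (D t : ℝ) (hD : 0 < D) (ht : 0 ≤ t) (hrD : ∑ i, r i ^ 2 ≤ D) :
    (((Fintype.piFinset Q).filter fun ω =>
      ∑ i, F i (ω i) ≤ ∑ i, (∑ a ∈ Q i, F i a) / ((Q i).card : ℝ) - t).card : ℝ) ≤
      (Fintype.piFinset Q).card * Real.exp (-(t ^ 2 / (4 * D))) := by
  have h := hoef Q hQ (fun i a => - F i a) r
    (fun i a ha b hb => by have := hr i b hb a ha; linarith) D t hD ht hrD
  refine le_trans (le_of_eq ?_) h
  congr 2
  refine Finset.filter_congr fun ω _ => ?_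
  simp only [Finset.sum_neg_distrib, neg_div]
  constructor <;> intro h <;> linarith

end Pool.Agent.helper7.AQ
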