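import Pool.Agent.helper7.AQ.Xs
import Pool.Agent.helper7.AQ.Hoef

/-!
# AQ-Ev: the probabilities of the bad events (proofs: helper41)

`hoef`, `hoef'` with `Q = Qc G cl`.
* `ev_up`, `ev_low`: `F z a = |Q z| / N * (if a ∈ S then 1 else 0)`; the mean is `|S| / N` (`xs_avg` with the indicator function of `S ⊆ G`), the sum is
  `∑ e ∈ S, xs` (`xs_set`); `r z = 2 g / N` if `cl e = z` for some `e ∈ S` and `r z = 0` otherwise; `∑ (r z) ^ 2 ≤ |S| * (2 g / N) ^ 2 ≤ 4 g ^ 2 D / N ^ 2`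
  (`meet_count`), and `t ^ 2 / (4 * (4 g ^ 2 D / N ^ 2)) = t ^ 2 N ^ 2 / (16 g ^ 2 D)`.
* `ev_deg`: `F z a = if a ∈ S then 1 else 0`; the mean is `∑ z, |Q z ∩ S| / |Q z| ≤ |S| / g + 1` (for the cells with at least `g` elements
  `|Q z ∩ S| / |Q z| ≤ |Q z ∩ S| / g`; there is at most one other cell); `r z = 1` if `z` meets `S`, `0` otherwise; `∑ (r z) ^ 2 ≤ |S| ≤ D`.
* `ev_fun`: `F z a = |Q z| / N * f a`, `r z = 2 g / N * (2 B)`, `∑ (r z) ^ 2 = m * 16 g ^ 2 B ^ 2 / N ^ 2 ≤ 16 g ^ 2 B ^ 2 D / N ^ 2`; `xs_sum`, `xs_avg`.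
-/

set_option autoImplicit false

open Finset
open scoped Classical

namespace Pool.Agent.helper7.AQ

variable {E K : Type} {G : Finset E} {m : ℕ} {cl : E → Fin m} {N g : ℕ} {κ : E → K}

/-- the sum over `G` of the indicator function of `S` -/
private lemma ev_ind (S : Finset E) (h : S ⊆ G) :
    ∑ e ∈ G, (if e ∈ S then (1 : ℝ) else 0) = S.card := by
  rw [Finset.sum_ite_mem, Finset.inter_eq_right.mpr h, Finset.sum_const, nsmul_eq_mul, mul_one]

/-- the sum of the squares of the ranges -/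
private lemma ev_range (cl : E → Fin m) (S : Finset E) (c D : ℝ) (hSD : (S.card : ℝ) ≤ D) :
    ∑ z : Fin m, (if ∃ e ∈ S, cl e = z then c else 0) ^ 2 ≤ D * c ^ 2 := by
  have h1 : ∀ z : Fin m, (if ∃ e ∈ S, cl e = z then c else 0) ^ 2 =
      if ∃ e ∈ S, cl e = z then c ^ 2 else 0 := by
    intro z
    split_ifs
    · rfl
    · norm_num
  rw [Finset.sum_congr rfl fun z _ => h1 z, ← Finset.sum_filter, Finset.sum_const, nsmul_eq_mul]
  refine mul_le_mul_of_nonneg_right ?_ (sq_nonneg c)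
  have h2 : ((univ.filter fun z : Fin m => ∃ e ∈ S, cl e = z).card : ℝ) ≤ (S.card : ℝ) := by
    exact_mod_cast meet_count (cl := cl) S
  exact h2.trans hSD

/-- the ranges for the indicator function of `S` -/
private lemma ev_diff (h : Cell G κ m cl g) (hN : 0 < N) (S : Finset E) (z : Fin m) (a : E)
    (ha : a ∈ Qc G cl z) (b : E) :
    ((Qc G cl z).card : ℝ) / N * (if a ∈ S then 1 else 0) -
      ((Qc G cl z).card : ℝ) / N * (if b ∈ S then 1 else 0) ≤
      if ∃ e ∈ S, cl e = z then (2 * (g : ℝ) / N) else 0 := by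
  have hN' : (0 : ℝ) < N := by exact_mod_cast hN
  have h0 : (0 : ℝ) ≤ ((Qc G cl z).card : ℝ) / N := by positivity
  have h1 : (0 : ℝ) ≤ ((Qc G cl z).card : ℝ) / N * (if b ∈ S then 1 else 0) := by
    split_ifs
    · rw [mul_one]
      exact h0
    · rw [mul_zero]
  have h2 : ((Qc G cl z).card : ℝ) / N ≤ 2 * (g : ℝ) / N := by
    refine div_le_div_of_nonneg_right ?_ hN'.le
    exact_mod_cast h.le z
  have h3 : (0 : ℝ) ≤ 2 * (g : ℝ) / N := by positivity
  by_cases hS : a ∈ S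
  · have hz : ∃ e ∈ S, cl e = z := by
      refine ⟨a, hS, ?_⟩
      unfold Qc at ha
      exact (Finset.mem_filter.mp ha).2
    rw [if_pos hS, if_pos hz]
    linarith
  · rw [if_neg hS]
    have h4 : (0 : ℝ) ≤ if ∃ e ∈ S, cl e = z then (2 * (g : ℝ) / N) else 0 := by
      split_ifs
      · exact h3
      · exact le_refl _
    linarith

/-- the exponent -/
private lemma ev_expo (D t : ℝ) (hD : 0 < D) (hN : 0 < N) (hg : 0 < g) :
    t ^ 2 / (4 * (D * (2 * (g : ℝ) / N) ^ 2)) = t ^ 2 * (N : ℝ) ^ 2 / (16 * (g : ℝ) ^ 2 * D) := by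
  have hN' : (0 : ℝ) < N := by exact_mod_cast hN
  have hg' : (0 : ℝ) < g := by exact_mod_cast hg
  field_simp
  ring

theorem ev_up (h : Cell G κ m cl g) (hN : 0 < N) (hg : 0 < g) (S : Finset E) (hS : S ⊆ G)
    (D t : ℝ) (hD : 0 < D) (hSD : (S.card : ℝ) ≤ D) (ht : 0 ≤ t) :
    (((Om G cl).filter fun ω => (S.card : ℝ) / N + t ≤ ∑ e ∈ S, xs G cl N ω e).card : ℝ) ≤
      (Om G cl).card * Real.exp (-(t ^ 2 * N ^ 2 / (16 * g ^ 2 * D))) := by
  have hN' : (0 : ℝ) < N := by exact_mod_cast hN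
  have hg' : (0 : ℝ) < g := by exact_mod_cast hg
  have hD' : (0 : ℝ) < D * (2 * (g : ℝ) / N) ^ 2 := by positivity
  have key := hoef (Qc G cl) h.ne
    (fun z a => ((Qc G cl z).card : ℝ) / N * (if a ∈ S then 1 else 0))
    (fun z => if ∃ e ∈ S, cl e = z then (2 * (g : ℝ) / N) else 0)
    (fun z a ha b _ => ev_diff h hN S z a ha b)
    (D * (2 * (g : ℝ) / N) ^ 2) t hD' ht (ev_range cl S _ D hSD)
  rw [ev_expo D t hD hN hg, xs_avg h (fun a => if a ∈ S then (1 : ℝ) else 0),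
    ev_ind S hS] at key
  refine le_trans ?_ key
  refine Nat.cast_le.mpr (Finset.card_le_card ?_)
  intro ω hω
  rw [Finset.mem_filter] at hω ⊢
  refine ⟨hω.1, ?_⟩
  have h1 := hω.2
  rw [xs_set hω.1] at h1
  have h2 : 1 / (N : ℝ) * (S.card : ℝ) = (S.card : ℝ) / N := by ring
  rw [h2]
  exact h1

theorem ev_low (h : Cell G κ m cl g) (hN : 0 < N) (hg : 0 < g) (S : Finset E) (hS : S ⊆ G)
    (D t : ℝ) (hD : 0 < D) (hSD : (S.card : ℝ) ≤ D) (ht : 0 ≤ t) :
    (((Om G cl).filter fun ω => ∑ e ∈ S, xs G cl N ω e ≤ (S.card : ℝ) / N - t).card : ℝ) ≤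
      (Om G cl).card * Real.exp (-(t ^ 2 * N ^ 2 / (16 * g ^ 2 * D))) := by
  have hN' : (0 : ℝ) < N := by exact_mod_cast hN
  have hg' : (0 : ℝ) < g := by exact_mod_cast hg
  have hD' : (0 : ℝ) < D * (2 * (g : ℝ) / N) ^ 2 := by positivity
  have key := hoef' (Qc G cl) h.ne
    (fun z a => ((Qc G cl z).card : ℝ) / N * (if a ∈ S then 1 else 0))
    (fun z => if ∃ e ∈ S, cl e = z then (2 * (g : ℝ) / N) else 0)
    (fun z a ha b _ => ev_diff h hN S z a ha b)
    (D * (2 * (g : ℝ) / N) ^ 2) t hD' ht (ev_range cl S _ D hSD)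
  rw [ev_expo D t hD hN hg, xs_avg h (fun a => if a ∈ S then (1 : ℝ) else 0),
    ev_ind S hS] at key
  refine le_trans ?_ key
  refine Nat.cast_le.mpr (Finset.card_le_card ?_)
  intro ω hω
  rw [Finset.mem_filter] at hω ⊢
  refine ⟨hω.1, ?_⟩
  have h1 := hω.2
  rw [xs_set hω.1] at h1
  have h2 : 1 / (N : ℝ) * (S.card : ℝ) = (S.card : ℝ) / N := by ring
  rw [h2]
  exact h1

theorem ev_deg (h : Cell G κ m cl g) (hg : 0 < g) (S : Finset E) (hS : S ⊆ G)
    (D t : ℝ) (hD : 0 < D) (hSD : (S.card : ℝ) ≤ D) (ht : 0 ≤ t) :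
    (((Om G cl).filter fun ω => (S.card : ℝ) / g + 1 + t ≤
      ((univ.filter fun z : Fin m => ω z ∈ S).card : ℝ)).card : ℝ) ≤
      (Om G cl).card * Real.exp (-(t ^ 2 / (4 * D))) := by
  have hg' : (0 : ℝ) < g := by exact_mod_cast hg
  have hpos : ∀ z, (0 : ℝ) < ((Qc G cl z).card : ℝ) := fun z => by
    exact_mod_cast Finset.card_pos.mpr (h.ne z)
  have key := hoef (Qc G cl) h.ne
    (fun _ a => if a ∈ S then (1 : ℝ) else 0)
    (fun z => if ∃ e ∈ S, cl e = z then (1 : ℝ) else 0)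
    (by
      intro z a ha b _
      have h1 : (0 : ℝ) ≤ if b ∈ S then (1 : ℝ) else 0 := by
        split_ifs
        · exact zero_le_one
        · exact le_refl _
      by_cases hS' : a ∈ S
      · have hz : ∃ e ∈ S, cl e = z := by
          refine ⟨a, hS', ?_⟩
          unfold Qc at ha
          exact (Finset.mem_filter.mp ha).2
        simp only [if_pos hS', if_pos hz]
        linarith
      · simp only [if_neg hS']
        have h2 : (0 : ℝ) ≤ if ∃ e ∈ S, cl e = z then (1 : ℝ) else 0 := by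
          split_ifs
          · exact zero_le_one
          · exact le_refl _
        linarith)
    D t hD ht (by
      have h1 := ev_range cl S 1 D hSD
      rwa [one_pow, mul_one] at h1)
  refine le_trans ?_ key
  refine Nat.cast_le.mpr (Finset.card_le_card ?_)
  intro ω hω
  rw [Finset.mem_filter] at hω ⊢
  refine ⟨hω.1, ?_⟩
  have h1 := hω.2
  have h2 : ((univ.filter fun z : Fin m => ω z ∈ S).card : ℝ) =
      ∑ z, (if ω z ∈ S then (1 : ℝ) else 0) := by
    rw [← Finset.sum_filter, Finset.sum_const, nsmul_eq_mul, mul_one]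
  rw [h2] at h1
  refine le_trans ?_ h1
  have h3 : ∑ z, (∑ a ∈ Qc G cl z, (if a ∈ S then (1 : ℝ) else 0)) / ((Qc G cl z).card : ℝ) ≤
      (S.card : ℝ) / g + 1 := by
    have hc : ∀ z, (0 : ℝ) ≤ ∑ a ∈ Qc G cl z, (if a ∈ S then (1 : ℝ) else 0) := by
      intro z
      refine Finset.sum_nonneg fun a _ => ?_
      split_ifs
      · exact zero_le_one
      · exact le_refl _
    have hc1 : ∀ z, ∑ a ∈ Qc G cl z, (if a ∈ S then (1 : ℝ) else 0) ≤
        ((Qc G cl z).card : ℝ) := by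
      intro z
      have : ∑ a ∈ Qc G cl z, (if a ∈ S then (1 : ℝ) else 0) ≤ ∑ a ∈ Qc G cl z, (1 : ℝ) := by
        refine Finset.sum_le_sum fun a _ => ?_
        split_ifs
        · exact le_refl _
        · exact zero_le_one
      rwa [Finset.sum_const, nsmul_eq_mul, mul_one] at this
    have hfib : ∑ z, ∑ a ∈ Qc G cl z, (if a ∈ S then (1 : ℝ) else 0) = (S.card : ℝ) := by
      rw [← ev_ind S hS]
      unfold Qc
      exact Finset.sum_fiberwise G cl _
    have hsg : ∀ z, (∑ a ∈ Qc G cl z, (if a ∈ S then (1 : ℝ) else 0)) / ((Qc G cl z).card : ℝ) ≤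
        (∑ a ∈ Qc G cl z, (if a ∈ S then (1 : ℝ) else 0)) / g +
          (if (Qc G cl z).card < g then 1 else 0) := by
      intro z
      by_cases hz : (Qc G cl z).card < g
      · rw [if_pos hz]
        have h4 : (∑ a ∈ Qc G cl z, (if a ∈ S then (1 : ℝ) else 0)) / ((Qc G cl z).card : ℝ) ≤
            1 := by
          rw [div_le_one (hpos z)]
          exact hc1 z
        have h5 : (0 : ℝ) ≤ (∑ a ∈ Qc G cl z, (if a ∈ S then (1 : ℝ) else 0)) / g :=
          div_nonneg (hc z) hg'.le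
        linarith
      · rw [if_neg hz, add_zero]
        refine div_le_div_of_nonneg_left (hc z) hg' ?_
        exact_mod_cast (not_lt.mp hz)
    have hsum := Finset.sum_le_sum (s := (univ : Finset (Fin m))) (fun z _ => hsg z)
    rw [Finset.sum_add_distrib, ← Finset.sum_div, hfib] at hsum
    refine hsum.trans ?_
    have h6 : ∑ z, (if (Qc G cl z).card < g then (1 : ℝ) else 0) ≤ 1 := by
      rw [← Finset.sum_filter, Finset.sum_const, nsmul_eq_mul, mul_one]
      have h7 : (univ.filter fun z : Fin m => (Qc G cl z).card < g).card ≤ 1 := by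
        rw [Finset.card_le_one]
        intro a ha b hb
        exact h.ge a b (Finset.mem_filter.mp ha).2 (Finset.mem_filter.mp hb).2
      exact_mod_cast h7
    linarith
  linarith

theorem ev_fun [Fintype E] (h : Cell G κ m cl g) (hN : 0 < N) (hg : 0 < g) (f : E → ℝ)
    (B D t : ℝ) (hB : 0 < B) (hf : ∀ e, |f e| ≤ B) (hD : 0 < D) (hmD : (m : ℝ) ≤ D)
    (ht : 0 ≤ t) :
    (((Om G cl).filter fun ω => 1 / N * ∑ e ∈ G, f e + t ≤
      ∑ e, f e * xs G cl N ω e).card : ℝ) ≤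
      (Om G cl).card * Real.exp (-(t ^ 2 * N ^ 2 / (64 * g ^ 2 * B ^ 2 * D))) := by
  have hN' : (0 : ℝ) < N := by exact_mod_cast hN
  have hg' : (0 : ℝ) < g := by exact_mod_cast hg
  have hD' : (0 : ℝ) < 16 * (g : ℝ) ^ 2 * B ^ 2 * D / (N : ℝ) ^ 2 := by positivity
  have key := hoef (Qc G cl) h.ne
    (fun z a => ((Qc G cl z).card : ℝ) / N * f a)
    (fun _ => 2 * (g : ℝ) / N * (2 * B))
    (by
      intro z a _ b _
      have h0 : (0 : ℝ) ≤ ((Qc G cl z).card : ℝ) / N := by positivity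
      have h2 : ((Qc G cl z).card : ℝ) / N ≤ 2 * (g : ℝ) / N := by
        refine div_le_div_of_nonneg_right ?_ hN'.le
        exact_mod_cast h.le z
      have h3 : f a - f b ≤ 2 * B := by
        have h4 := (abs_le.mp (hf a)).2
        have h5 := (abs_le.mp (hf b)).1
        linarith
      calc ((Qc G cl z).card : ℝ) / N * f a - ((Qc G cl z).card : ℝ) / N * f b
          = ((Qc G cl z).card : ℝ) / N * (f a - f b) := by ring
        _ ≤ ((Qc G cl z).card : ℝ) / N * (2 * B) := mul_le_mul_of_nonneg_left h3 h0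
        _ ≤ 2 * (g : ℝ) / N * (2 * B) := mul_le_mul_of_nonneg_right h2 (by positivity))
    (16 * (g : ℝ) ^ 2 * B ^ 2 * D / (N : ℝ) ^ 2) t hD' ht (by
      rw [Finset.sum_const, Finset.card_univ, Fintype.card_fin, nsmul_eq_mul]
      have h6 : (2 * (g : ℝ) / N * (2 * B)) ^ 2 = 16 * (g : ℝ) ^ 2 * B ^ 2 / (N : ℝ) ^ 2 := by
        field_simp
        ring
      rw [h6]
      have h7 : (0 : ℝ) ≤ 16 * (g : ℝ) ^ 2 * B ^ 2 / (N : ℝ) ^ 2 := by positivity
      calc (m : ℝ) * (16 * (g : ℝ) ^ 2 * B ^ 2 / (N : ℝ) ^ 2)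
          ≤ D * (16 * (g : ℝ) ^ 2 * B ^ 2 / (N : ℝ) ^ 2) := mul_le_mul_of_nonneg_right hmD h7
        _ = 16 * (g : ℝ) ^ 2 * B ^ 2 * D / (N : ℝ) ^ 2 := by ring)
  have hexp : t ^ 2 / (4 * (16 * (g : ℝ) ^ 2 * B ^ 2 * D / (N : ℝ) ^ 2)) =
      t ^ 2 * (N : ℝ) ^ 2 / (64 * (g : ℝ) ^ 2 * B ^ 2 * D) := by
    field_simp
    ring
  rw [hexp, xs_avg h f] at key
  refine le_trans ?_ key
  refine Nat.cast_le.mpr (Finset.card_le_card ?_)
  intro ω hω
  rw [Finset.mem_filter] at hω ⊢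
  refine ⟨hω.1, ?_⟩
  have h1 := hω.2
  rw [xs_sum hω.1] at h1
  exact h1

end Pool.Agent.helper7.AQ
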