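import Pool.Agent.helper7.AQ.Quad

/-!
# AQ-FM: the weights from the cube of the deviation matrix (helper7, helper11)

* `cube_abs`: `|(M M M) u v| ≤ ∑ a b, |M u a| |M a b| |M b v| ≤ (card V) ^ 2 = 4 n ^ 2`.
* `fM_abs`: at most two ordered pairs `p` with `s(p.1, p.2) = e`, so `|fM M e| ≤ 4 * 2 * 4 n ^ 2 = 32 n ^ 2`.
* `fM_sum`: `∑ e ∈ T, ∑ (p with s(p) = e) g p = ∑ p, if s(p) ∈ T then g p else 0` (`Finset.sum_fiberwise`-like exchange).
* `deg_sum`: every edge of `T` is in `atV T v` for exactly two vertices `v` (not diagonal): `∑ v, |atV T v| = 2 |T|`.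
* `deg_adj`: `∑ u, adj T u v = |atV T v|` (`u ↦ s(u, v)` is a bijection from the neighbours of `v` to the edges at `v`).
* `deg_pos`: in a connected graph with at least two vertices every vertex has a neighbour.
-/

set_option autoImplicit false
set_option linter.unusedSectionVars false

open Finset

namespace Pool.Agent.helper7.AQ

variable {V : Type} [Fintype V] [DecidableEq V] {n : ℕ}

theorem cube_abs (hV : Fintype.card V = 2 * n) (M : Matrix V V ℝ) (h : ∀ u v, |M u v| ≤ 1)
    (u v : V) : |(M * M * M) u v| ≤ 4 * (n : ℝ) ^ 2 := by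
  have h1 : ∀ a b, |(M * M) a b| ≤ 2 * (n : ℝ) := by
    intro a b
    rw [Matrix.mul_apply]
    refine (Finset.abs_sum_le_sum_abs _ _).trans ?_
    have h2 : ∑ c, |M a c * M c b| ≤ ∑ _c : V, (1 : ℝ) := by
      refine Finset.sum_le_sum fun c _ => ?_
      rw [abs_mul]
      exact mul_le_one₀ (h a c) (abs_nonneg _) (h c b)
    refine h2.trans (le_of_eq ?_)
    rw [Finset.sum_const, Finset.card_univ, hV, nsmul_eq_mul, mul_one]
    push_cast
    ring
  rw [Matrix.mul_apply]
  refine (Finset.abs_sum_le_sum_abs _ _).trans ?_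
  have h2 : ∑ c, |(M * M) u c * M c v| ≤ ∑ _c : V, 2 * (n : ℝ) := by
    refine Finset.sum_le_sum fun c _ => ?_
    rw [abs_mul]
    calc |(M * M) u c| * |M c v| ≤ (2 * (n : ℝ)) * 1 :=
          mul_le_mul (h1 u c) (h c v) (abs_nonneg _) (by positivity)
      _ = 2 * (n : ℝ) := mul_one _
  refine h2.trans (le_of_eq ?_)
  rw [Finset.sum_const, Finset.card_univ, hV, nsmul_eq_mul]
  push_cast
  ring

private theorem FM_two (e : Sym2 V) :
    (univ.filter (fun p : V × V => s(p.1, p.2) = e)).card ≤ 2 := by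
  induction e using Sym2.ind with
  | _ u v =>
    have h1 : univ.filter (fun p : V × V => s(p.1, p.2) = s(u, v)) ⊆ {(u, v), (v, u)} := by
      intro p hp
      rw [Finset.mem_filter] at hp
      obtain ⟨a, b⟩ := p
      rcases Sym2.eq_iff.1 hp.2 with ⟨h2, h3⟩ | ⟨h2, h3⟩
      · rw [Finset.mem_insert]
        left
        rw [Prod.mk.injEq]
        exact ⟨h2, h3⟩
      · rw [Finset.mem_insert, Finset.mem_singleton]
        right
        rw [Prod.mk.injEq]
        exact ⟨h2, h3⟩
    exact (Finset.card_le_card h1).trans Finset.card_le_two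

theorem fM_abs (hV : Fintype.card V = 2 * n) (M : Matrix V V ℝ) (h : ∀ u v, |M u v| ≤ 1)
    (e : Sym2 V) : |fM M e| ≤ 32 * (n : ℝ) ^ 2 := by
  unfold fM
  rw [abs_mul]
  have h1 : |∑ p ∈ univ.filter (fun p : V × V => s(p.1, p.2) = e), (M * M * M) p.1 p.2| ≤
      8 * (n : ℝ) ^ 2 := by
    refine (Finset.abs_sum_le_sum_abs _ _).trans ?_
    have h2 : ∑ p ∈ univ.filter (fun p : V × V => s(p.1, p.2) = e), |(M * M * M) p.1 p.2| ≤
        ∑ p ∈ univ.filter (fun p : V × V => s(p.1, p.2) = e), 4 * (n : ℝ) ^ 2 :=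
      Finset.sum_le_sum fun p _ => cube_abs hV M h p.1 p.2
    refine h2.trans ?_
    rw [Finset.sum_const, nsmul_eq_mul]
    have h3 : ((univ.filter (fun p : V × V => s(p.1, p.2) = e)).card : ℝ) ≤ 2 := by
      exact_mod_cast FM_two e
    have h4 : (0 : ℝ) ≤ 4 * (n : ℝ) ^ 2 := by positivity
    have h5 := mul_le_mul_of_nonneg_right h3 h4
    linarith
  have h2 : |(-4 : ℝ)| = 4 := by norm_num
  rw [h2]
  linarith

theorem fM_sum (M : Matrix V V ℝ) (T : Finset (Sym2 V)) :
    ∑ e ∈ T, fM M e = -4 * ∑ u, ∑ v, (M * M * M) u v * adj T u v := by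
  unfold fM
  rw [← Finset.mul_sum]
  congr 1
  rw [← Fintype.sum_prod_type (f := fun p : V × V => (M * M * M) p.1 p.2 * adj T p.1 p.2)]
  have h1 : ∀ e ∈ T, ∑ p ∈ univ.filter (fun p : V × V => s(p.1, p.2) = e), (M * M * M) p.1 p.2 =
      ∑ p : V × V, if s(p.1, p.2) = e then (M * M * M) p.1 p.2 else 0 := fun e _ => by
    rw [Finset.sum_filter]
  rw [Finset.sum_congr rfl h1, Finset.sum_comm]
  refine Finset.sum_congr rfl fun p _ => ?_
  rw [Finset.sum_ite_eq]
  unfold adj
  split_ifs <;> simp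

theorem deg_sum (T : Finset (Sym2 V)) (hT : ∀ e ∈ T, ¬ e.IsDiag) :
    ∑ v, (atV T v).card = 2 * T.card := by
  classical
  have h1 : ∀ v, (atV T v).card = ∑ e ∈ T, if v ∈ e then 1 else 0 := by
    intro v
    unfold atV
    rw [Finset.card_filter]
  rw [Finset.sum_congr rfl fun v _ => h1 v, Finset.sum_comm]
  have h2 : ∀ e ∈ T, (∑ v : V, if v ∈ e then 1 else 0) = 2 := by
    intro e he
    have hd := hT e he
    rw [← Finset.card_filter]
    induction e using Sym2.ind with
    | _ a b =>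
      have hab : a ≠ b := by
        intro h
        exact hd (Sym2.mk_isDiag_iff.2 h)
      have h3 : univ.filter (fun v => v ∈ s(a, b)) = {a, b} := by
        ext v
        simp [Sym2.mem_iff]
      rw [h3, Finset.card_pair hab]
  rw [Finset.sum_congr rfl h2, Finset.sum_const, smul_eq_mul, mul_comm]

theorem deg_adj (T : Finset (Sym2 V)) (v : V) : ∑ u, adj T u v = ((atV T v).card : ℝ) := by
  classical
  have h1 : atV T v = (univ.filter fun u => s(u, v) ∈ T).image fun u => s(u, v) := by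
    ext e
    unfold atV
    rw [Finset.mem_filter, Finset.mem_image]
    constructor
    · rintro ⟨he, hv⟩
      obtain ⟨u, rfl⟩ := hv
      refine ⟨u, ?_, Sym2.eq_swap⟩
      rw [Finset.mem_filter]
      refine ⟨Finset.mem_univ _, ?_⟩
      rwa [Sym2.eq_swap]
    · rintro ⟨u, hu, rfl⟩
      rw [Finset.mem_filter] at hu
      exact ⟨hu.2, Sym2.mem_mk_right _ _⟩
  have h2 : (atV T v).card = (univ.filter fun u => s(u, v) ∈ T).card := by
    rw [h1]
    refine Finset.card_image_of_injective _ fun a b hab => ?_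
    exact Sym2.congr_left.1 hab
  rw [h2, Finset.card_filter]
  push_cast
  refine Finset.sum_congr rfl fun u _ => ?_
  unfold adj
  split_ifs <;> rfl

theorem deg_pos (T : Finset (Sym2 V)) (hV : 2 ≤ Fintype.card V)
    (hT : (SimpleGraph.fromEdgeSet (T : Set (Sym2 V))).Connected) (v : V) :
    1 ≤ (atV T v).card := by
  classical
  obtain ⟨w, hw⟩ := Fintype.exists_ne_of_one_lt_card (by omega : 1 < Fintype.card V) v
  obtain ⟨p⟩ := hT.preconnected v w
  cases p with
  | nil => exact absurd rfl hw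
  | @cons _ x _ hx _ =>
    rw [SimpleGraph.fromEdgeSet_adj] at hx
    have h1 : s(v, x) ∈ T := hx.1
    rw [Nat.one_le_iff_ne_zero, Finset.card_ne_zero]
    refine ⟨s(v, x), ?_⟩
    unfold atV
    rw [Finset.mem_filter]
    exact ⟨h1, Sym2.mem_mk_left _ _⟩

end Pool.Agent.helper7.AQ
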