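import Pool.Agent.helper7.AQ.Aug

/-!
# AQ-Sg: the direct sum of the minors of a chain

Let `c i ⊆ c (i + 1)` for all `i`, and `S_i = (S ∩ c (i + 1)) ∪ c i`.
* `sg_rk`: every summand `ρ S_i - ρ (c i)` is monotone in `S` and submodular (`(S ∪ T)_i = S_i ∪ T_i`, `(S ∩ T)_i = S_i ∩ T_i`; no
  truncation because `c i ⊆ S_i`), and `0` for `S = ∅`.  Unit: `(insert e S)_i ≠ S_i` only if `e ∈ c (i + 1)`, `e ∉ c i`; this is the case for at
  most one `i` (monotone chain), and for this `i` the summand grows by at most `1` (`unit`).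
* `sg_le`: if `c 0 = ∅`: induction on `l`: `ρ (S ∩ c l) ≥ sg ρ c l S`: the step is
  `ρ (S ∩ c (l + 1)) + ρ (c l) ≥ ρ ((S ∩ c (l + 1)) ∪ c l) + ρ (S ∩ c l)` (`submod`; the intersection of `S ∩ c (l + 1)` and `c l` is `S ∩ c l`).
* `sg_top`: `sg ρ c l (c l)`: for `i < l`, `(c l)_i = c (i + 1)`, so the sum telescopes to `ρ (c l) - ρ (c 0)`.
* `le_sg`: if all `c i` are tight, `S ⊆ c l`: `x S = ∑ i < l, x (S ∩ (c (i + 1) \ c i))` and
  `x (S ∩ (c (i + 1) \ c i)) = x S_i - x (c i) ≤ ρ S_i - ρ (c i)`.  (Induction on `l` for `x (S ∩ c l) ≤ sg ρ c l S`, `c 0 = ∅`.)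
-/

set_option autoImplicit false

open Finset

namespace Pool.Agent.helper7.AQ

variable {E K : Type} [DecidableEq E] {ρ : Finset E → ℕ}

omit [DecidableEq E] in
private theorem sg_mono {c : ℕ → Finset E} (hc : ∀ i, c i ⊆ c (i + 1)) {i j : ℕ} (h : i ≤ j) :
    c i ⊆ c j :=
  monotone_nat_of_le_succ hc h

theorem sg_rk (hρ : Rk ρ) (c : ℕ → Finset E) (hc : ∀ i, c i ⊆ c (i + 1)) (l : ℕ) :
    Rk (sg ρ c l) := by
  refine ⟨?_, ?_, ?_, ?_⟩
  · unfold sg
    refine Finset.sum_eq_zero fun i _ => ?_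
    rw [Finset.empty_inter, Finset.empty_union, Nat.sub_self]
  · intro S T h
    unfold sg
    refine Finset.sum_le_sum fun i _ => Nat.sub_le_sub_right (hρ.mono _ _ ?_) _
    exact Finset.union_subset_union (Finset.inter_subset_inter h (Finset.Subset.refl _))
      (Finset.Subset.refl _)
  · intro S T
    unfold sg
    rw [← Finset.sum_add_distrib, ← Finset.sum_add_distrib]
    refine Finset.sum_le_sum fun i _ => ?_
    have h := hρ.submod ((S ∩ c (i + 1)) ∪ c i) ((T ∩ c (i + 1)) ∪ c i)
    have e1 : ((S ∩ c (i + 1)) ∪ c i) ∪ ((T ∩ c (i + 1)) ∪ c i) = ((S ∪ T) ∩ c (i + 1)) ∪ c i := by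
      ext e
      simp only [Finset.mem_union, Finset.mem_inter]
      tauto
    have e2 : ((S ∩ c (i + 1)) ∪ c i) ∩ ((T ∩ c (i + 1)) ∪ c i) = ((S ∩ T) ∩ c (i + 1)) ∪ c i := by
      ext e
      simp only [Finset.mem_union, Finset.mem_inter]
      tauto
    rw [e1, e2] at h
    have m1 := hρ.mono (c i) ((S ∩ c (i + 1)) ∪ c i) Finset.subset_union_right
    have m2 := hρ.mono (c i) ((T ∩ c (i + 1)) ∪ c i) Finset.subset_union_right
    have m3 := hρ.mono (c i) (((S ∪ T) ∩ c (i + 1)) ∪ c i) Finset.subset_union_right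
    have m4 := hρ.mono (c i) (((S ∩ T) ∩ c (i + 1)) ∪ c i) Finset.subset_union_right
    omega
  · intro S e
    by_cases hex : ∃ i, i < l ∧ e ∈ c (i + 1) ∧ e ∉ c i
    · obtain ⟨i0, hi0, h1, h2⟩ := hex
      have key : ∀ i ∈ range l, ρ ((insert e S ∩ c (i + 1)) ∪ c i) - ρ (c i)
          ≤ (ρ ((S ∩ c (i + 1)) ∪ c i) - ρ (c i)) + (if i = i0 then 1 else 0) := by
        intro i _
        by_cases hi : i = i0
        · subst hi
          rw [if_pos rfl]
          have e1 : (insert e S ∩ c (i + 1)) ∪ c i = insert e ((S ∩ c (i + 1)) ∪ c i) := by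
            rw [Finset.insert_inter_of_mem h1, Finset.insert_union]
          rw [e1]
          have := hρ.unit ((S ∩ c (i + 1)) ∪ c i) e
          have m := hρ.mono (c i) ((S ∩ c (i + 1)) ∪ c i) Finset.subset_union_right
          omega
        · rw [if_neg hi, add_zero]
          have e1 : (insert e S ∩ c (i + 1)) ∪ c i = (S ∩ c (i + 1)) ∪ c i := by
            rcases lt_or_gt_of_ne hi with h | h
            · have : e ∉ c (i + 1) := fun h' => h2 (sg_mono hc h h')
              rw [Finset.insert_inter_of_notMem this]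
            · have hei : e ∈ c i := sg_mono hc h h1
              ext a
              simp only [Finset.mem_union, Finset.mem_inter, Finset.mem_insert]
              constructor
              · rintro (⟨rfl | h3, h4⟩ | h3)
                · exact Or.inr hei
                · exact Or.inl ⟨h3, h4⟩
                · exact Or.inr h3
              · rintro (⟨h3, h4⟩ | h3)
                · exact Or.inl ⟨Or.inr h3, h4⟩
                · exact Or.inr h3
          rw [e1]
      unfold sg
      refine (Finset.sum_le_sum key).trans ?_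
      rw [Finset.sum_add_distrib, Finset.sum_ite_eq' (range l) i0 (fun _ => 1),
        if_pos (Finset.mem_range.2 hi0)]
    · have key : ∀ i ∈ range l, ρ ((insert e S ∩ c (i + 1)) ∪ c i) - ρ (c i)
          = ρ ((S ∩ c (i + 1)) ∪ c i) - ρ (c i) := by
        intro i hi
        have e1 : (insert e S ∩ c (i + 1)) ∪ c i = (S ∩ c (i + 1)) ∪ c i := by
          by_cases he : e ∈ c (i + 1)
          · have hei : e ∈ c i := by
              by_contra h
              exact hex ⟨i, Finset.mem_range.1 hi, he, h⟩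
            ext a
            simp only [Finset.mem_union, Finset.mem_inter, Finset.mem_insert]
            constructor
            · rintro (⟨rfl | h3, h4⟩ | h3)
              · exact Or.inr hei
              · exact Or.inl ⟨h3, h4⟩
              · exact Or.inr h3
            · rintro (⟨h3, h4⟩ | h3)
              · exact Or.inl ⟨Or.inr h3, h4⟩
              · exact Or.inr h3
          · rw [Finset.insert_inter_of_notMem he]
        rw [e1]
      unfold sg
      rw [Finset.sum_congr rfl key]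
      exact Nat.le_succ _

theorem sg_le (hρ : Rk ρ) (c : ℕ → Finset E) (h0 : c 0 = ∅) (hc : ∀ i, c i ⊆ c (i + 1)) (l : ℕ)
    (S : Finset E) : sg ρ c l S ≤ ρ S := by
  have key : ∀ l, sg ρ c l S ≤ ρ (S ∩ c l) := by
    intro l
    induction l with
    | zero => simp [sg]
    | succ l ih =>
      unfold sg at ih ⊢
      rw [Finset.sum_range_succ]
      have h := hρ.submod (S ∩ c (l + 1)) (c l)
      have e1 : (S ∩ c (l + 1)) ∩ c l = S ∩ c l := by
        ext a
        simp only [Finset.mem_inter]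
        constructor
        · rintro ⟨⟨h1, _⟩, h2⟩
          exact ⟨h1, h2⟩
        · rintro ⟨h1, h2⟩
          exact ⟨⟨h1, hc l h2⟩, h2⟩
      rw [e1] at h
      have m := hρ.mono (c l) ((S ∩ c (l + 1)) ∪ c l) Finset.subset_union_right
      omega
  exact (key l).trans (hρ.mono _ _ Finset.inter_subset_left)

theorem sg_top (hρ : Rk ρ) (c : ℕ → Finset E) (h0 : c 0 = ∅) (hc : ∀ i, c i ⊆ c (i + 1))
    (l : ℕ) : sg ρ c l (c l) = ρ (c l) := by
  unfold sg
  have key : ∀ i ∈ range l, ρ ((c l ∩ c (i + 1)) ∪ c i) - ρ (c i) = ρ (c (i + 1)) - ρ (c i) := by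
    intro i hi
    have h1 : c (i + 1) ⊆ c l := sg_mono hc (Finset.mem_range.1 hi)
    rw [Finset.inter_eq_right.2 h1, Finset.union_eq_left.2 (hc i)]
  rw [Finset.sum_congr rfl key,
    Finset.sum_range_tsub (f := fun i => ρ (c i)) (monotone_nat_of_le_succ fun i =>
      hρ.mono _ _ (hc i)), h0, hρ.empty, Nat.sub_zero]

theorem le_sg [Fintype E] (hρ : Rk ρ) (κ : E → K) (x : E → ℝ) (hx : Pol ρ κ x)
    (c : ℕ → Finset E) (h0 : c 0 = ∅) (hc : ∀ i, c i ⊆ c (i + 1)) (ht : ∀ i, Tight ρ x (c i))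
    (l : ℕ) (S : Finset E) (hS : S ⊆ c l) : ∑ e ∈ S, x e ≤ sg ρ c l S := by
  have key : ∀ l, ∑ e ∈ S ∩ c l, x e ≤ sg ρ c l S := by
    intro l
    induction l with
    | zero => simp [sg, h0]
    | succ l ih =>
      unfold sg at ih ⊢
      rw [Finset.sum_range_succ]
      have h := Finset.sum_union_inter (s₁ := S ∩ c (l + 1)) (s₂ := c l) (f := x)
      have e1 : (S ∩ c (l + 1)) ∩ c l = S ∩ c l := by
        ext a
        simp only [Finset.mem_inter]
        constructor
        · rintro ⟨⟨h1, _⟩, h2⟩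
          exact ⟨h1, h2⟩
        · rintro ⟨h1, h2⟩
          exact ⟨⟨h1, hc l h2⟩, h2⟩
      rw [e1] at h
      have m := hρ.mono (c l) ((S ∩ c (l + 1)) ∪ c l) Finset.subset_union_right
      have h2 := hx.le ((S ∩ c (l + 1)) ∪ c l)
      have h3 : ∑ e ∈ c l, x e = ρ (c l) := ht l
      rw [Nat.cast_add, Nat.cast_sub m]
      linarith
  have := key l
  rwa [Finset.inter_eq_left.2 hS] at this

end Pool.Agent.helper7.AQ
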