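import Pool.Agent.helper7.AQ.Trans
import Pool.Agent.helper7.AQ.Chain
import Pool.Agent.helper7.AQ.Sg

/-!
# AQ-Face: a rainbow base in the minimal face of a point of the matroid intersection polytope

PROOF.  Let `P = {e | 0 < x e}`, `c`, `l` from `chain`, `σ = sg ρ c l` (`sg_rk`), `r = ρ univ`, `Kt` = the set of the `k` with
`∑ e ∈ col univ κ k, x e = 1`.  `transversal` with `S = P`:
(a) for `J ⊆ Kt`: `|J| = ∑ k ∈ J, x (col univ κ k) = x (cols univ κ J) = x (cols P κ J) ≤ σ (cols P κ J)` (`le_sg`; `x` vanishes outside of `P`).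
(b) `r = x univ = x (cols univ κ J) + ∑ k ∉ J, x (col univ κ k) ≤ σ (cols P κ J) + (|K| - |J|)`.
This gives `F ⊆ P` with `F.card = σ F ≥ r`.  By `sg_le`: `r ≤ σ F ≤ ρ F ≤ ρ univ = r`, so `F.card = σ F = ρ F = r`.
Tight sets: let `S` be tight, `S' = S ∩ P`.  `S'` is tight (`tight_union_inter`, `tight_supp`), `x S' = x S`, so `ρ S' = ρ S`.  For `i < l` let
`S_i = (S' ∩ c (i + 1)) ∪ c i`: it is tight (`tight_union_inter`), so it is `c i` or `c (i + 1)` (`chain`); so `S' ∩ (c (i + 1) \ c i)` is empty or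
the whole block `B_i = c (i + 1) \ c i`.  For every `i < l`: `|F ∩ B_i| = ρ (c (i + 1)) - ρ (c i)`: `F ∩ B_i` is independent for `σ`
(`rk_indep_sub`), so `|F ∩ B_i| = σ (F ∩ B_i)`, which is at most `ρ (c (i + 1)) - ρ (c i)` (only the summand `i` is not zero); the sum over
`i < l` of these bounds is `ρ (c l) - ρ ∅ = ρ univ = |F|` (`tight_supp`), so equality holds for all `i`.  So
`|F ∩ S| = |F ∩ S'|` (`F ⊆ P`) `= ∑ (i < l, B_i ⊆ S') (ρ (c (i + 1)) - ρ (c i)) = ∑ (i < l, B_i ⊆ S') x (B_i) = x S' = ρ S`.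
-/

set_option autoImplicit false

open Finset

namespace Pool.Agent.helper7.AQ

private theorem face_card {E : Type} [DecidableEq E] (c : ℕ → Finset E) (h0 : c 0 = ∅)
    (hc : ∀ i, c i ⊆ c (i + 1)) (A : Finset E) (l : ℕ) :
    (A ∩ c l).card = ∑ i ∈ range l, (A ∩ (c (i + 1) \ c i)).card := by
  induction l with
  | zero => rw [h0, inter_empty, card_empty, range_zero, sum_empty]
  | succ l ih =>
    rw [sum_range_succ, ← ih, ← card_union_of_disjoint]
    · congr 1
      ext e
      simp only [mem_inter, mem_union, mem_sdiff]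
      constructor
      · rintro ⟨h1, h2⟩
        by_cases h3 : e ∈ c l
        · exact Or.inl ⟨h1, h3⟩
        · exact Or.inr ⟨h1, h2, h3⟩
      · rintro (⟨h1, h2⟩ | ⟨h1, h2, -⟩)
        · exact ⟨h1, hc l h2⟩
        · exact ⟨h1, h2⟩
    · rw [disjoint_left]
      intro e h1 h2
      exact (mem_sdiff.1 (mem_inter.1 h2).2).2 (mem_inter.1 h1).2

private theorem face_tel {E : Type} [DecidableEq E] (ρ : Finset E → ℕ) (hρ : Rk ρ)
    (c : ℕ → Finset E) (h0 : c 0 = ∅) (hc : ∀ i, c i ⊆ c (i + 1)) (l : ℕ) :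
    ∑ i ∈ range l, (ρ (c (i + 1)) - ρ (c i)) = ρ (c l) := by
  induction l with
  | zero => rw [h0, hρ.empty, range_zero, sum_empty]
  | succ l ih =>
    rw [sum_range_succ, ih]
    have := hρ.mono _ _ (hc l)
    omega

private theorem face_sum {E K : Type} [Fintype E] (κ : E → K) (x : E → ℝ)
    (J : Finset K) : ∑ e ∈ cols univ κ J, x e = ∑ k ∈ J, ∑ e ∈ col univ κ k, x e := by
  classical
  rw [← sum_fiberwise_of_maps_to (s := cols univ κ J) (t := J) (g := κ) (f := x)]
  · refine sum_congr rfl fun k hk => sum_congr ?_ fun _ _ => rfl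
    ext e
    simp only [cols, col, mem_filter, mem_univ, true_and]
    constructor
    · rintro ⟨-, h⟩
      exact h
    · intro h
      exact ⟨by rw [h]; exact hk, h⟩
  · intro e he
    exact (mem_filter.1 he).2

theorem face {E K : Type} [Fintype E] [DecidableEq E] [Fintype K] (ρ : Finset E → ℕ) (hρ : Rk ρ)
    (κ : E → K) (x : E → ℝ) (hx : Pol ρ κ x) :
    ∃ F : Finset E, (∀ e ∈ F, 0 < x e) ∧ F.card = ρ univ ∧ ρ F = ρ univ ∧
      (∀ e ∈ F, ∀ e' ∈ F, κ e = κ e' → e = e') ∧
      (∀ S, Tight ρ x S → (F ∩ S).card = ρ S) ∧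
      ∀ k, ∑ e ∈ col univ κ k, x e = 1 → ∃ e ∈ F, κ e = k := by
  classical
  obtain ⟨P, hP⟩ : ∃ P : Finset E, P = univ.filter fun e => 0 < x e := ⟨_, rfl⟩
  obtain ⟨c, l, h0, hl, hc, ht, hmax⟩ := chain hρ hx
  rw [← hP] at hl
  have hts := tight_supp hρ hx
  rw [← hP] at hts
  have hx0 : ∀ e, e ∉ P → x e = 0 := by
    intro e he
    rw [hP, mem_filter, not_and] at he
    exact le_antisymm (not_lt.1 (he (mem_univ e))) (hx.nonneg e)
  have hxP : ∀ S : Finset E, ∑ e ∈ S ∩ P, x e = ∑ e ∈ S, x e := by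
    intro S
    refine sum_subset inter_subset_left fun e he he' => hx0 e fun h => he' ?_
    exact mem_inter.2 ⟨he, h⟩
  have hcols : ∀ J : Finset K, ∑ e ∈ cols P κ J, x e = ∑ k ∈ J, ∑ e ∈ col univ κ k, x e := by
    intro J
    rw [← face_sum κ x J, ← hxP (cols univ κ J)]
    refine sum_congr ?_ fun _ _ => rfl
    ext e
    simp only [cols, mem_filter, mem_inter, mem_univ, true_and]
    exact and_comm
  have hσ := sg_rk hρ c hc l
  have hσx : ∀ J : Finset K, ∑ k ∈ J, ∑ e ∈ col univ κ k, x e ≤ (sg ρ c l (cols P κ J) : ℝ) := by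
    intro J
    rw [← hcols J]
    refine le_sg hρ κ x hx c h0 hc ht l _ ?_
    rw [hl]
    exact filter_subset _ _
  obtain ⟨Kt, hKt⟩ : ∃ Kt : Finset K, Kt = univ.filter fun k => ∑ e ∈ col univ κ k, x e = 1 :=
    ⟨_, rfl⟩
  have hra : ∑ k : K, ∑ e ∈ col univ κ k, x e = (ρ univ : ℝ) := by
    rw [← face_sum κ x univ, ← hx.tot]
    refine sum_congr ?_ fun _ _ => rfl
    ext e
    simp [cols]
  obtain ⟨F, hFP, hF1, hF2, hF3, hF4⟩ := transversal (sg ρ c l) hσ κ P Kt (ρ univ) (by
    intro J hJ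
    have h1 := hσx J
    have h2 : ∑ k ∈ J, ∑ e ∈ col univ κ k, x e = (J.card : ℝ) := by
      rw [card_eq_sum_ones]
      push_cast
      refine sum_congr rfl fun k hk => ?_
      have h3 := hJ hk
      rw [hKt, mem_filter] at h3
      exact h3.2
    rw [h2] at h1
    exact_mod_cast h1) (by
    intro J
    have h1 := hσx J
    have h2 : ∑ k : K, ∑ e ∈ col univ κ k, x e = ∑ k ∈ J, ∑ e ∈ col univ κ k, x e +
        ∑ k ∈ univ \ J, ∑ e ∈ col univ κ k, x e := by
      rw [add_comm, sum_sdiff (subset_univ J)]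
    have h3 : ∑ k ∈ univ \ J, ∑ e ∈ col univ κ k, x e ≤ ((univ \ J).card : ℝ) := by
      rw [card_eq_sum_ones]
      push_cast
      exact sum_le_sum fun k _ => hx.colr k
    have h4 : (univ \ J).card + J.card = Fintype.card K := by
      rw [card_sdiff_add_card_eq_card (subset_univ J), card_univ]
    have h5 : ((univ \ J).card : ℝ) + J.card = Fintype.card K := by exact_mod_cast h4
    have h6 : (ρ univ : ℝ) + J.card ≤ sg ρ c l (cols P κ J) + Fintype.card K := by linarith
    exact_mod_cast h6)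
  have hle1 := sg_le hρ c h0 hc l F
  have hle2 := hρ.mono F univ (subset_univ F)
  have hFc : F.card = ρ univ := by omega
  have hFr : ρ F = ρ univ := by omega
  refine ⟨F, ?_, hFc, hFr, hF3, ?_, ?_⟩
  · intro e he
    have h1 := hFP he
    rw [hP, mem_filter] at h1
    exact h1.2
  · intro S hS
    obtain ⟨S', hS'⟩ : ∃ S' : Finset E, S' = S ∩ P := ⟨_, rfl⟩
    have hS't : Tight ρ x S' := by
      rw [hS']
      exact (tight_union_inter hρ hx hS hts.1).2
    have hρS : ρ S' = ρ S := by
      have h1 := hxP S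
      rw [← hS'] at h1
      unfold Tight at hS hS't
      rw [hS, hS't] at h1
      exact_mod_cast h1
    have hmono : Monotone c := monotone_nat_of_le_succ hc
    -- the block sizes
    have hblk : ∀ i ∈ range l, (F ∩ (c (i + 1) \ c i)).card ≤ ρ (c (i + 1)) - ρ (c i) := by
      intro i hi
      have h1 := rk_indep_sub hσ hF1 (F' := F ∩ (c (i + 1) \ c i)) inter_subset_left
      rw [h1]
      unfold sg
      rw [sum_eq_single i]
      · refine Nat.sub_le_sub_right (hρ.mono _ _ ?_) _
        intro e he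
        rcases mem_union.1 he with h | h
        · exact (mem_inter.1 h).2
        · exact hc i h
      · intro j _ hji
        rcases lt_or_gt_of_ne hji with h | h
        · have h2 : F ∩ (c (i + 1) \ c i) ∩ c (j + 1) = ∅ := by
            rw [eq_empty_iff_forall_notMem]
            intro e he
            have h3 := hmono (Nat.succ_le_of_lt h) (mem_inter.1 he).2
            exact (mem_sdiff.1 (mem_inter.1 (mem_inter.1 he).1).2).2 h3
          rw [h2, empty_union, Nat.sub_self]
        · have h2 : F ∩ (c (i + 1) \ c i) ∩ c (j + 1) ∪ c j = c j := by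
            rw [union_eq_right]
            intro e he
            exact hmono (Nat.succ_le_of_lt h)
              (mem_sdiff.1 (mem_inter.1 (mem_inter.1 he).1).2).1
          rw [h2, Nat.sub_self]
      · intro h
        exact absurd hi h
    have hFl : F ∩ c l = F := by
      rw [hl]
      exact inter_eq_left.2 hFP
    have hsumF := face_card c h0 hc F l
    rw [hFl] at hsumF
    have htel := face_tel ρ hρ c h0 hc l
    rw [hl, hts.2] at htel
    have heq : ∀ i ∈ range l, (F ∩ (c (i + 1) \ c i)).card = ρ (c (i + 1)) - ρ (c i) := by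
      rw [← sum_eq_sum_iff_of_le hblk, ← hsumF, htel, hFc]
    -- the intersection
    have h1 : F ∩ S = (F ∩ S') ∩ c l := by
      rw [hS', hl]
      ext e
      simp only [mem_inter]
      constructor
      · rintro ⟨a1, a2⟩
        exact ⟨⟨a1, a2, hFP a1⟩, hFP a1⟩
      · rintro ⟨⟨a1, a2, -⟩, -⟩
        exact ⟨a1, a2⟩
    have h2 : ((F ∩ S') ∩ c l).card = sg ρ c l S' := by
      rw [face_card c h0 hc (F ∩ S') l]
      unfold sg
      refine sum_congr rfl fun i hi => ?_
      have htS : Tight ρ x (S' ∩ c (i + 1) ∪ c i) :=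
        (tight_union_inter hρ hx (tight_union_inter hρ hx hS't (ht (i + 1))).2 (ht i)).1
      rcases hmax i (mem_range.1 hi) _ htS subset_union_right (union_subset inter_subset_right
        (hc i)) with h | h
      · rw [h, Nat.sub_self, card_eq_zero, eq_empty_iff_forall_notMem]
        intro e he
        simp only [mem_inter, mem_sdiff] at he
        have h3 : e ∈ S' ∩ c (i + 1) ∪ c i :=
          mem_union_left _ (mem_inter.2 ⟨he.1.2, he.2.1⟩)
        rw [h] at h3
        exact he.2.2 h3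
      · rw [h, ← heq i hi]
        congr 1
        ext e
        simp only [mem_inter, mem_sdiff]
        constructor
        · rintro ⟨⟨a1, -⟩, a2⟩
          exact ⟨a1, a2⟩
        · rintro ⟨a1, a2, a3⟩
          have h3 : e ∈ S' ∩ c (i + 1) ∪ c i := by
            rw [h]
            exact a2
          rcases mem_union.1 h3 with h4 | h4
          · exact ⟨⟨a1, (mem_inter.1 h4).1⟩, a2, a3⟩
          · exact absurd h4 a3
    have h3 : sg ρ c l S' = ρ S' := by
      refine le_antisymm (sg_le hρ c h0 hc l S') ?_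
      have h4 := le_sg hρ κ x hx c h0 hc ht l S' (by
        rw [hl, hS']
        exact inter_subset_right)
      have h5 : ∑ e ∈ S', x e = (ρ S' : ℝ) := hS't
      rw [h5] at h4
      exact_mod_cast h4
    rw [h1, h2, h3, hρS]
  · intro k hk
    exact hF4 k (by rw [hKt, mem_filter]; exact ⟨mem_univ k, hk⟩)

end Pool.Agent.helper7.AQ
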