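import Pool.Agent.helper7.AQ.GrT

/-!
# AQ-SetLe: the constraints for vertex sets imply the constraints for edge sets

PROOF.  Let `Γ = fromEdgeSet S`, and for a component `C` of `Γ` let `A_C` be the finset of its vertices (nonempty).  Every `e ∈ S` which
is not a diagonal element has both ends in the same `A_C` (adjacent vertices), so it is in `inA univ A_C` for exactly one `C`; the diagonal
elements have `x e = 0`.  So `∑ e ∈ S, x e ≤ ∑ C, ∑ e ∈ inA univ A_C, x e ≤ ∑ C, (|A_C| - 1) = card V - Nat.card Γ.ConnectedComponent ≤ gr S`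
(`x ≥ 0`; the sets `A_C` partition `V`: `∑ C, |A_C| = card V`, `Finset.card_eq_sum_card_fiberwise` with `connectedComponentMk`;
`gr_comp`).
-/

set_option autoImplicit false

open Finset

namespace Pool.Agent.helper7.AQ

variable {V : Type} [Fintype V] [DecidableEq V]

theorem set_le (x : Sym2 V → ℝ) (h0 : ∀ e, 0 ≤ x e) (hd : ∀ e : Sym2 V, e.IsDiag → x e = 0)
    (h : ∀ A : Finset V, A.Nonempty → ∑ e ∈ inA univ A, x e ≤ (A.card : ℝ) - 1)
    (S : Finset (Sym2 V)) : ∑ e ∈ S, x e ≤ gr S := by
  classical
  set Γ := SimpleGraph.fromEdgeSet (S : Set (Sym2 V)) with hΓ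
  have : Fintype Γ.ConnectedComponent := Fintype.ofFinite _
  let A : Γ.ConnectedComponent → Finset V :=
    fun C => univ.filter fun v => Γ.connectedComponentMk v = C
  have hne : ∀ C, (A C).Nonempty := by
    intro C
    induction C using SimpleGraph.ConnectedComponent.ind with
    | _ v => exact ⟨v, by simp [A]⟩
  have hsub : ∀ e ∈ S, ¬ e.IsDiag → ∃ C, e ∈ inA univ (A C) := by
    intro e
    induction e using Sym2.ind with
    | _ u v =>
      intro heS hed
      have hadj : Γ.Adj u v := by
        rw [hΓ, SimpleGraph.fromEdgeSet_adj]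
        exact ⟨heS, fun huv => hed (by rw [huv]; exact Sym2.mk_isDiag_iff.2 rfl)⟩
      have hcc : Γ.connectedComponentMk v = Γ.connectedComponentMk u :=
        (SimpleGraph.ConnectedComponent.sound hadj.reachable).symm
      refine ⟨Γ.connectedComponentMk u, ?_⟩
      simp only [inA, Finset.mem_filter, Finset.mem_univ, true_and, A]
      intro w hw
      rw [Sym2.mem_iff] at hw
      rcases hw with rfl | rfl
      · rfl
      · exact hcc
  have h1 : ∑ e ∈ S, x e ≤ ∑ e ∈ S, ∑ C, if e ∈ inA univ (A C) then x e else 0 := by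
    refine Finset.sum_le_sum fun e he => ?_
    have hnn : ∀ C ∈ (Finset.univ : Finset Γ.ConnectedComponent),
        0 ≤ if e ∈ inA univ (A C) then x e else 0 := by
      intro C _
      split_ifs
      · exact h0 e
      · exact le_refl 0
    by_cases hed : e.IsDiag
    · rw [hd e hed]
      simp
    · obtain ⟨C, hC⟩ := hsub e he hed
      have := Finset.single_le_sum hnn (Finset.mem_univ C)
      rw [if_pos hC] at this
      exact this
  have h2 : ∑ e ∈ S, ∑ C, (if e ∈ inA univ (A C) then x e else 0) ≤
      ∑ C, ∑ e ∈ inA univ (A C), x e := by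
    rw [Finset.sum_comm]
    refine Finset.sum_le_sum fun C _ => ?_
    rw [← Finset.sum_filter]
    refine Finset.sum_le_sum_of_subset_of_nonneg (fun e he => ?_) fun e _ _ => h0 e
    exact (Finset.mem_filter.1 he).2
  have h3 : ∑ C, ∑ e ∈ inA univ (A C), x e ≤ ∑ C, (((A C).card : ℝ) - 1) :=
    Finset.sum_le_sum fun C _ => h (A C) (hne C)
  have h4 : Fintype.card V = ∑ C, (A C).card := by
    rw [← Finset.card_univ]
    exact Finset.card_eq_sum_card_fiberwise (f := Γ.connectedComponentMk)
      (t := (Finset.univ : Finset Γ.ConnectedComponent)) (fun v _ => by simp)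
  have h5 : ∑ C, (((A C).card : ℝ) - 1) =
      (Fintype.card V : ℝ) - (Fintype.card Γ.ConnectedComponent : ℝ) := by
    rw [Finset.sum_sub_distrib, h4]
    simp
  have h6 := gr_comp S
  rw [← hΓ, Nat.card_eq_fintype_card] at h6
  have h7 : (Fintype.card V : ℝ) ≤ (gr S : ℝ) + (Fintype.card Γ.ConnectedComponent : ℝ) := by
    exact_mod_cast h6
  linarith

end Pool.Agent.helper7.AQ
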