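import Pool.Agent.helper7.AQ.Trans
import Pool.Agent.helper7.AQ.SetLe

/-!
# AQ-NW: the Nash-Williams theorem (decomposition into spanning trees)

PROOF.  `N = 0`: then `G` is empty, nothing to prove.  Let `N > 0`.  `set_le` for `x e = (if e ∈ G then 1 else 0) / N` gives `|S| ≤ N * gr S` for all
`S ⊆ G` (`∑ e ∈ inA univ A, x e = |inA G A| / N ≤ |A| - 1`).
`transversal` with `E = Sym2 V × Fin N`, `K = Sym2 V`, `κ = Prod.fst`, `S = G ×ˢ univ`, `Kt = G`, `r = 0`, and
`σ S = ∑ i, gr (slice i S)`, `slice i S = {e | (e, i) ∈ S}` (`Rk σ`: `gr_rk` for every slice; for `unit`: `insert (e, i) S` changes only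
the slice `i`).  (a): for `J ⊆ G`: `cols S κ J = J ×ˢ univ`, `σ = N * gr J ≥ |J|`.  (b): `0 + |J| ≤ |K|`.
This gives `F` with `|F| = σ F`, injective for `κ`, and every `e ∈ G` is `κ f` for some `f ∈ F`: so for every `e ∈ G` there is exactly one `i` with
`(e, i) ∈ F`; `t e = i` for it, and `t e = 0` for `e ∉ G`.  `|F| = |G| = N * (card V - 1)`; the slices satisfy
`|slice i F| ≥ gr (slice i F)` (`rk_le_card`), and the sums over `i` are equal, so `|slice i F| = gr (slice i F) ≤ card V - 1` (`gr_le`), and the sum
over `i` is `N * (card V - 1)`, so `|slice i F| = gr (slice i F) = card V - 1`.  `gr_tree` for `slice i F = {e ∈ G | t e = i}`.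
-/

set_option autoImplicit false

open Finset

namespace Pool.Agent.helper7.AQ

variable {V : Type} [Fintype V] [DecidableEq V]

/-- the layer of `S` with index `i` -/
noncomputable def slice {N : ℕ} (i : Fin N) (S : Finset (Sym2 V × Fin N)) : Finset (Sym2 V) :=
  univ.filter fun e => (e, i) ∈ S

theorem mem_slice {N : ℕ} {i : Fin N} {S : Finset (Sym2 V × Fin N)} {e : Sym2 V} :
    e ∈ slice i S ↔ (e, i) ∈ S := by
  simp [slice]

theorem slice_rk (N : ℕ) :
    Rk (fun S : Finset (Sym2 V × Fin N) => ∑ i, gr (slice i S)) := by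
  refine ⟨?_, ?_, ?_, ?_⟩
  · refine Finset.sum_eq_zero ?_
    intro i _
    have h : slice i (∅ : Finset (Sym2 V × Fin N)) = ∅ := by
      ext e
      simp [mem_slice]
    rw [h]
    exact gr_rk.empty
  · intro S T hST
    refine Finset.sum_le_sum ?_
    intro i _
    refine gr_rk.mono _ _ ?_
    intro e he
    rw [mem_slice] at he ⊢
    exact hST he
  · intro S T
    rw [← Finset.sum_add_distrib, ← Finset.sum_add_distrib]
    refine Finset.sum_le_sum ?_
    intro i _
    have h1 : slice i (S ∪ T) = slice i S ∪ slice i T := by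
      ext e
      simp [mem_slice]
    have h2 : slice i (S ∩ T) = slice i S ∩ slice i T := by
      ext e
      simp [mem_slice]
    rw [h1, h2]
    exact gr_rk.submod _ _
  · rintro S ⟨e, i⟩
    have h : ∀ j, gr (slice j (insert (e, i) S)) ≤ gr (slice j S) + if j = i then 1 else 0 := by
      intro j
      by_cases hj : j = i
      · subst hj
        have h1 : slice j (insert (e, j) S) = insert e (slice j S) := by
          ext a
          simp [mem_slice]
        rw [h1, if_pos rfl]
        exact gr_rk.unit _ _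
      · have h1 : slice j (insert (e, i) S) = slice j S := by
          ext a
          simp [mem_slice, hj]
        rw [h1, if_neg hj]
        simp
    calc ∑ j, gr (slice j (insert (e, i) S)) ≤ ∑ j, (gr (slice j S) + if j = i then 1 else 0) :=
          Finset.sum_le_sum fun j _ => h j
      _ = (∑ j, gr (slice j S)) + 1 := by
          rw [Finset.sum_add_distrib]
          simp

theorem card_le_gr (G : Finset (Sym2 V)) (hG : ∀ e ∈ G, ¬ e.IsDiag) (N : ℕ) (hN : 0 < N)
    (h : ∀ A : Finset V, A.Nonempty → (inA G A).card ≤ N * (A.card - 1))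
    (S : Finset (Sym2 V)) (hS : S ⊆ G) : S.card ≤ N * gr S := by
  classical
  have hN' : (0 : ℝ) < N := by exact_mod_cast hN
  have key := set_le (fun e => (if e ∈ G then (1 : ℝ) else 0) / N) ?_ ?_ ?_ S
  · have h1 : ∑ e ∈ S, (if e ∈ G then (1 : ℝ) else 0) / N = (S.card : ℝ) / N := by
      rw [← Finset.sum_div]
      congr 1
      rw [Finset.sum_congr rfl (g := fun _ => (1 : ℝ))]
      · simp
      · intro e he
        rw [if_pos (hS he)]
    rw [h1, div_le_iff₀ hN'] at key
    have h2 : (S.card : ℝ) ≤ ((N * gr S : ℕ) : ℝ) := by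
      push_cast
      linarith
    exact_mod_cast h2
  · intro e
    split_ifs <;> positivity
  · intro e he
    rw [if_neg]
    · simp
    · intro hh
      exact hG e hh he
  · intro A hA
    have h1 : ∑ e ∈ inA univ A, (if e ∈ G then (1 : ℝ) else 0) / N
        = ((inA G A).card : ℝ) / N := by
      rw [← Finset.sum_div, Finset.sum_boole]
      congr 3
      ext e
      simp only [inA, Finset.mem_filter, Finset.mem_univ, true_and]
      tauto
    rw [h1, div_le_iff₀ hN']
    have h2 := h A hA
    have h3 : 1 ≤ A.card := hA.card_pos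
    have h4 : ((inA G A).card : ℝ) ≤ ((N * (A.card - 1) : ℕ) : ℝ) := by exact_mod_cast h2
    rw [Nat.cast_mul, Nat.cast_sub h3] at h4
    push_cast at h4
    linarith

theorem card_slices {N : ℕ} (F : Finset (Sym2 V × Fin N)) :
    F.card = ∑ i, (slice i F).card := by
  classical
  rw [Finset.card_eq_sum_card_fiberwise (f := Prod.snd) (t := univ) (fun x _ => by simp)]
  refine Finset.sum_congr rfl ?_
  intro i _
  symm
  refine Finset.card_bij (fun e _ => (e, i)) ?_ ?_ ?_
  · intro e he
    rw [mem_slice] at he
    simp [he]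
  · intro a _ b _ hab
    simpa using hab
  · rintro ⟨e, j⟩ hb
    simp only [Finset.mem_filter] at hb
    obtain ⟨hb1, hb2⟩ := hb
    subst hb2
    exact ⟨e, mem_slice.2 hb1, rfl⟩

theorem nashWilliams [Nonempty V] (G : Finset (Sym2 V)) (hG : ∀ e ∈ G, ¬ e.IsDiag) (N : ℕ)
    (hc : G.card = N * (Fintype.card V - 1))
    (h : ∀ A : Finset V, A.Nonempty → (inA G A).card ≤ N * (A.card - 1)) :
    ∃ t : Sym2 V → ℕ, (∀ e ∈ G, t e < N) ∧
      ∀ i < N, (SimpleGraph.fromEdgeSet {e | e ∈ G ∧ t e = i}).IsTree := by
  classical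
  rcases Nat.eq_zero_or_pos N with hN | hN
  · subst hN
    have hG0 : G = ∅ := by
      rw [← Finset.card_eq_zero, hc]
      simp
    refine ⟨fun _ => 0, ?_, ?_⟩
    · intro e he
      rw [hG0] at he
      simp at he
    · intro i hi
      omega
  obtain ⟨F, hFS, hFc, -, hinj, hmeet⟩ := transversal
    (fun S : Finset (Sym2 V × Fin N) => ∑ i, gr (slice i S)) (slice_rk N) Prod.fst
    (G ×ˢ univ) G 0 (by
      intro J hJ
      have h1 : ∀ i : Fin N, slice i (cols (G ×ˢ univ) Prod.fst J) = J := by
        intro i
        ext e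
        rw [mem_slice]
        simp only [cols, Finset.mem_filter, Finset.mem_product, Finset.mem_univ, and_true]
        constructor
        · exact fun hh => hh.2
        · exact fun hh => ⟨hJ hh, hh⟩
      rw [Finset.sum_congr rfl fun i _ => by rw [h1 i]]
      rw [Finset.sum_const, Finset.card_univ, Fintype.card_fin, smul_eq_mul]
      exact card_le_gr G hG N hN h J hJ) (by
      intro J
      have := Finset.card_le_univ J
      omega)
  have hFG : ∀ e i, (e, i) ∈ F → e ∈ G := by
    intro e i hh
    exact (Finset.mem_product.1 (hFS hh)).1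
  have hex : ∀ e ∈ G, ∃ i : Fin N, (e, i) ∈ F := by
    intro e he
    obtain ⟨⟨a, i⟩, hai, hae⟩ := hmeet e he
    exact ⟨i, by
      dsimp only at hae
      rw [← hae]
      exact hai⟩
  -- cardinality of F
  have hFcard : F.card = N * (Fintype.card V - 1) := by
    rw [← hc]
    have h1 : F.image Prod.fst = G := by
      ext e
      rw [Finset.mem_image]
      constructor
      · rintro ⟨⟨a, i⟩, hai, hae⟩
        dsimp only at hae
        rw [← hae]
        exact hFG a i hai
      · intro he
        obtain ⟨i, hi⟩ := hex e he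
        exact ⟨(e, i), hi, rfl⟩
    rw [← h1, Finset.card_image_of_injOn]
    intro a ha b hb hab
    exact hinj a ha b hb hab
  have hle1 : ∀ i : Fin N, gr (slice i F) ≤ Fintype.card V - 1 := fun i => gr_le _
  have hle2 : ∀ i : Fin N, gr (slice i F) ≤ (slice i F).card := fun i => rk_le_card gr_rk _
  have hs1 : ∑ i : Fin N, gr (slice i F) = ∑ i : Fin N, (slice i F).card := by
    rw [← card_slices]
    exact hFc.symm
  have hs2 : ∑ i : Fin N, gr (slice i F) = ∑ _i : Fin N, (Fintype.card V - 1) := by
    rw [Finset.sum_const, Finset.card_univ, Fintype.card_fin, smul_eq_mul, ← hFcard]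
    exact hFc.symm
  have he1 : ∀ i : Fin N, gr (slice i F) = (slice i F).card := by
    have := (Finset.sum_eq_sum_iff_of_le (fun i _ => hle2 i)).1 hs1
    exact fun i => this i (Finset.mem_univ i)
  have he2 : ∀ i : Fin N, gr (slice i F) = Fintype.card V - 1 := by
    have := (Finset.sum_eq_sum_iff_of_le (fun i _ => hle1 i)).1 hs2
    exact fun i => this i (Finset.mem_univ i)
  -- the numbering
  refine ⟨fun e => if hh : ∃ i : Fin N, (e, i) ∈ F then (hh.choose : ℕ) else 0, ?_, ?_⟩
  · intro e he
    dsimp only
    rw [dif_pos (hex e he)]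
    exact (hex e he).choose.isLt
  · intro i hi
    have hset : {e | e ∈ G ∧ (if hh : ∃ i : Fin N, (e, i) ∈ F then (hh.choose : ℕ) else 0) = i}
        = ((slice (⟨i, hi⟩ : Fin N) F : Finset (Sym2 V)) : Set (Sym2 V)) := by
      ext e
      rw [Set.mem_ofPred_eq, Finset.mem_coe, mem_slice]
      constructor
      · rintro ⟨he, hte⟩
        rw [dif_pos (hex e he)] at hte
        have h1 := (hex e he).choose_spec
        have h2 : (hex e he).choose = (⟨i, hi⟩ : Fin N) := Fin.ext hte
        rw [h2] at h1
        exact h1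
      · intro he
        have heG := hFG e _ he
        refine ⟨heG, ?_⟩
        rw [dif_pos (hex e heG)]
        have h1 := (hex e heG).choose_spec
        have h2 := hinj _ h1 _ he rfl
        have h3 := congrArg (fun p : Sym2 V × Fin N => (p.2 : ℕ)) h2
        exact h3
    rw [hset]
    refine gr_tree _ ?_ ?_ (he2 _)
    · intro e he
      rw [mem_slice] at he
      exact hG e (hFG e _ he)
    · rw [← he1, he2]

end Pool.Agent.helper7.AQ
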