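import Pool.Agent.helper7.AQ.Defs

/-!
# AQ-Ref: refinement of a colouring and the balance of the trees

* `refine_col`: number the elements of every class `col G c k` by `pos e < |col G c k|` (`Finset.equivFin`), `idx e = pos e / n`.  For
  `j < |col G c k| / n` the elements with `idx e = j` are those with `j n ≤ pos e < (j + 1) n ≤ |col G c k|`: exactly `n`; in general at
  most `n`; `idx e * n ≤ pos e < |col G c k|`.
* `balance`: let `m = |col G c k|`, `q = m / n`.  The elements of `T` of colour `k` have different indices (`hi`), and `idx e * n < m`; the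
  indices `j < q` all occur (`hm`), so `q ≤ |T_k|`; the indices satisfy `idx e < ⌈m / n⌉`, so `|T_k| ≤ ⌈m / n⌉`.
  (`⌊(m : ℚ) / n⌋ = m / n`: `Rat.floor_natCast_div_natCast` or `Nat.floor_div_eq_div`.)
-/

set_option autoImplicit false

open Finset
open scoped Classical

namespace Pool.Agent.helper7.AQ

private theorem refine_pos {E C : Type} (G : Finset E) (c : E → C) :
    ∃ pos : E → ℕ, ∀ k, (∀ e ∈ G, c e = k → pos e < (col G c k).card) ∧
      (∀ e ∈ G, c e = k → ∀ e' ∈ G, c e' = k → pos e = pos e' → e = e') ∧
      ∀ i < (col G c k).card, ∃ e ∈ G, c e = k ∧ pos e = i := by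
  refine ⟨fun e => if h : e ∈ col G c (c e) then ((col G c (c e)).equivFin ⟨e, h⟩ : ℕ) else 0,
    fun k => ⟨?_, ?_, ?_⟩⟩
  · rintro e he rfl
    have h : e ∈ col G c (c e) := Finset.mem_filter.2 ⟨he, rfl⟩
    simp only [h, dif_pos]
    exact Fin.is_lt _
  · intro e he hk e' he' hk' heq
    have h : e ∈ col G c (c e) := Finset.mem_filter.2 ⟨he, rfl⟩
    have h' : e' ∈ col G c (c e') := Finset.mem_filter.2 ⟨he', rfl⟩
    simp only [h, h', dif_pos] at heq
    subst hk
    have key : ∀ (k : C) (hk : k = c e) (hh : e' ∈ col G c k),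
        ((col G c k).equivFin ⟨e', hh⟩ : ℕ) = ((col G c (c e)).equivFin ⟨e, h⟩ : ℕ) →
          e' = e := by
      rintro k rfl hh h1
      have h2 := (col G c (c e)).equivFin.injective (Fin.ext h1)
      exact congrArg Subtype.val h2
    exact (key (c e') hk' h' heq.symm).symm
  · intro i hi
    obtain ⟨⟨e, he⟩, h⟩ := (col G c k).equivFin.surjective ⟨i, hi⟩
    have he' := Finset.mem_filter.1 he
    refine ⟨e, he'.1, he'.2, ?_⟩
    have hk := he'.2
    subst hk
    simp only [he, dif_pos, h]

theorem refine_col {E C : Type} (G : Finset E) (c : E → C) (n : ℕ) (hn : 0 < n) :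
    ∃ idx : E → ℕ,
      (∀ k, ∀ j < (col G c k).card / n, (G.filter fun e => c e = k ∧ idx e = j).card = n) ∧
      (∀ k j, (G.filter fun e => c e = k ∧ idx e = j).card ≤ n) ∧
      ∀ e ∈ G, idx e * n < (col G c (c e)).card := by
  obtain ⟨pos, hpos⟩ := refine_pos G c
  have hin : ∀ k j, Set.InjOn pos
      ((G.filter fun e => c e = k ∧ pos e / n = j : Finset E) : Set E) := by
    intro k j e he e' he' h
    rw [Finset.mem_coe, Finset.mem_filter] at he he'
    exact (hpos k).2.1 e he.1 he.2.1 e' he'.1 he'.2.1 h
  have hico : ∀ k j, ∀ e ∈ G.filter (fun e => c e = k ∧ pos e / n = j),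
      pos e ∈ Finset.Ico (j * n) ((j + 1) * n) := by
    intro k j e he
    rw [Finset.mem_filter] at he
    rw [Finset.mem_Ico]
    have h := he.2.2
    rw [Nat.div_eq_iff hn] at h
    obtain ⟨h1, h2⟩ := h
    constructor
    · exact h1
    · have h3 : (j + 1) * n = j * n + n := by ring
      omega
  have hcard : ∀ j, (Finset.Ico (j * n) ((j + 1) * n)).card = n := by
    intro j
    rw [Nat.card_Ico]
    have h3 : (j + 1) * n = j * n + n := by ring
    omega
  refine ⟨fun e => pos e / n, ?_, ?_, ?_⟩
  · intro k j hj
    have himg : (G.filter fun e => c e = k ∧ pos e / n = j).image pos =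
        Finset.Ico (j * n) ((j + 1) * n) := by
      apply Finset.Subset.antisymm
      · intro i hi
        rw [Finset.mem_image] at hi
        obtain ⟨e, he, rfl⟩ := hi
        exact hico k j e he
      · intro i hi
        rw [Finset.mem_Ico] at hi
        have h1 : (j + 1) * n ≤ (col G c k).card := by
          have h2 : j + 1 ≤ (col G c k).card / n := hj
          exact (Nat.le_div_iff_mul_le hn).1 h2
        obtain ⟨e, he, hk, hi'⟩ := (hpos k).2.2 i (by omega)
        rw [Finset.mem_image]
        refine ⟨e, Finset.mem_filter.2 ⟨he, hk, ?_⟩, hi'⟩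
        rw [hi', Nat.div_eq_iff hn]
        have h3 : (j + 1) * n = j * n + n := by ring
        omega
    rw [← Finset.card_image_of_injOn (hin k j), himg, hcard]
  · intro k j
    have h := Finset.card_le_card_of_injOn pos (hico k j) (hin k j)
    rw [hcard] at h
    exact h
  · intro e he
    have h := (hpos (c e)).1 e he rfl
    exact lt_of_le_of_lt (Nat.div_mul_le_self (pos e) n) h

theorem balance {E C : Type} (G T : Finset E) (hT : T ⊆ G) (c : E → C) (n : ℕ) (hn : 0 < n)
    (idx : E → ℕ) (hidx : ∀ e ∈ G, idx e * n < (col G c (c e)).card) (k : C)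
    (hi : ∀ e ∈ T, ∀ e' ∈ T, c e = c e' → idx e = idx e' → e = e')
    (hm : ∀ j < (col G c k).card / n, ∃ e ∈ T, c e = k ∧ idx e = j) :
    ⌊((col G c k).card : ℚ) / n⌋ ≤ ((col T c k).card : ℤ) ∧
      ((col T c k).card : ℤ) ≤ ⌈((col G c k).card : ℚ) / n⌉ := by
  have hn' : (0 : ℚ) < n := by exact_mod_cast hn
  have hlow : (col G c k).card / n ≤ (col T c k).card := by
    have h := Finset.card_le_card_of_surjOn (s := col T c k)
      (t := Finset.range ((col G c k).card / n)) idx (by
        intro j hj
        rw [Finset.mem_coe, Finset.mem_range] at hj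
        obtain ⟨e, he, hk, hj'⟩ := hm j hj
        exact ⟨e, Finset.mem_coe.2 (Finset.mem_filter.2 ⟨he, hk⟩), hj'⟩)
    rwa [Finset.card_range] at h
  have hup : ((col T c k).card : ℚ) - 1 < ((col G c k).card : ℚ) / n := by
    rw [lt_div_iff₀ hn']
    rcases Nat.eq_zero_or_pos (col T c k).card with h0 | h0
    · rw [h0]
      have : (0 : ℚ) ≤ ((col G c k).card : ℚ) := Nat.cast_nonneg _
      push_cast
      linarith
    · obtain ⟨t, ht⟩ : ∃ t, (col T c k).card = t + 1 := ⟨(col T c k).card - 1, by omega⟩
      have hlt : t * n < (col G c k).card := by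
        by_contra hcon
        have hmaps : ∀ e ∈ col T c k, idx e ∈ Finset.range t := by
          intro e he
          have he' := Finset.mem_filter.1 he
          have h1 := hidx e (hT he'.1)
          rw [he'.2] at h1
          rw [Finset.mem_range]
          have h2 : idx e * n < t * n := by omega
          exact Nat.lt_of_mul_lt_mul_right h2
        have h3 := Finset.card_le_card_of_injOn idx hmaps (by
          intro e he e' he' h
          have h1 := Finset.mem_filter.1 (Finset.mem_coe.1 he)
          have h2 := Finset.mem_filter.1 (Finset.mem_coe.1 he')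
          exact hi e h1.1 e' h2.1 (h1.2.trans h2.2.symm) h)
        rw [Finset.card_range] at h3
        omega
      rw [ht]
      push_cast
      have : ((t * n : ℕ) : ℚ) < ((col G c k).card : ℚ) := by exact_mod_cast hlt
      push_cast at this
      linarith
  constructor
  · have h1 : ((col G c k).card : ℚ) / n < (((col T c k).card : ℤ) : ℚ) + 1 := by
      rw [div_lt_iff₀ hn']
      have h2 : (col G c k).card < ((col T c k).card + 1) * n := by
        rw [← Nat.div_lt_iff_lt_mul hn]
        omega
      have h3 : ((col G c k).card : ℚ) < (((col T c k).card + 1) * n : ℕ) := by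
        exact_mod_cast h2
      push_cast at h3 ⊢
      exact h3
    have h4 : ⌊((col G c k).card : ℚ) / n⌋ < ((col T c k).card : ℤ) + 1 := by
      rw [Int.floor_lt]
      push_cast at h1 ⊢
      exact h1
    omega
  · rw [Int.le_ceil_iff]
    push_cast
    exact hup

end Pool.Agent.helper7.AQ
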