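import Pool.Agent.helper7.AQ.Iter
import Pool.Agent.helper7.AQ.NW
import Pool.Agent.helper7.AQ.Ref

/-!
# AQ-Fin: the theorem

PROOF.  `V = Fin (2 n)`, `n ≥ max n₀ 1`.  `refine_col` for `G = E₀ V`, `c` gives `idx`.  `κ e = (c e, idx e)` as an element of the finite type
`↥(univ.image fun e => (c e, idx e))` (or `Set.range`), so `|col (E₀ V) κ k| ≤ n` for all `k`.  Let `Nf = ⌊n ^ (24 / 25)⌋₊ ≤ n` (`n ≥ 1`),
`j = n - Nf`; `n ^ (24 / 25) ≤ Nf + 1` (`Nat.lt_floor_add_one`).  `iter` gives `t`; `nashWilliams` for `G = rem t j`, `N = Nf = n - j`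
(`card V - 1 = 2 n - 1`) gives `t₂`.  Define `t₃ e = t e` if `t e < j` and `e ∈ E₀ V`, `t₃ e = j + t₂ e` if `e ∈ rem t j`, and `0` for diagonal `e`
(`n > 0`); it has values `< n`, so it defines `t₃ : Sym2 V → Fin n`.  The graph of `{e | t₃ e = i}` is the graph of
`{e ∈ E₀ V | t₃ e = i}` (`fromEdgeSet` ignores the diagonal): for `i < j` it is the tree of `Good n κ t i`; for `i ≥ j` the tree number `i - j` of
`nashWilliams`.  For `i < j` the bounds hold for all `k`: `balance` with `T = {e ∈ E₀ V | t e = i}`: `hi`: equal `c` and `idx` means equal `κ`; `hm`: for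
`idx' < |col (E₀ V) c k| / n` the class of `(k, idx')` has exactly `n` elements, so (nonempty, `n > 0`) it is a full class of `κ` and `Good.meet`
applies.  The sets with `ncard` are `col (E₀ V) c k` and `col T c k` as sets.  So the exceptional `i` are among `j ≤ i < n`: at most
`n - j = Nf ≤ n ^ (24 / 25)` many (`Nat.floor_le`).
-/

set_option autoImplicit false

open Finset
open scoped Classical

namespace Pool.Agent.helper7.AQ

theorem main : ∃ n₀ : ℕ, ∀ n ≥ n₀, ∀ (C : Type) (c : Sym2 (Fin (2 * n)) → C),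
    ∃ t : Sym2 (Fin (2 * n)) → Fin n,
      (∀ i, (SimpleGraph.fromEdgeSet {e | t e = i}).IsTree) ∧
      ({i | ¬ ∀ k, ⌊(({e | ¬ e.IsDiag ∧ c e = k}.ncard : ℕ) : ℚ) / n⌋ ≤
          (({e | ¬ e.IsDiag ∧ t e = i ∧ c e = k}.ncard : ℕ) : ℤ) ∧
        (({e | ¬ e.IsDiag ∧ t e = i ∧ c e = k}.ncard : ℕ) : ℤ) ≤
          ⌈(({e | ¬ e.IsDiag ∧ c e = k}.ncard : ℕ) : ℚ) / n⌉}.ncard : ℝ) ≤
        (n : ℝ) ^ (24 / 25 : ℝ) := by
  obtain ⟨n₀, hit⟩ := iter
  refine ⟨max n₀ 1, fun n hn C c => ?_⟩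
  have hn0 : n₀ ≤ n := le_trans (le_max_left _ _) hn
  have hn1 : 0 < n := le_trans (le_max_right _ _) hn
  obtain ⟨idx, hfull, hle, hidx⟩ := refine_col (E₀ (Fin (2 * n))) c n hn1
  have hE : ∀ e : Sym2 (Fin (2 * n)), e ∈ E₀ (Fin (2 * n)) ↔ ¬ e.IsDiag := by
    intro e
    simp [E₀]
  let R : Set (C × ℕ) := Set.range fun e : Sym2 (Fin (2 * n)) => (c e, idx e)
  have : Finite R := (Set.finite_range _).to_subtype
  have : Fintype R := Fintype.ofFinite R
  let κ : Sym2 (Fin (2 * n)) → R := fun e => ⟨(c e, idx e), e, rfl⟩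
  have hκeq : ∀ e e', κ e = κ e' ↔ c e = c e' ∧ idx e = idx e' := by
    intro e e'
    constructor
    · intro h
      have h1 : (c e, idx e) = (c e', idx e') := congrArg Subtype.val h
      exact ⟨congrArg Prod.fst h1, congrArg Prod.snd h1⟩
    · rintro ⟨h1, h2⟩
      exact Subtype.ext (Prod.ext h1 h2)
  have hκcol : ∀ e₁, col (E₀ (Fin (2 * n))) κ (κ e₁) =
      (E₀ (Fin (2 * n))).filter fun e => c e = c e₁ ∧ idx e = idx e₁ := by
    intro e₁
    ext e
    simp only [col, mem_filter, hκeq]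
  have hκ : ∀ k, (col (E₀ (Fin (2 * n))) κ k).card ≤ n := by
    intro k
    obtain ⟨⟨k1, j1⟩, e₁, h1⟩ := k
    have h2 : (⟨(k1, j1), e₁, h1⟩ : R) = κ e₁ := by
      apply Subtype.ext
      exact h1.symm
    rw [h2, hκcol]
    exact hle _ _
  have hx1 : (n : ℝ) ^ (24 / 25 : ℝ) ≤ n := by
    have h1 : (1 : ℝ) ≤ n := by exact_mod_cast hn1
    calc (n : ℝ) ^ (24 / 25 : ℝ) ≤ (n : ℝ) ^ (1 : ℝ) :=
          Real.rpow_le_rpow_of_exponent_le h1 (by norm_num)
      _ = n := Real.rpow_one _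
  have hx0 : 0 ≤ (n : ℝ) ^ (24 / 25 : ℝ) := Real.rpow_nonneg (Nat.cast_nonneg n) _
  obtain ⟨Nf, hNf⟩ : ∃ Nf, Nf = ⌊(n : ℝ) ^ (24 / 25 : ℝ)⌋₊ := ⟨_, rfl⟩
  have hNf1 : Nf ≤ n := by
    rw [hNf]
    exact Nat.floor_le_of_le hx1
  obtain ⟨j, hj⟩ : ∃ j, j = n - Nf := ⟨_, rfl⟩
  have hjn : j ≤ n := by omega
  have hnj : n - j = Nf := by omega
  have hj2 : (n : ℝ) ^ (24 / 25 : ℝ) ≤ ((n - j : ℕ) : ℝ) + 1 := by
    rw [hnj, hNf]
    exact (Nat.lt_floor_add_one _).le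
  obtain ⟨t, hgood, hcard, hset⟩ := hit n hn0 (Fin (2 * n)) R κ (by simp) hκ j hjn hj2
  have : Nonempty (Fin (2 * n)) := ⟨⟨0, by omega⟩⟩
  have hrem : ∀ e, e ∈ rem t j ↔ ¬ e.IsDiag ∧ j ≤ t e := by
    intro e
    simp only [rem, mem_filter, hE]
  obtain ⟨t₂, ht₂, htree₂⟩ := nashWilliams (rem t j) (fun e he => ((hrem e).1 he).1) (n - j)
    (by rw [hcard, Fintype.card_fin]) hset
  let t₃ : Sym2 (Fin (2 * n)) → ℕ := fun e =>
    if e.IsDiag then 0 else if t e < j then t e else j + t₂ e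
  have ht₃ : ∀ e, t₃ e < n := by
    intro e
    by_cases h1 : e.IsDiag
    · simp only [t₃, h1, if_true]
      exact hn1
    · by_cases h2 : t e < j
      · simp only [t₃, h1, h2, if_true, if_false]
        omega
      · have h3 := ht₂ e ((hrem e).2 ⟨h1, not_lt.1 h2⟩)
        simp only [t₃, h1, h2, if_false]
        omega
  have hlow : ∀ e : Sym2 (Fin (2 * n)), ¬ e.IsDiag → ∀ i < j, t₃ e = i ↔ t e = i := by
    intro e h1 i hi
    by_cases h2 : t e < j
    · simp only [t₃, h1, h2, if_true, if_false]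
    · simp only [t₃, h1, h2, if_false]
      constructor
      · intro h; omega
      · intro h; omega
  have hhigh : ∀ e : Sym2 (Fin (2 * n)), ¬ e.IsDiag → ∀ i, j ≤ i →
      (t₃ e = i ↔ e ∈ rem t j ∧ t₂ e = i - j) := by
    intro e h1 i hi
    rw [hrem]
    by_cases h2 : t e < j
    · simp only [t₃, h1, h2, if_true, if_false]
      constructor
      · intro h; omega
      · intro h; omega
    · simp only [t₃, h1, h2, if_false]
      constructor
      · intro h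
        exact ⟨⟨not_false, not_lt.1 h2⟩, by omega⟩
      · intro h
        omega
  refine ⟨fun e => ⟨t₃ e, ht₃ e⟩, ?_, ?_⟩
  · intro i
    by_cases hi : i.1 < j
    · have h1 := (hgood i.1 hi).tree
      have h2 : SimpleGraph.fromEdgeSet {e : Sym2 (Fin (2 * n)) | (⟨t₃ e, ht₃ e⟩ : Fin n) = i} =
          SimpleGraph.fromEdgeSet {e | e ∈ E₀ (Fin (2 * n)) ∧ t e = i.1} := by
        ext u v
        simp only [SimpleGraph.fromEdgeSet_adj, Set.mem_ofPred_eq, Fin.ext_iff, hE]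
        constructor
        · rintro ⟨h3, h4⟩
          have h5 : ¬ (s(u, v)).IsDiag := by simpa using h4
          exact ⟨⟨h5, (hlow _ h5 i.1 hi).1 h3⟩, h4⟩
        · rintro ⟨⟨h5, h3⟩, h4⟩
          exact ⟨(hlow _ h5 i.1 hi).2 h3, h4⟩
      rw [h2]
      exact h1
    · have hi' : j ≤ i.1 := not_lt.1 hi
      have h1 := htree₂ (i.1 - j) (by have := i.2; omega)
      have h2 : SimpleGraph.fromEdgeSet {e : Sym2 (Fin (2 * n)) | (⟨t₃ e, ht₃ e⟩ : Fin n) = i} =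
          SimpleGraph.fromEdgeSet {e | e ∈ rem t j ∧ t₂ e = i.1 - j} := by
        ext u v
        simp only [SimpleGraph.fromEdgeSet_adj, Set.mem_ofPred_eq, Fin.ext_iff]
        constructor
        · rintro ⟨h3, h4⟩
          have h5 : ¬ (s(u, v)).IsDiag := by simpa using h4
          exact ⟨(hhigh _ h5 i.1 hi').1 h3, h4⟩
        · rintro ⟨h3, h4⟩
          have h5 : ¬ (s(u, v)).IsDiag := by simpa using h4
          exact ⟨(hhigh _ h5 i.1 hi').2 h3, h4⟩
      rw [h2]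
      exact h1
  · have hkey : ∀ i : Fin n, i.1 < j → ∀ k, ⌊(({e : Sym2 (Fin (2 * n)) |
          ¬ e.IsDiag ∧ c e = k}.ncard : ℕ) : ℚ) / n⌋ ≤
          (({e : Sym2 (Fin (2 * n)) | ¬ e.IsDiag ∧ (⟨t₃ e, ht₃ e⟩ : Fin n) = i ∧
            c e = k}.ncard : ℕ) : ℤ) ∧
        (({e : Sym2 (Fin (2 * n)) | ¬ e.IsDiag ∧ (⟨t₃ e, ht₃ e⟩ : Fin n) = i ∧
            c e = k}.ncard : ℕ) : ℤ) ≤
          ⌈(({e : Sym2 (Fin (2 * n)) | ¬ e.IsDiag ∧ c e = k}.ncard : ℕ) : ℚ) / n⌉ := by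
      intro i hi k
      have h1 : {e : Sym2 (Fin (2 * n)) | ¬ e.IsDiag ∧ c e = k} =
          ((col (E₀ (Fin (2 * n))) c k : Finset _) : Set (Sym2 (Fin (2 * n)))) := by
        ext e
        simp only [Set.mem_ofPred_eq, col, coe_filter, hE]
      have h2 : {e : Sym2 (Fin (2 * n)) | ¬ e.IsDiag ∧ (⟨t₃ e, ht₃ e⟩ : Fin n) = i ∧ c e = k} =
          ((col ((E₀ (Fin (2 * n))).filter fun e => t e = i.1) c k : Finset _) :
            Set (Sym2 (Fin (2 * n)))) := by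
        ext e
        simp only [Set.mem_ofPred_eq, col, coe_filter, hE, mem_filter, Fin.ext_iff]
        constructor
        · rintro ⟨h3, h4, h5⟩
          exact ⟨⟨h3, (hlow e h3 i.1 hi).1 h4⟩, h5⟩
        · rintro ⟨⟨h3, h4⟩, h5⟩
          exact ⟨h3, (hlow e h3 i.1 hi).2 h4, h5⟩
      rw [h1, h2, Set.ncard_coe_finset, Set.ncard_coe_finset]
      refine balance (E₀ (Fin (2 * n))) _ (filter_subset _ _) c n hn1 idx hidx k ?_ ?_
      · intro e he e' he' h3 h4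
        rw [mem_filter] at he he'
        exact (hgood i.1 hi).inj e he.1 e' he'.1 he.2 he'.2 ((hκeq e e').2 ⟨h3, h4⟩)
      · intro j' hj'
        have h3 := hfull k j' hj'
        have h4 : ((E₀ (Fin (2 * n))).filter fun e => c e = k ∧ idx e = j').Nonempty := by
          rw [← Finset.card_pos, h3]
          exact hn1
        obtain ⟨e₁, he₁⟩ := h4
        rw [mem_filter] at he₁
        obtain ⟨he₀, hc₁, hi₁⟩ := he₁
        have h5 : (col (E₀ (Fin (2 * n))) κ (κ e₁)).card = n := by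
          rw [hκcol, hc₁, hi₁]
          exact h3
        obtain ⟨e, he, hte, hke⟩ := (hgood i.1 hi).meet (κ e₁) h5
        have h6 := (hκeq e e₁).1 hke
        exact ⟨e, mem_filter.2 ⟨he, hte⟩, h6.1.trans hc₁, h6.2.trans hi₁⟩
    have hbound : ∀ S : Set (Fin n), (∀ i ∈ S, j ≤ i.1) → S.ncard ≤ Nf := by
      intro S hS
      have h1 : (Fin.val '' S).ncard = S.ncard := Set.ncard_image_of_injective S Fin.val_injective
      have h2 : Fin.val '' S ⊆ ((Finset.Ico j n : Finset ℕ) : Set ℕ) := by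
        rintro x ⟨i, hi, rfl⟩
        rw [Finset.coe_Ico, Set.mem_Ico]
        exact ⟨hS i hi, i.2⟩
      have h3 := Set.ncard_le_ncard h2 (Finset.finite_toSet _)
      rw [h1, Set.ncard_coe_finset, Nat.card_Ico, hnj] at h3
      exact h3
    have hfin := hbound {i | ¬ ∀ k, ⌊(({e : Sym2 (Fin (2 * n)) |
          ¬ e.IsDiag ∧ c e = k}.ncard : ℕ) : ℚ) / n⌋ ≤
          (({e : Sym2 (Fin (2 * n)) | ¬ e.IsDiag ∧ (⟨t₃ e, ht₃ e⟩ : Fin n) = i ∧
            c e = k}.ncard : ℕ) : ℤ) ∧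
        (({e : Sym2 (Fin (2 * n)) | ¬ e.IsDiag ∧ (⟨t₃ e, ht₃ e⟩ : Fin n) = i ∧
            c e = k}.ncard : ℕ) : ℤ) ≤
          ⌈(({e : Sym2 (Fin (2 * n)) | ¬ e.IsDiag ∧ c e = k}.ncard : ℕ) : ℚ) / n⌉} (by
      intro i hi
      by_contra h1
      exact hi (hkey i (not_le.1 h1)))
    calc _ ≤ (Nf : ℝ) := by exact_mod_cast hfin
      _ ≤ (n : ℝ) ^ (24 / 25 : ℝ) := by
        rw [hNf]
        exact Nat.floor_le hx0

end Pool.Agent.helper7.AQ
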