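import Pool.Agent.helper7.AQ.WRado
import Pool.Agent.helper7.AQ.SetLe

/-!
# AQ-GRado: weighted rainbow spanning trees

PROOF.  `wrado` with `E = Sym2 V`, `ρ = gr` (`gr_rk`).  `Pol gr κ x`: `le` is `set_le` (`x` vanishes on the diagonal since `H` has no diagonal
elements), `tot`: `gr univ = card V - 1` (`gr_univ`).  `gr_tree` for `F` (`F.card = gr univ`, `gr F = gr univ`).
-/

set_option autoImplicit false

open Finset

namespace Pool.Agent.helper7.AQ

variable {V : Type} [Fintype V] [DecidableEq V]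

theorem gRado [Nonempty V] {K : Type} [Fintype K] (κ : Sym2 V → K) (H : Finset (Sym2 V))
    (hH : ∀ e ∈ H, ¬ e.IsDiag) (x : Sym2 V → ℝ) (hx : Fr κ H x) (w : Sym2 V → ℝ) :
    ∃ T ⊆ H, (SimpleGraph.fromEdgeSet (T : Set (Sym2 V))).IsTree ∧ T.card + 1 = Fintype.card V ∧
      (∀ e ∈ T, ∀ e' ∈ T, κ e = κ e' → e = e') ∧
      (∀ k, ∑ e ∈ col univ κ k, x e = 1 → ∃ e ∈ T, κ e = k) ∧
      ∑ e ∈ T, w e ≤ ∑ e, w e * x e := by
  have hV : 1 ≤ Fintype.card V := Fintype.card_pos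
  have hPol : Pol gr κ x := by
    refine ⟨hx.nonneg, ?_, ?_, hx.colr⟩
    · intro S
      exact set_le x hx.nonneg (fun e he => hx.supp e fun h => hH e h he) hx.set S
    · rw [hx.tot, gr_univ, Nat.cast_sub hV, Nat.cast_one]
  obtain ⟨F, hFH, h1, h2, h3, h4, h5⟩ := wrado gr gr_rk κ x hPol H hx.supp w
  rw [gr_univ] at h1 h2
  exact ⟨F, hFH, gr_tree F (fun e he => hH e (hFH he)) h1 h2, by omega, h3, h4, h5⟩

end Pool.Agent.helper7.AQ
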