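import Pool.Agent.helper7.AQ.Defs

/-!
# AQ-GrK: the rank function of the cycle matroid (helper7, helper11)

* `ker_union`: `ker (S ∪ T) = ker S ⊓ ker T`.  `ker_anti`: `S ⊆ T → ker T ≤ ker S`.  `ker_empty`: `ker ∅ = ⊤`.
* `gr_rk`.  empty: `finrank ⊤ = card V`.  mono: `Submodule.finrank_mono`.  submod: `ker S ⊔ ker T ≤ ker (S ∩ T)` and
  `Submodule.finrank_sup_add_finrank_inf_eq`; all finranks are at most `card V` (`Submodule.finrank_le`), so the natural number
  subtractions are exact (`omega`).  unit: `ker (insert e S)` is the kernel of one linear functional `f ↦ f u - f v` on `ker S`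
  (`e = s(u, v)`, `Sym2.ind`), so its finrank is at least `finrank (ker S) - 1` (rank-nullity
  `LinearMap.finrank_range_add_finrank_ker` for the restriction of the functional to `ker S`, or
  `Submodule.finrank_add_finrank_le_add_finrank_inf`... with the kernel of the functional on the whole space, which has finrank at least
  `card V - 1`).
-/

set_option autoImplicit false
set_option linter.unusedSectionVars false

open Finset

namespace Pool.Agent.helper7.AQ

variable {V : Type} [Fintype V] [DecidableEq V]

theorem ker_union (S T : Finset (Sym2 V)) : ker (S ∪ T) = ker S ⊓ ker T := by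
  ext f
  constructor
  · intro h
    exact ⟨fun u v huv => h u v (Finset.mem_union_left _ huv),
      fun u v huv => h u v (Finset.mem_union_right _ huv)⟩
  · rintro ⟨h1, h2⟩ u v huv
    rcases Finset.mem_union.1 huv with h | h
    · exact h1 u v h
    · exact h2 u v h

theorem ker_anti {S T : Finset (Sym2 V)} (h : S ⊆ T) : ker T ≤ ker S :=
  fun _ hf u v huv => hf u v (h huv)

theorem ker_empty : ker (∅ : Finset (Sym2 V)) = ⊤ := by
  rw [eq_top_iff]
  intro f _ u v huv
  exact absurd huv (Finset.notMem_empty _)

private theorem GrK_card : Module.finrank ℚ (V → ℚ) = Fintype.card V :=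
  Module.finrank_fintype_fun_eq_card ℚ

private theorem GrK_le (W : Submodule ℚ (V → ℚ)) : Module.finrank ℚ W ≤ Fintype.card V := by
  rw [← GrK_card (V := V)]
  exact Submodule.finrank_le W

private def GrK_phi (u v : V) : (V → ℚ) →ₗ[ℚ] ℚ :=
  LinearMap.proj (R := ℚ) (φ := fun _ : V => ℚ) u - LinearMap.proj (R := ℚ) (φ := fun _ : V => ℚ) v

private theorem GrK_insert (S : Finset (Sym2 V)) (u v : V) :
    ker S ⊓ LinearMap.ker (GrK_phi u v) ≤ ker (insert s(u, v) S) := by
  rintro f ⟨h1, h2⟩ a b hab
  have h3 : f u = f v := by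
    have h4 : GrK_phi u v f = 0 := h2
    have h5 : f u - f v = 0 := h4
    exact sub_eq_zero.1 h5
  rcases Finset.mem_insert.1 hab with h | h
  · rcases Sym2.eq_iff.1 h with ⟨rfl, rfl⟩ | ⟨rfl, rfl⟩
    · exact h3
    · exact h3.symm
  · exact h1 a b h

theorem gr_rk : Rk (gr (V := V)) := by
  refine ⟨?_, ?_, ?_, ?_⟩
  · unfold gr
    rw [ker_empty, finrank_top, GrK_card, Nat.sub_self]
  · intro S T h
    unfold gr
    exact Nat.sub_le_sub_left (Submodule.finrank_mono (ker_anti h)) _
  · intro S T
    have h1 := Submodule.finrank_sup_add_finrank_inf_eq (ker S) (ker T)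
    have h2 : Module.finrank ℚ (ker S ⊔ ker T : Submodule ℚ (V → ℚ)) ≤
        Module.finrank ℚ (ker (S ∩ T)) := by
      refine Submodule.finrank_mono (sup_le ?_ ?_)
      · exact ker_anti Finset.inter_subset_left
      · exact ker_anti Finset.inter_subset_right
    have h3 := GrK_le (ker S)
    have h4 := GrK_le (ker T)
    have h5 := GrK_le (ker (S ∩ T))
    have h6 := GrK_le (ker (S ∪ T))
    unfold gr
    rw [ker_union] at h6 ⊢
    omega
  · intro S e
    induction e using Sym2.ind with
    | _ u v =>
      set φ : (V → ℚ) →ₗ[ℚ] ℚ := GrK_phi u v with hφ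
      have h1 := Submodule.finrank_sup_add_finrank_inf_eq (ker S) (LinearMap.ker φ)
      have h2 := GrK_le (ker S ⊔ LinearMap.ker φ)
      have h3 := LinearMap.finrank_range_add_finrank_ker φ
      rw [GrK_card] at h3
      have h4 : Module.finrank ℚ (LinearMap.range φ) ≤ 1 := by
        have := Submodule.finrank_le (LinearMap.range φ)
        rwa [Module.finrank_self] at this
      have h5 : Module.finrank ℚ (ker S ⊓ LinearMap.ker φ : Submodule ℚ (V → ℚ)) ≤
          Module.finrank ℚ (ker (insert s(u, v) S)) :=
        Submodule.finrank_mono (GrK_insert S u v)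
      unfold gr
      omega

end Pool.Agent.helper7.AQ
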