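import Pool.Agent.helper7.AQ.GrK

/-!
# AQ-GrT: connected graphs, trees, components

* `ker_const`: constant functions are in `ker S`; so `1 ≤ finrank (ker S)` if `V` is nonempty, and `gr S ≤ card V - 1` (`gr_le`).
* `gr_univ`: `f ∈ ker univ` is constant (`s(u, v) ∈ univ`), so `finrank (ker univ) = 1`.
* `gr_comp`: a function in `ker S` is constant on the connected components of the graph `Γ = fromEdgeSet S` (adjacent vertices have the
  same value, induction on walks / `Reachable`), so `ker S` embeds linearly into the functions on `Γ.ConnectedComponent`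
  (`f ↦ fun c => f c.out`, injective); so `finrank (ker S) ≤ Nat.card Γ.ConnectedComponent` (`LinearMap.finrank_le_finrank_of_injective`).
* `gr_conn`: if `gr F = card V - 1` then `finrank (ker F) ≤ 1`; if `Γ` were not connected, the indicator function of a component and the
  constant function `1` would be linearly independent elements of `ker F`.  (In detail: for a vertex `a` let `f v = 1` if `v` is reachable
  from `a` and `0` otherwise; `f ∈ ker F`; `finrank ≤ 1` and `1 ∈ ker F` give `f = c • 1` (`finrank_eq_one_iff...` or `finrank_le_one_iff`), and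
  `f a = 1`, so `f = 1` and every `v` is reachable from `a`.)
* `gr_tree`: connected with `card V - 1` edges: `SimpleGraph.isTree_iff_connected_and_card` (or the analogous statement of the
  Mathlib version; `(fromEdgeSet F).edgeSet = F` because `F` has no diagonal elements, `SimpleGraph.edgeSet_fromEdgeSet`).
-/

set_option autoImplicit false

open Finset

namespace Pool.Agent.helper7.AQ

variable {V : Type} [Fintype V] [DecidableEq V]

private theorem grT_one_mem (S : Finset (Sym2 V)) : (fun _ : V => (1 : ℚ)) ∈ ker S :=
  fun _ _ _ => rfl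

private theorem grT_one_le [Nonempty V] (S : Finset (Sym2 V)) :
    1 ≤ Module.finrank ℚ (ker S) := by
  rw [Submodule.one_le_finrank_iff]
  intro h
  have h1 := grT_one_mem S
  rw [h, Submodule.mem_bot] at h1
  obtain ⟨v⟩ := (inferInstance : Nonempty V)
  have h2 := congrFun h1 v
  simp at h2

private theorem grT_le_card (S : Finset (Sym2 V)) :
    Module.finrank ℚ (ker S) ≤ Fintype.card V := by
  have h := Submodule.finrank_le (ker S)
  rwa [Module.finrank_fintype_fun_eq_card] at h

theorem gr_le [Nonempty V] (S : Finset (Sym2 V)) : gr S ≤ Fintype.card V - 1 := by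
  unfold gr
  have := grT_one_le S
  omega

theorem gr_univ [Nonempty V] : gr (univ : Finset (Sym2 V)) = Fintype.card V - 1 := by
  have h : Module.finrank ℚ (ker (univ : Finset (Sym2 V))) = 1 := by
    obtain ⟨v⟩ := (inferInstance : Nonempty V)
    apply finrank_eq_one (⟨fun _ => 1, grT_one_mem _⟩ : ker (univ : Finset (Sym2 V)))
    · intro h
      have h1 := congrArg Subtype.val h
      have h2 := congrFun h1 v
      simp at h2
    · intro w
      refine ⟨w.1 v, ?_⟩
      apply Subtype.ext
      funext u
      have h1 : w.1 u = w.1 v := w.2 u v (Finset.mem_univ _)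
      simp [h1]
  unfold gr
  rw [h]

private theorem grT_reach (S : Finset (Sym2 V)) (f : V → ℚ) (hf : f ∈ ker S) {u v : V}
    (h : (SimpleGraph.fromEdgeSet (S : Set (Sym2 V))).Reachable u v) : f u = f v := by
  obtain ⟨w⟩ := h
  induction w with
  | nil => rfl
  | cons hadj _ ih =>
    rw [← ih]
    rw [SimpleGraph.fromEdgeSet_adj] at hadj
    exact hf _ _ (by exact_mod_cast hadj.1)

theorem gr_comp (S : Finset (Sym2 V)) : Fintype.card V ≤
    gr S + Nat.card (SimpleGraph.fromEdgeSet (S : Set (Sym2 V))).ConnectedComponent := by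
  classical
  haveI : Fintype (SimpleGraph.fromEdgeSet (S : Set (Sym2 V))).ConnectedComponent :=
    Fintype.ofFinite _
  have h : Module.finrank ℚ (ker S) ≤
      Nat.card (SimpleGraph.fromEdgeSet (S : Set (Sym2 V))).ConnectedComponent := by
    rw [Nat.card_eq_fintype_card,
      ← Module.finrank_fintype_fun_eq_card (R := ℚ)
        (η := (SimpleGraph.fromEdgeSet (S : Set (Sym2 V))).ConnectedComponent)]
    let L : ker S →ₗ[ℚ] ((SimpleGraph.fromEdgeSet (S : Set (Sym2 V))).ConnectedComponent → ℚ) :=
      { toFun := fun f c => f.1 c.out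
        map_add' := fun f g => rfl
        map_smul' := fun a f => rfl }
    apply LinearMap.finrank_le_finrank_of_injective (f := L)
    intro f g hfg
    apply Subtype.ext
    funext v
    have h1 := congrFun hfg ((SimpleGraph.fromEdgeSet (S : Set (Sym2 V))).connectedComponentMk v)
    have h2 : (SimpleGraph.fromEdgeSet (S : Set (Sym2 V))).Reachable
        (((SimpleGraph.fromEdgeSet (S : Set (Sym2 V))).connectedComponentMk v).out) v := by
      rw [← SimpleGraph.ConnectedComponent.eq]
      exact Quot.out_eq _
    have h3 : f.1 _ = f.1 v := grT_reach S f.1 f.2 h2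
    have h4 : g.1 _ = g.1 v := grT_reach S g.1 g.2 h2
    rw [← h3, ← h4]
    exact h1
  unfold gr
  have := grT_le_card S
  omega

theorem gr_conn [Nonempty V] (F : Finset (Sym2 V)) (h : gr F = Fintype.card V - 1) :
    (SimpleGraph.fromEdgeSet (F : Set (Sym2 V))).Connected := by
  classical
  have h1 := grT_one_le F
  have h2 := grT_le_card F
  have h3 : Module.finrank ℚ (ker F) ≤ 1 := by
    unfold gr at h
    have : 0 < Fintype.card V := Fintype.card_pos
    omega
  rw [finrank_le_one_iff] at h3
  obtain ⟨g, hg⟩ := h3
  have key : ∀ a v, (SimpleGraph.fromEdgeSet (F : Set (Sym2 V))).Reachable a v := by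
    intro a v
    let f : V → ℚ := fun v =>
      if (SimpleGraph.fromEdgeSet (F : Set (Sym2 V))).Reachable a v then 1 else 0
    have hf : f ∈ ker F := by
      intro u w huw
      by_cases hne : u = w
      · rw [hne]
      · have hadj : (SimpleGraph.fromEdgeSet (F : Set (Sym2 V))).Adj u w := by
          rw [SimpleGraph.fromEdgeSet_adj]
          exact ⟨by exact_mod_cast huw, hne⟩
        have hiff : (SimpleGraph.fromEdgeSet (F : Set (Sym2 V))).Reachable a u ↔
            (SimpleGraph.fromEdgeSet (F : Set (Sym2 V))).Reachable a w :=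
          ⟨fun h' => h'.trans hadj.reachable, fun h' => h'.trans hadj.symm.reachable⟩
        simp only [f, hiff]
    obtain ⟨c, hc⟩ := hg ⟨f, hf⟩
    obtain ⟨d, hd⟩ := hg ⟨fun _ => 1, grT_one_mem F⟩
    have hc' : ∀ u, c * g.1 u = f u := fun u => congrFun (congrArg Subtype.val hc) u
    have hd' : ∀ u, d * g.1 u = 1 := fun u => congrFun (congrArg Subtype.val hd) u
    have hfa : f a = 1 := by simp only [f]; rw [if_pos (SimpleGraph.Reachable.refl a)]
    have hga : g.1 a = g.1 v := by
      have e1 := hd' a
      have e2 := hd' v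
      have hd0 : d ≠ 0 := by
        intro h0
        rw [h0, zero_mul] at e1
        exact zero_ne_one e1
      exact mul_left_cancel₀ hd0 (e1.trans e2.symm)
    have hfv : f v = 1 := by rw [← hc' v, ← hga, hc' a, hfa]
    by_contra hnr
    simp only [f] at hfv
    rw [if_neg hnr] at hfv
    exact zero_ne_one hfv
  exact ⟨fun a v => key a v⟩

theorem gr_tree [Nonempty V] (F : Finset (Sym2 V)) (hF : ∀ e ∈ F, ¬ e.IsDiag)
    (h1 : F.card = Fintype.card V - 1) (h2 : gr F = Fintype.card V - 1) :
    (SimpleGraph.fromEdgeSet (F : Set (Sym2 V))).IsTree := by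
  rw [SimpleGraph.isTree_iff_connected_and_card]
  refine ⟨gr_conn F h2, ?_⟩
  have h3 : (SimpleGraph.fromEdgeSet (F : Set (Sym2 V))).edgeSet = (F : Set (Sym2 V)) := by
    rw [SimpleGraph.edgeSet_fromEdgeSet]
    ext e
    simp only [Set.mem_diff, Finset.mem_coe]
    constructor
    · exact fun h => h.1
    · intro h
      exact ⟨h, hF e h⟩
  rw [h3]
  have h4 : Nat.card (F : Set (Sym2 V)) = F.card := by simp
  rw [h4, Nat.card_eq_fintype_card, h1]
  have : 0 < Fintype.card V := Fintype.card_pos
  omega

end Pool.Agent.helper7.AQ
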