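import Pool.Agent.helper7.AQ.Num

/-!
# AQ-Init: the initial state

`E₀ V` = all non-diagonal elements of `Sym2 V`.
* `e0_card`: `(card V).choose 2` (`Sym2.card_subtype_not_diag` or similar) `= n (2 n - 1)` for `card V = 2 n`.
* `e0_deg`: the non-diagonal elements which contain `v` are the `s(v, u)`, `u ≠ v`: `2 n - 1` of them.
* `e0_mx`: `adj (E₀ V) = off V` and `n / n = 1`, so `Mx n n (E₀ V) = 0` and `q4 = 0`.
* `e0_ps`: every `wv` is `exp (lam (2 n - (2 n - 1))) = exp lam ≤ exp 1 ≤ 3`.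
-/

set_option autoImplicit false

open Finset
open scoped Classical

namespace Pool.Agent.helper7.AQ

/-- the edges of the complete graph -/
noncomputable def E₀ (V : Type) [Fintype V] [DecidableEq V] : Finset (Sym2 V) :=
  univ.filter fun e => ¬ e.IsDiag

variable {V K : Type} [Fintype V] [DecidableEq V] {n : ℕ}

omit [DecidableEq V] in
theorem init_choose (hV : Fintype.card V = 2 * n) :
    (Fintype.card V).choose 2 = n * (2 * n - 1) := by
  rw [hV, Nat.choose_two_right, mul_assoc, Nat.mul_div_cancel_left _ (by norm_num)]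

theorem e0_card (hV : Fintype.card V = 2 * n) : (E₀ V).card = n * (2 * n - 1) := by
  rw [← init_choose hV, ← Sym2.card_subtype_not_diag, Fintype.card_subtype]
  unfold E₀
  congr

theorem e0_deg (hV : Fintype.card V = 2 * n) (hn : 0 < n) (v : V) :
    (atV (E₀ V) v).card = 2 * n - 1 := by
  have h1 : atV (E₀ V) v = (univ.erase v).image fun u => s(v, u) := by
    ext e
    unfold atV E₀
    rw [mem_filter, mem_filter, mem_image]
    constructor
    · rintro ⟨⟨-, h2⟩, h3⟩
      obtain ⟨u, rfl⟩ := Sym2.mem_iff_exists.1 h3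
      refine ⟨u, mem_erase.2 ⟨?_, mem_univ _⟩, rfl⟩
      intro h4
      exact h2 (by rw [h4]; rfl)
    · rintro ⟨u, hu, rfl⟩
      have h4 := (mem_erase.1 hu).1
      refine ⟨⟨mem_univ _, ?_⟩, Sym2.mem_mk_left v u⟩
      intro h5
      exact h4 (Sym2.mk_isDiag_iff.1 h5).symm
  rw [h1, card_image_of_injective, card_erase_of_mem (mem_univ v), card_univ, hV]
  intro u u' h2
  exact Sym2.congr_right.1 h2

theorem e0_mx (hn : 0 < n) : Mx n n (E₀ V) = 0 := by
  have hn' : (n : ℝ) ≠ 0 := by exact_mod_cast hn.ne'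
  ext u v
  show (if s(u, v) ∈ E₀ V then (1 : ℝ) else 0) - ((n : ℝ) / n) * (if u = v then 0 else 1) = 0
  rw [div_self hn', one_mul]
  unfold E₀
  by_cases h : u = v
  · subst h
    simp
  · simp [h]

theorem e0_ps (hV : Fintype.card V = 2 * n) (hn : 0 < n) (lam : ℝ) (h0 : 0 ≤ lam)
    (h1 : lam ≤ 1) : Ps lam n n (E₀ V) ≤ 6 * n := by
  have h2 : ∀ v : V, wv lam n (E₀ V) v ≤ 3 := by
    intro v
    unfold wv
    rw [e0_deg hV hn v]
    have h3 : ((2 * n - 1 : ℕ) : ℝ) = 2 * n - 1 := by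
      rw [Nat.cast_sub (by omega)]
      push_cast
      ring
    rw [h3]
    have h4 : lam * (2 * (n : ℝ) - (2 * n - 1)) = lam := by ring
    rw [h4]
    have h5 : Real.exp lam ≤ Real.exp 1 := Real.exp_le_exp.2 h1
    have h6 := Real.exp_one_lt_d9
    linarith
  unfold Ps
  rw [e0_mx hn]
  have h3 : q4 (0 : Matrix V V ℝ) = 0 := by
    unfold q4
    simp
  rw [h3, add_zero]
  refine (sum_le_sum fun v _ => h2 v).trans ?_
  rw [sum_const, card_univ, hV, nsmul_eq_mul]
  push_cast
  linarith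

theorem e0_st (hV : Fintype.card V = 2 * n) (κ : Sym2 V → K)
    (h : ∀ k, (col (E₀ V) κ k).card ≤ n) : St n n κ (E₀ V) :=
  ⟨fun _ he => (mem_filter.1 he).2, e0_card hV, h⟩

end Pool.Agent.helper7.AQ
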