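import Pool.Agent.helper7.AQ.Step
import Pool.Agent.helper7.AQ.Init

/-!
# AQ-Iter: iteration of the steps

`rem t j` = the edges of `E₀ V` which are not used by the trees `0, ..., j - 1`.  `Good n κ t i`: the edges with `t e = i` form a
spanning tree which is rainbow for `κ` and meets all full classes (`n` edges in `E₀ V`).
PROOF of `iter`.  `n₀` larger than those of `step`, `num_delta`, and `1`.  CLAIM: for all `j ≤ n` with `n ^ (24 / 25) ≤ (n - j) + 1` there is `t` with
(1) `St n (n - j) κ (rem t j)`; (2) `Ps (lamn n) n (n - j) (rem t j) ≤ exp (13 j / n) * (6 n + 4000 j n ^ (11 / 4))`; (3) `Good n κ t i` for all `i < j`;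
(4) `|col (rem t j) κ k| = n - j` for all `k` with `|col (E₀ V) κ k| = n`.
Induction on `j`.  `j = 0`: `t = 0`: `rem t 0 = E₀ V`, `e0_st`, `e0_ps`.  Step `j → j + 1` (`j + 1 ≤ n`): with `N = n - (j + 1)`, `N + 1 = n - j`; the
bound (2) is at most `2 * 10 ^ 9 * n ^ (15 / 4)` by `num_exp`; `step` for `G = rem t j` gives `T`.  Let `t' e = j` for `e ∈ T`, `t' e = j + 1` for
`e ∈ rem t j \ T`, `t' e = t e` otherwise.  Then `rem t' (j + 1) = rem t j \ T`; for `i < j` the sets `{e ∈ E₀ | t' e = i}` and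
`{e ∈ E₀ | t e = i}` are equal; `{e ∈ E₀ | t' e = j} = T`.  (1) from `step`; (2): `(1 + 13 / n) * B_j + 4000 n ^ (11 / 4) ≤ B_{j + 1}` because
`1 + 13 / n ≤ exp (13 / n)` and `1 ≤ exp (13 (j + 1) / n)`; (3) for `i = j`: `Tr (N + 1) κ (rem t j) T`, and the full classes have
`n - j = N + 1` elements in `rem t j` by (4), so `T` meets them; (4) `full_step`.
Finally `pot_robust` and `robust_all` for `N = n - j`.
-/

set_option autoImplicit false

open Finset
open scoped Classical

namespace Pool.Agent.helper7.AQ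

variable {V K : Type} [Fintype V] [DecidableEq V]

/-- the edges which are not used by the first `j` trees -/
noncomputable def rem (t : Sym2 V → ℕ) (j : ℕ) : Finset (Sym2 V) :=
  (E₀ V).filter fun e => j ≤ t e

/-- the tree with number `i` is good -/
structure Good (n : ℕ) (κ : Sym2 V → K) (t : Sym2 V → ℕ) (i : ℕ) : Prop where
  tree : (SimpleGraph.fromEdgeSet {e | e ∈ E₀ V ∧ t e = i}).IsTree
  inj : ∀ e ∈ E₀ V, ∀ e' ∈ E₀ V, t e = i → t e' = i → κ e = κ e' → e = e'
  meet : ∀ k, (col (E₀ V) κ k).card = n → ∃ e ∈ E₀ V, t e = i ∧ κ e = k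

/-- the new numbering of the edges: `T` is the tree with number `j` -/
noncomputable def Iter_t (t : Sym2 V → ℕ) (j : ℕ) (T : Finset (Sym2 V)) (e : Sym2 V) : ℕ :=
  if e ∈ T then j else if e ∈ rem t j then j + 1 else t e

theorem Iter_mem_rem (t : Sym2 V → ℕ) (j : ℕ) (e : Sym2 V) :
    e ∈ rem t j ↔ e ∈ E₀ V ∧ j ≤ t e := by
  unfold rem
  rw [mem_filter]

theorem Iter_rem (t : Sym2 V → ℕ) (j : ℕ) (T : Finset (Sym2 V)) :
    rem (Iter_t t j T) (j + 1) = rem t j \ T := by
  ext e
  rw [mem_sdiff, Iter_mem_rem]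
  unfold Iter_t
  by_cases hT : e ∈ T
  · rw [if_pos hT]
    constructor
    · rintro ⟨-, h⟩
      omega
    · rintro ⟨-, h⟩
      exact absurd hT h
  · rw [if_neg hT]
    by_cases hr : e ∈ rem t j
    · rw [if_pos hr]
      exact ⟨fun _ => ⟨hr, hT⟩, fun _ => ⟨((Iter_mem_rem t j e).1 hr).1, le_refl _⟩⟩
    · rw [if_neg hr]
      constructor
      · rintro ⟨h1, h2⟩
        exact absurd ((Iter_mem_rem t j e).2 ⟨h1, by omega⟩) hr
      · rintro ⟨h1, -⟩
        exact absurd h1 hr

theorem Iter_old (t : Sym2 V → ℕ) (j : ℕ) (T : Finset (Sym2 V)) (hT : T ⊆ rem t j) {i : ℕ}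
    (hi : i < j) (e : Sym2 V) : Iter_t t j T e = i ∧ e ∈ E₀ V ↔ t e = i ∧ e ∈ E₀ V := by
  unfold Iter_t
  by_cases h1 : e ∈ T
  · rw [if_pos h1]
    have h2 := ((Iter_mem_rem t j e).1 (hT h1)).2
    constructor
    · rintro ⟨h, -⟩
      omega
    · rintro ⟨h, -⟩
      omega
  · rw [if_neg h1]
    by_cases hr : e ∈ rem t j
    · rw [if_pos hr]
      have h2 := ((Iter_mem_rem t j e).1 hr).2
      constructor
      · rintro ⟨h, -⟩
        omega
      · rintro ⟨h, -⟩
        omega
    · rw [if_neg hr]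

theorem Iter_new (t : Sym2 V → ℕ) (j : ℕ) (T : Finset (Sym2 V)) (hT : T ⊆ rem t j)
    (e : Sym2 V) : Iter_t t j T e = j ∧ e ∈ E₀ V ↔ e ∈ T := by
  unfold Iter_t
  by_cases h1 : e ∈ T
  · rw [if_pos h1]
    exact ⟨fun _ => h1, fun _ => ⟨rfl, ((Iter_mem_rem t j e).1 (hT h1)).1⟩⟩
  · rw [if_neg h1]
    by_cases hr : e ∈ rem t j
    · rw [if_pos hr]
      constructor
      · rintro ⟨h, -⟩
        omega
      · exact fun h => absurd h h1
    · rw [if_neg hr]
      constructor
      · rintro ⟨h, h2⟩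
        exact absurd ((Iter_mem_rem t j e).2 ⟨h2, h.ge⟩) hr
      · exact fun h => absurd h h1

theorem Iter_num {n j : ℕ} (hn : 0 < n) {P Q X : ℝ} (hX : 0 ≤ X)
    (hP : P ≤ Real.exp (13 * j / n) * (6 * n + 4000 * j * X))
    (hQ : Q ≤ (1 + 13 / n) * P + 4000 * X) :
    Q ≤ Real.exp (13 * ((j + 1 : ℕ) : ℝ) / n) * (6 * n + 4000 * ((j + 1 : ℕ) : ℝ) * X) := by
  have hn' : (0 : ℝ) < n := by exact_mod_cast hn
  have h1 : (1 : ℝ) + 13 / n ≤ Real.exp (13 / n) := by
    have := Real.add_one_le_exp (13 / (n : ℝ))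
    linarith
  have h2 : Real.exp (13 * ((j + 1 : ℕ) : ℝ) / n) =
      Real.exp (13 / n) * Real.exp (13 * j / n) := by
    rw [← Real.exp_add]
    congr 1
    push_cast
    field_simp
    ring
  have h3 : (1 : ℝ) ≤ Real.exp (13 * ((j + 1 : ℕ) : ℝ) / n) := by
    apply Real.one_le_exp
    positivity
  have h4 : 0 ≤ Real.exp (13 * j / n) * (6 * n + 4000 * j * X) := by positivity
  have h5 : 0 ≤ (1 : ℝ) + 13 / n := by positivity
  calc Q ≤ (1 + 13 / n) * P + 4000 * X := hQ
    _ ≤ (1 + 13 / n) * (Real.exp (13 * j / n) * (6 * n + 4000 * j * X)) + 4000 * X := by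
        have := mul_le_mul_of_nonneg_left hP h5
        linarith
    _ ≤ Real.exp (13 / n) * (Real.exp (13 * j / n) * (6 * n + 4000 * j * X)) + 4000 * X := by
        have := mul_le_mul_of_nonneg_right h1 h4
        linarith
    _ = Real.exp (13 * ((j + 1 : ℕ) : ℝ) / n) * (6 * n + 4000 * j * X) + 1 * (4000 * X) := by
        rw [h2]
        ring
    _ ≤ Real.exp (13 * ((j + 1 : ℕ) : ℝ) / n) * (6 * n + 4000 * j * X) +
        Real.exp (13 * ((j + 1 : ℕ) : ℝ) / n) * (4000 * X) := by
        have := mul_le_mul_of_nonneg_right h3 (by positivity : 0 ≤ 4000 * X)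
        linarith
    _ = Real.exp (13 * ((j + 1 : ℕ) : ℝ) / n) * (6 * n + 4000 * ((j + 1 : ℕ) : ℝ) * X) := by
        push_cast
        ring

theorem iter : ∃ n₀ : ℕ, ∀ n ≥ n₀, ∀ (V K : Type) [Fintype V] [DecidableEq V] [Fintype K]
    (κ : Sym2 V → K), Fintype.card V = 2 * n → (∀ k, (col (E₀ V) κ k).card ≤ n) →
    ∀ j ≤ n, (n : ℝ) ^ (24 / 25 : ℝ) ≤ ((n - j : ℕ) : ℝ) + 1 →
    ∃ t : Sym2 V → ℕ, (∀ i < j, Good n κ t i) ∧ (rem t j).card = (n - j) * (2 * n - 1) ∧
      ∀ A : Finset V, A.Nonempty → (inA (rem t j) A).card ≤ (n - j) * (A.card - 1) := by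
  obtain ⟨n1, h1⟩ := step
  obtain ⟨n2, h2⟩ := num_delta
  obtain ⟨n3, h3⟩ := pot_robust
  refine ⟨n1 + n2 + n3 + 1, fun n hn V K _ _ _ κ hV hcol => ?_⟩
  have hn0 : 0 < n := by omega
  obtain ⟨-, hl0, hl1, -⟩ := h2 n (by omega)
  have claim : ∀ j ≤ n, (n : ℝ) ^ (24 / 25 : ℝ) ≤ ((n - j : ℕ) : ℝ) + 1 →
      ∃ t : Sym2 V → ℕ, St n (n - j) κ (rem t j) ∧
        Ps (lamn n) n (n - j) (rem t j) ≤
          Real.exp (13 * j / n) * (6 * n + 4000 * j * (n : ℝ) ^ (11 / 4 : ℝ)) ∧
        (∀ i < j, Good n κ t i) ∧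
        ∀ k, (col (E₀ V) κ k).card = n → (col (rem t j) κ k).card = n - j := by
    intro j
    induction j with
    | zero =>
      intro _ _
      have hr : rem (fun _ : Sym2 V => 0) 0 = E₀ V := by
        unfold rem
        exact filter_true_of_mem fun e _ => le_refl 0
      refine ⟨fun _ => 0, ?_, ?_, ?_, ?_⟩
      · rw [hr, Nat.sub_zero]
        exact e0_st hV κ hcol
      · rw [hr, Nat.sub_zero]
        have := e0_ps hV hn0 (lamn n) hl0.le hl1
        simpa using this
      · intro i hi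
        omega
      · intro k hk
        rw [hr, Nat.sub_zero]
        exact hk
    | succ j ih =>
      intro hj hjn
      have hsub : n - j = n - (j + 1) + 1 := by omega
      obtain ⟨t, ht1, ht2, ht3, ht4⟩ := ih (by omega) (by
        rw [hsub]
        push_cast
        linarith)
      have hB := ht2.trans (num_exp n j hn0 (by omega))
      rw [hsub] at ht1 ht2 ht4 hB
      obtain ⟨T, hT1, hT2, hT3⟩ := h1 n (by omega) (n - (j + 1)) hjn (by omega) V K κ (rem t j)
        hV ht1 hB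
      refine ⟨Iter_t t j T, ?_, ?_, ?_, ?_⟩
      · rw [Iter_rem]
        exact hT2
      · rw [Iter_rem]
        exact Iter_num hn0 (by positivity) ht2 hT3
      · intro i hi
        rcases Nat.lt_succ_iff_lt_or_eq.1 hi with hi' | rfl
        · have hG := ht3 i hi'
          have hold := Iter_old t j T hT1.sub hi'
          refine ⟨?_, ?_, ?_⟩
          · have hset : {e | e ∈ E₀ V ∧ Iter_t t j T e = i} = {e | e ∈ E₀ V ∧ t e = i} := by
              ext e
              have := hold e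
              constructor
              · rintro ⟨a, b⟩
                exact ⟨a, (this.1 ⟨b, a⟩).1⟩
              · rintro ⟨a, b⟩
                exact ⟨a, (this.2 ⟨b, a⟩).1⟩
            rw [hset]
            exact hG.tree
          · intro e he e' he' h4 h5 h6
            exact hG.inj e he e' he' ((hold e).1 ⟨h4, he⟩).1 ((hold e').1 ⟨h5, he'⟩).1 h6
          · intro k hk
            obtain ⟨e, he, h4, h5⟩ := hG.meet k hk
            exact ⟨e, he, ((hold e).2 ⟨h4, he⟩).1, h5⟩
        · have hnew := Iter_new t i T hT1.sub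
          refine ⟨?_, ?_, ?_⟩
          · have hset : {e | e ∈ E₀ V ∧ Iter_t t i T e = i} = (T : Set (Sym2 V)) := by
              ext e
              have := hnew e
              constructor
              · rintro ⟨a, b⟩
                exact this.1 ⟨b, a⟩
              · intro h
                obtain ⟨a, b⟩ := this.2 h
                exact ⟨b, a⟩
            rw [hset]
            exact hT1.tree
          · intro e he e' he' h4 h5 h6
            exact hT1.inj e ((hnew e).1 ⟨h4, he⟩) e' ((hnew e').1 ⟨h5, he'⟩) h6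
          · intro k hk
            obtain ⟨e, he, h4⟩ := hT1.meet k (ht4 k hk)
            obtain ⟨a, b⟩ := (hnew e).2 he
            exact ⟨e, b, a, h4⟩
      · intro k hk
        rw [Iter_rem]
        exact full_step hT1 k (ht4 k hk)
  intro j hj hjn
  obtain ⟨t, ht1, ht2, ht3, -⟩ := claim j hj hjn
  refine ⟨t, ht3, ht1.card, fun A hA => ?_⟩
  obtain ⟨hq, hd⟩ := h3 n (by omega) (n - j) hjn V (rem t j)
    (ht2.trans (num_exp n j hn0 hj))
  exact robust_all hn0 (Nat.sub_le n j) hV ht1 hq hd A hA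

end Pool.Agent.helper7.AQ
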