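import Pool.Agent.helper7.AQ.Defs

/-!
# AQ-Merge: merging small colour classes

PROOF.  Induction on the number of nonempty classes `{k | (col G κ k).Nonempty}`.  If there are no two different nonempty classes with less
than `g` elements take `κ' = κ`.  Otherwise let `k ≠ l` be such classes, and `κ₁ e = if κ e = l then k else κ e`.  The class `k` of `κ₁` is the union
of the classes `k`, `l` of `κ` and has less than `2 g ≤ N` elements, the class `l` is empty, the others are unchanged; there is one nonempty
class less.  A class of `κ` with `N` elements is not `k` or `l` (`N ≥ 2 g > g`), so it is the class of `κ₁` with the same index.  Apply the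
induction hypothesis to `κ₁` and compose.
-/

set_option autoImplicit false

open Finset
open scoped Classical

namespace Pool.Agent.helper7.AQ

theorem merge {E K : Type} [Fintype K] (G : Finset E) (κ : E → K) (N g : ℕ) (hg : 0 < g)
    (hgN : 2 * g ≤ N) (hκ : ∀ k, (col G κ k).card ≤ N) :
    ∃ κ' : E → K, (∀ e e', κ e = κ e' → κ' e = κ' e') ∧ (∀ k, (col G κ' k).card ≤ N) ∧
      (∀ k k', (col G κ' k).Nonempty → (col G κ' k').Nonempty → (col G κ' k).card < g →
        (col G κ' k').card < g → k = k') ∧
      ∀ k, (col G κ k).card = N → ∃ k', col G κ' k' = col G κ k := by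
  induction hc : (univ.filter fun k => (col G κ k).Nonempty).card using
    Nat.strong_induction_on generalizing κ with
  | _ c ih =>
    by_cases H : ∀ k k', (col G κ k).Nonempty → (col G κ k').Nonempty → (col G κ k).card < g →
        (col G κ k').card < g → k = k'
    · exact ⟨κ, fun _ _ h => h, hκ, H, fun k _ => ⟨k, rfl⟩⟩
    push Not at H
    obtain ⟨k, l, hk, hl, hkg, hlg, hkl⟩ := H
    set κ₁ : E → K := fun e => if κ e = l then k else κ e with hκ₁
    have c1 : col G κ₁ k = col G κ k ∪ col G κ l := by
      ext e
      simp only [col, mem_filter, mem_union, hκ₁]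
      by_cases h : κ e = l
      · simp only [h, if_true]
        tauto
      · simp [h]
    have c2 : col G κ₁ l = ∅ := by
      ext e
      simp only [col, mem_filter, hκ₁]
      by_cases h : κ e = l
      · simp [h, hkl]
      · simp [h]
    have c3 : ∀ j, j ≠ k → j ≠ l → col G κ₁ j = col G κ j := by
      intro j hjk hjl
      ext e
      simp only [col, mem_filter, hκ₁]
      by_cases h : κ e = l
      · simp [h, hjk.symm, hjl.symm]
      · simp [h]
    have hκ1 : ∀ j, (col G κ₁ j).card ≤ N := by
      intro j
      by_cases hjk : j = k
      · subst hjk
        rw [c1]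
        have := card_union_le (col G κ j) (col G κ l)
        omega
      · by_cases hjl : j = l
        · subst hjl
          rw [c2]
          simp
        · rw [c3 j hjk hjl]
          exact hκ j
    have hlt : (univ.filter fun k => (col G κ₁ k).Nonempty).card < c := by
      rw [← hc]
      refine card_lt_card ?_
      refine Finset.ssubset_iff_of_subset ?_ |>.2 ⟨l, ?_, ?_⟩
      · intro j hj
        rw [mem_filter] at hj ⊢
        refine ⟨mem_univ _, ?_⟩
        by_cases hjk : j = k
        · subst hjk
          exact hk
        · by_cases hjl : j = l
          · subst hjl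
            exact hl
          · rw [← c3 j hjk hjl]
            exact hj.2
      · rw [mem_filter]
        exact ⟨mem_univ _, hl⟩
      · rw [mem_filter, c2]
        simp
    obtain ⟨κ', h1, h2, h3, h4⟩ := ih _ hlt κ₁ hκ1 rfl
    refine ⟨κ', ?_, h2, h3, ?_⟩
    · intro e e' h
      apply h1
      simp only [hκ₁, h]
    · intro j hj
      have hjk : j ≠ k := by
        rintro rfl
        omega
      have hjl : j ≠ l := by
        rintro rfl
        omega
      rw [← c3 j hjk hjl] at hj ⊢
      exact h4 j hj

end Pool.Agent.helper7.AQ
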