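import Pool.Agent.helper7.AQ.SampB

/-!
# AQ-Num: the parameters

`g = gn n = ⌈n ^ (1 / 4)⌉₊`, so `n ^ (1 / 4) ≤ g ≤ 2 n ^ (1 / 4)`; `lamn n = n ^ (-7 / 8)`; `γ = n ^ (-1 / 8)`, `t4 = n ^ (3 / 4)`, `t5 = n ^ (5 / 2)`,
`Δ = 4 n ^ (3 / 4)`.  For `n ^ (24 / 25) ≤ N + 1`, `N ≤ n`, `n` large: `N ≥ n ^ (24 / 25) / 2`.
* `num_pm`: `2 g ≤ 4 n ^ (1 / 4) ≤ N`.  p1: `N ^ 2 / (1024 g ^ 2) ≥ (n ^ (48 / 25) / 4) / (4096 n ^ (1 / 2)) = n ^ (71 / 50) / 16384`, which is at least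
  `2 n + 3 ≥ 2 n log 2 + log 8` for large `n`.  p2: `N ^ 2 / (2048 n g ^ 2) ≥ n ^ (48 / 25 - 1 - 1 / 2) / 32768 = n ^ (21 / 50) / 32768 ≥ log (32 n)`.
  p3: `γ ^ 2 N ^ 2 / (32 n g ^ 2) ≥ n ^ (48 / 25 - 1 / 4 - 3 / 2) / 512 = n ^ (17 / 100) / 512 ≥ log (16 n)`.
  p4: `t4 ^ 2 / (8 n) = n ^ (1 / 2) / 8`.  p5: `t5 ^ 2 N / (196608 g n ^ 5) ≥ n ^ (24 / 25 - 1 / 4) / 786432`.
  (`Real.add_pow_le_pow_mul_pow_of_add_eq_one`... is not needed; use `tendsto_rpow_atTop`, `isLittleO_log_rpow_atTop` and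
  eventually filters.)
* `num_delta`: `2 n / g + 1 + n ^ (3 / 4) ≤ 2 n ^ (3 / 4) + 1 + n ^ (3 / 4) ≤ 4 n ^ (3 / 4)`; `lam * Δ = 4 n ^ (-1 / 8) ≤ 1` and `Δ ≤ n` for `n ≥ 4 ^ 8`;
  `lam * γ = 1 / n`, `3 lam ^ 2 Δ = 12 / n`.
* `num_add`: `8 lam n ^ 2 / N = 8 n ^ (9 / 8) / N ≤ n ^ (11 / 4)`, `n ^ (5 / 2) ≤ n ^ (11 / 4)`, `972 n ^ 2 * 4 n ^ (3 / 4) = 3888 n ^ (11 / 4)`.
* `num_deg`: `lam (2 N - d) ≤ log (2 * 10 ^ 9) + 15 / 4 * log n`, so `2 N - d ≤ n ^ (7 / 8) * (22 + 15 / 4 * log n) ≤ 3 / 16 * N` for large `n`, as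
  `N ≥ n ^ (24 / 25) / 2` and `24 / 25 > 7 / 8`.
* `num_q`: `(N / 8) ^ 4 ≥ n ^ (96 / 25) / 65536 ≥ 2 * 10 ^ 9 * n ^ (15 / 4)` for large `n`, as `96 / 25 - 15 / 4 = 9 / 100`.
* `num_exp`: `exp (13 j / n) * (6 n + 4000 j n ^ (11 / 4)) ≤ exp 13 * (6 n + 4000 n ^ (15 / 4)) ≤ 2 * 10 ^ 9 * n ^ (15 / 4)` for `j ≤ n`; `exp 13 ≤ 442414`
  (`Real.exp_one_lt_d9`).
-/

set_option autoImplicit false

open Finset

namespace Pool.Agent.helper7.AQ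

/-- the exponent of the potential -/
noncomputable def lamn (n : ℕ) : ℝ := (n : ℝ) ^ (-(7 / 8) : ℝ)

/-- the size of the cells -/
noncomputable def gn (n : ℕ) : ℕ := ⌈(n : ℝ) ^ (1 / 4 : ℝ)⌉₊

/-! ### auxiliary facts: everything is expressed by `r = n ^ (1 / 200)` -/

private noncomputable def rr (n : ℕ) : ℝ := (n : ℝ) ^ (1 / 200 : ℝ)

private theorem rr_pow (n k : ℕ) : (rr n) ^ k = (n : ℝ) ^ ((k : ℝ) / 200) := by
  unfold rr
  rw [← Real.rpow_natCast, ← Real.rpow_mul (Nat.cast_nonneg n)]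
  congr 1
  ring

private theorem rr_ev (R : ℝ) : ∃ n₀ : ℕ, ∀ n ≥ n₀, R ≤ rr n := by
  have h1 : Filter.Tendsto (fun n : ℕ => (n : ℝ) ^ (1 / 200 : ℝ)) Filter.atTop Filter.atTop :=
    (tendsto_rpow_atTop (by norm_num)).comp tendsto_natCast_atTop_atTop
  have h2 := (h1.eventually_ge_atTop R)
  obtain ⟨n₀, hn⟩ := Filter.eventually_atTop.mp h2
  exact ⟨n₀, fun n hn' => hn n hn'⟩

private theorem e1 (n : ℕ) : (n : ℝ) = rr n ^ 200 := by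
  rw [rr_pow]; norm_num

private theorem e14 (n : ℕ) : (n : ℝ) ^ (1 / 4 : ℝ) = rr n ^ 50 := by
  rw [rr_pow]; norm_num

private theorem e34 (n : ℕ) : (n : ℝ) ^ (3 / 4 : ℝ) = rr n ^ 150 := by
  rw [rr_pow]; norm_num

private theorem e52 (n : ℕ) : (n : ℝ) ^ (5 / 2 : ℝ) = rr n ^ 500 := by
  rw [rr_pow]; norm_num

private theorem e2425 (n : ℕ) : (n : ℝ) ^ (24 / 25 : ℝ) = rr n ^ 192 := by
  rw [rr_pow]; norm_num

private theorem e114 (n : ℕ) : (n : ℝ) ^ (11 / 4 : ℝ) = rr n ^ 550 := by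
  rw [rr_pow]; norm_num

private theorem e154 (n : ℕ) : (n : ℝ) ^ (15 / 4 : ℝ) = rr n ^ 750 := by
  rw [rr_pow]; norm_num

private theorem e18 (n : ℕ) : (n : ℝ) ^ (-(1 / 8) : ℝ) = (rr n ^ 25)⁻¹ := by
  rw [Real.rpow_neg (Nat.cast_nonneg n), rr_pow]; norm_num

private theorem e78 (n : ℕ) : lamn n = (rr n ^ 175)⁻¹ := by
  unfold lamn
  rw [Real.rpow_neg (Nat.cast_nonneg n), rr_pow]; norm_num

private theorem gn_ge (n : ℕ) : rr n ^ 50 ≤ (gn n : ℝ) := by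
  rw [← e14]
  exact Nat.le_ceil _

private theorem gn_le (n : ℕ) (h : 1 ≤ rr n) : (gn n : ℝ) ≤ 2 * rr n ^ 50 := by
  have h1 : (gn n : ℝ) < (n : ℝ) ^ (1 / 4 : ℝ) + 1 :=
    Nat.ceil_lt_add_one (by rw [e14]; positivity)
  rw [e14] at h1
  have h2 : 1 ≤ rr n ^ 50 := one_le_pow₀ h
  linarith

private theorem N_ge (n N : ℕ) (h : 2 ≤ rr n) (hN : (n : ℝ) ^ (24 / 25 : ℝ) ≤ N + 1) :
    rr n ^ 192 / 2 ≤ (N : ℝ) := by
  rw [e2425] at hN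
  have h2 : 2 ≤ rr n ^ 192 := le_trans h (le_self_pow₀ (by linarith) (by norm_num))
  linarith

/-- `B / exp A` is small if a power of `A` is large -/
private theorem exp_small (k : ℕ) (A B : ℝ) (hA : 0 ≤ A) (hB : B ≤ A ^ k / (k.factorial : ℝ)) :
    B * Real.exp (-A) ≤ 1 := by
  have h1 := Real.pow_div_factorial_le_exp A hA k
  rw [Real.exp_neg]
  have h2 : 0 < Real.exp A := Real.exp_pos A
  rw [← div_eq_mul_inv, div_le_one h2]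
  exact le_trans hB h1

theorem num_pm : ∃ n₀ : ℕ, ∀ n ≥ n₀, ∀ N : ℕ, (n : ℝ) ^ (24 / 25 : ℝ) ≤ N + 1 → N ≤ n →
    Pm n N (gn n) ((n : ℝ) ^ (-(1 / 8) : ℝ)) ((n : ℝ) ^ (3 / 4 : ℝ)) ((n : ℝ) ^ (5 / 2 : ℝ)) := by
  obtain ⟨n₀, hn₀⟩ := rr_ev (10 ^ 6)
  refine ⟨n₀, fun n hn N hN hNn => ?_⟩
  have hr := hn₀ n hn
  set r := rr n with hrdef
  have hr0 : 0 < r := by linarith [show (0 : ℝ) < 10 ^ 6 by norm_num]
  have hr1 : 1 ≤ r := le_trans (by norm_num) hr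
  have hr2 : 2 ≤ r := le_trans (by norm_num) hr
  have hNg := N_ge n N hr2 hN
  have hg1 := gn_ge n
  have hg2 := gn_le n hr1
  rw [← hrdef] at hNg hg1 hg2
  have hnr : (n : ℝ) = r ^ 200 := e1 n
  have hn0 : (0 : ℝ) < n := by rw [hnr]; positivity
  have hN0 : (0 : ℝ) < N := lt_of_lt_of_le (by positivity) hNg
  have hg0 : (0 : ℝ) < gn n := lt_of_lt_of_le (by positivity) hg1
  have pw : ∀ k : ℕ, ((10 : ℝ) ^ 6) ^ k ≤ r ^ k := fun k => pow_le_pow_left₀ (by norm_num) hr k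
  -- squares
  have hN2 : r ^ 384 / 4 ≤ (N : ℝ) ^ 2 := by
    have := pow_le_pow_left₀ (by positivity) hNg 2
    calc r ^ 384 / 4 = (r ^ 192 / 2) ^ 2 := by ring
      _ ≤ _ := this
  have hg22 : (gn n : ℝ) ^ 2 ≤ 4 * r ^ 100 := by
    have := pow_le_pow_left₀ hg0.le hg2 2
    calc (gn n : ℝ) ^ 2 ≤ (2 * r ^ 50) ^ 2 := this
      _ = 4 * r ^ 100 := by ring
  refine ⟨?_, ?_, ?_, ?_, hNn, ?_, ?_, ?_, ?_, ?_, ?_, ?_, ?_⟩
  · exact_mod_cast hn0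
  · exact_mod_cast hN0
  · exact_mod_cast hg0
  · have h1 : (4 : ℝ) * r ^ 50 ≤ r ^ 192 / 2 := by
      have h2 : r ^ 192 = r ^ 142 * r ^ 50 := by ring
      have h3 : (8 : ℝ) ≤ r ^ 142 := le_trans (by norm_num) (pw 142)
      have h4 : 0 ≤ r ^ 50 := by positivity
      nlinarith
    have h2 : ((2 * gn n : ℕ) : ℝ) ≤ (N : ℝ) := by
      push_cast
      linarith
    exact_mod_cast h2
  · positivity
  · positivity
  · positivity
  · -- p1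
    have hA : 2 * (n : ℝ) + 3 ≤ (N : ℝ) ^ 2 / (1024 * (gn n : ℝ) ^ 2) := by
      rw [le_div_iff₀ (by positivity)]
      have h1 : (2 * (n : ℝ) + 3) * (1024 * (gn n : ℝ) ^ 2) ≤
          (5 * r ^ 200) * (1024 * (4 * r ^ 100)) := by
        have h2 : 2 * (n : ℝ) + 3 ≤ 5 * r ^ 200 := by
          rw [hnr]
          have : 1 ≤ r ^ 200 := one_le_pow₀ hr1
          linarith
        have h3 : 0 ≤ 2 * (n : ℝ) + 3 := by positivity
        exact mul_le_mul h2 (by linarith) (by positivity) (by positivity)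
      have h4 : (5 * r ^ 200) * (1024 * (4 * r ^ 100)) ≤ r ^ 384 / 4 := by
        have h5 : r ^ 384 = r ^ 84 * r ^ 300 := by ring
        have h6 : (5 * r ^ 200) * (1024 * (4 * r ^ 100)) = 20480 * r ^ 300 := by ring
        rw [h5, h6]
        have h7 : (81920 : ℝ) ≤ r ^ 84 := le_trans (by norm_num) (pw 84)
        have h8 : 0 ≤ r ^ 300 := by positivity
        nlinarith
      linarith
    have h2 : (2 : ℝ) ^ (2 * n) ≤ Real.exp (2 * n) := by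
      have h3 : (2 : ℝ) ≤ Real.exp 1 := by
        have := Real.add_one_le_exp (1 : ℝ)
        linarith
      calc (2 : ℝ) ^ (2 * n) ≤ (Real.exp 1) ^ (2 * n) := pow_le_pow_left₀ (by norm_num) h3 _
        _ = Real.exp (2 * n) := by
            rw [← Real.exp_nat_mul]
            congr 1
            push_cast
            ring
    have h8 : Real.exp (-3) ≤ 1 / 8 := by
      rw [Real.exp_neg]
      have h3 : (2 : ℝ) ≤ Real.exp 1 := by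
        have := Real.add_one_le_exp (1 : ℝ)
        linarith
      have h4 : (8 : ℝ) ≤ Real.exp 3 := by
        have h5 : Real.exp 3 = Real.exp 1 ^ 3 := by
          rw [← Real.exp_nat_mul]; norm_num
        rw [h5]
        calc (8 : ℝ) = 2 ^ 3 := by norm_num
          _ ≤ _ := pow_le_pow_left₀ (by norm_num) h3 3
      rw [inv_le_comm₀ (Real.exp_pos 3) (by norm_num)]
      simpa using h4
    calc (2 : ℝ) ^ (2 * n) * Real.exp (-((N : ℝ) ^ 2 / (1024 * (gn n : ℝ) ^ 2)))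
        ≤ Real.exp (2 * n) * Real.exp (-(2 * (n : ℝ) + 3)) := by
          refine mul_le_mul h2 ?_ (Real.exp_pos _).le (Real.exp_pos _).le
          exact Real.exp_le_exp.mpr (by linarith)
      _ = Real.exp (-3) := by rw [← Real.exp_add]; congr 1; ring
      _ ≤ 1 / 8 := h8
  · -- p2
    have hA : r ^ 84 / 32768 ≤ (N : ℝ) ^ 2 / (2048 * n * (gn n : ℝ) ^ 2) := by
      rw [le_div_iff₀ (by positivity)]
      calc r ^ 84 / 32768 * (2048 * n * (gn n : ℝ) ^ 2)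
          ≤ r ^ 84 / 32768 * (2048 * r ^ 200 * (4 * r ^ 100)) := by
            rw [hnr]
            gcongr
        _ = r ^ 384 / 4 := by ring
        _ ≤ _ := hN2
    have hA0 : 0 ≤ (N : ℝ) ^ 2 / (2048 * n * (gn n : ℝ) ^ 2) := by positivity
    have hB : 32 * (n : ℝ) ≤ ((N : ℝ) ^ 2 / (2048 * n * (gn n : ℝ) ^ 2)) ^ 3 /
        ((3).factorial : ℝ) := by
      have h1 := pow_le_pow_left₀ (by positivity) hA 3
      have h2 : 32 * (n : ℝ) ≤ (r ^ 84 / 32768) ^ 3 / ((3).factorial : ℝ) := by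
        rw [hnr]
        have h3 : (r ^ 84 / 32768) ^ 3 / ((3).factorial : ℝ) =
            r ^ 52 / (32768 ^ 3 * 6) * r ^ 200 := by
          norm_num [Nat.factorial]
          ring
        rw [h3]
        have h4 : (32 : ℝ) ≤ r ^ 52 / (32768 ^ 3 * 6) := by
          rw [le_div_iff₀ (by positivity)]
          exact le_trans (by norm_num) (pw 52)
        exact mul_le_mul_of_nonneg_right h4 (by positivity)
      refine le_trans h2 ?_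
      gcongr
    have := exp_small 3 _ _ hA0 hB
    nlinarith [Real.exp_pos (-((N : ℝ) ^ 2 / (2048 * n * (gn n : ℝ) ^ 2)))]
  · -- p3
    have hγ : ((n : ℝ) ^ (-(1 / 8) : ℝ)) ^ 2 = (r ^ 50)⁻¹ := by
      rw [e18, ← hrdef, inv_pow, ← pow_mul]
    have hA : r ^ 34 / 512 ≤ ((n : ℝ) ^ (-(1 / 8) : ℝ)) ^ 2 * (N : ℝ) ^ 2 /
        (32 * n * (gn n : ℝ) ^ 2) := by
      rw [hγ, le_div_iff₀ (by positivity)]
      calc r ^ 34 / 512 * (32 * n * (gn n : ℝ) ^ 2)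
          ≤ r ^ 34 / 512 * (32 * r ^ 200 * (4 * r ^ 100)) := by
            rw [hnr]
            gcongr
        _ = (r ^ 50)⁻¹ * (r ^ 384 / 4) := by
            field_simp
            ring
        _ ≤ _ := by gcongr
    have hA0 : 0 ≤ ((n : ℝ) ^ (-(1 / 8) : ℝ)) ^ 2 * (N : ℝ) ^ 2 /
        (32 * n * (gn n : ℝ) ^ 2) := by positivity
    have hB : 16 * (n : ℝ) ≤ (((n : ℝ) ^ (-(1 / 8) : ℝ)) ^ 2 * (N : ℝ) ^ 2 /
        (32 * n * (gn n : ℝ) ^ 2)) ^ 7 / ((7).factorial : ℝ) := by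
      have h1 := pow_le_pow_left₀ (by positivity) hA 7
      have h2 : 16 * (n : ℝ) ≤ (r ^ 34 / 512) ^ 7 / ((7).factorial : ℝ) := by
        rw [hnr]
        have h3 : (r ^ 34 / 512) ^ 7 / ((7).factorial : ℝ) =
            r ^ 38 / (512 ^ 7 * 5040) * r ^ 200 := by
          norm_num [Nat.factorial]
          ring
        rw [h3]
        have h4 : (16 : ℝ) ≤ r ^ 38 / (512 ^ 7 * 5040) := by
          rw [le_div_iff₀ (by positivity)]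
          exact le_trans (by norm_num) (pw 38)
        exact mul_le_mul_of_nonneg_right h4 (by positivity)
      refine le_trans h2 ?_
      gcongr
    have := exp_small 7 _ _ hA0 hB
    nlinarith [Real.exp_pos (-(((n : ℝ) ^ (-(1 / 8) : ℝ)) ^ 2 * (N : ℝ) ^ 2 /
        (32 * n * (gn n : ℝ) ^ 2)))]
  · -- p4
    have hA : r ^ 100 / 8 ≤ ((n : ℝ) ^ (3 / 4 : ℝ)) ^ 2 / (8 * n) := by
      rw [e34, ← hrdef, le_div_iff₀ (by positivity), hnr]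
      apply le_of_eq
      ring
    have hA0 : 0 ≤ ((n : ℝ) ^ (3 / 4 : ℝ)) ^ 2 / (8 * n) := by positivity
    have hB : 16 * (n : ℝ) ≤ (((n : ℝ) ^ (3 / 4 : ℝ)) ^ 2 / (8 * n)) ^ 3 /
        ((3).factorial : ℝ) := by
      have h1 := pow_le_pow_left₀ (by positivity) hA 3
      have h2 : 16 * (n : ℝ) ≤ (r ^ 100 / 8) ^ 3 / ((3).factorial : ℝ) := by
        rw [hnr]
        have h3 : (r ^ 100 / 8) ^ 3 / ((3).factorial : ℝ) =
            r ^ 100 / (8 ^ 3 * 6) * r ^ 200 := by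
          norm_num [Nat.factorial]
          ring
        rw [h3]
        have h4 : (16 : ℝ) ≤ r ^ 100 / (8 ^ 3 * 6) := by
          rw [le_div_iff₀ (by positivity)]
          exact le_trans (by norm_num) (pw 100)
        exact mul_le_mul_of_nonneg_right h4 (by positivity)
      refine le_trans h2 ?_
      gcongr
    have := exp_small 3 _ _ hA0 hB
    nlinarith [Real.exp_pos (-(((n : ℝ) ^ (3 / 4 : ℝ)) ^ 2 / (8 * n)))]
  · -- p5
    have hA : r ^ 142 / 786432 ≤ ((n : ℝ) ^ (5 / 2 : ℝ)) ^ 2 * N /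
        (196608 * (gn n : ℝ) * n ^ 5) := by
      rw [e52, ← hrdef, le_div_iff₀ (by positivity)]
      calc r ^ 142 / 786432 * (196608 * (gn n : ℝ) * n ^ 5)
          ≤ r ^ 142 / 786432 * (196608 * (2 * r ^ 50) * (r ^ 200) ^ 5) := by
            rw [hnr]
            gcongr
        _ = (r ^ 500) ^ 2 * (r ^ 192 / 2) := by ring
        _ ≤ _ := by gcongr
    have hA0 : 0 ≤ ((n : ℝ) ^ (5 / 2 : ℝ)) ^ 2 * N /
        (196608 * (gn n : ℝ) * n ^ 5) := by positivity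
    have hB : (8 : ℝ) ≤ (((n : ℝ) ^ (5 / 2 : ℝ)) ^ 2 * N /
        (196608 * (gn n : ℝ) * n ^ 5)) ^ 1 / ((1).factorial : ℝ) := by
      have h2 : (8 : ℝ) ≤ r ^ 142 / 786432 := by
        rw [le_div_iff₀ (by positivity)]
        exact le_trans (by norm_num) (pw 142)
      simp only [pow_one, Nat.factorial_one, Nat.cast_one, div_one]
      linarith
    have := exp_small 1 _ _ hA0 hB
    linarith

theorem num_delta : ∃ n₀ : ℕ, ∀ n ≥ n₀,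
    2 * (n : ℝ) / gn n + 1 + (n : ℝ) ^ (3 / 4 : ℝ) ≤ 4 * (n : ℝ) ^ (3 / 4 : ℝ) ∧
    0 < lamn n ∧ lamn n ≤ 1 ∧ lamn n * (4 * (n : ℝ) ^ (3 / 4 : ℝ)) ≤ 1 ∧
    1 ≤ 4 * (n : ℝ) ^ (3 / 4 : ℝ) ∧ 4 * (n : ℝ) ^ (3 / 4 : ℝ) ≤ n ∧
    (n : ℝ) ^ (-(1 / 8) : ℝ) ≤ 1 ∧
    1 + lamn n * (n : ℝ) ^ (-(1 / 8) : ℝ) + 3 * lamn n ^ 2 * (4 * (n : ℝ) ^ (3 / 4 : ℝ)) ≤
      1 + 13 / n := by
  obtain ⟨n₀, hn₀⟩ := rr_ev 10
  refine ⟨n₀, fun n hn => ?_⟩
  have hr := hn₀ n hn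
  set r := rr n with hrdef
  have hr0 : 0 < r := by linarith
  have hr1 : 1 ≤ r := by linarith
  have hg1 := gn_ge n
  rw [← hrdef] at hg1
  have hnr : (n : ℝ) = r ^ 200 := e1 n
  have hg0 : (0 : ℝ) < gn n := lt_of_lt_of_le (by positivity) hg1
  rw [e34, e18, e78, ← hrdef]
  have h150 : 1 ≤ r ^ 150 := one_le_pow₀ hr1
  have h25 : (10 : ℝ) ≤ r ^ 25 := le_trans hr (le_self_pow₀ hr1 (by norm_num))
  refine ⟨?_, by positivity, ?_, ?_, by linarith, ?_, ?_, ?_⟩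
  · have h1 : 2 * (n : ℝ) / gn n ≤ 2 * r ^ 150 := by
      rw [div_le_iff₀ hg0, hnr]
      calc 2 * r ^ 200 = 2 * r ^ 150 * r ^ 50 := by ring
        _ ≤ _ := by gcongr
    linarith
  · exact inv_le_one_of_one_le₀ (one_le_pow₀ hr1)
  · have h1 : (r ^ 175)⁻¹ * (4 * r ^ 150) = 4 / r ^ 25 := by
      field_simp
    rw [h1, div_le_one (by positivity)]
    linarith
  · rw [hnr]
    calc 4 * r ^ 150 ≤ r ^ 50 * r ^ 150 := by
          have : (4 : ℝ) ≤ r ^ 50 := by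
            have := le_self_pow₀ hr1 (show (50 : ℕ) ≠ 0 by norm_num)
            linarith
          gcongr
      _ = r ^ 200 := by ring
  · exact inv_le_one_of_one_le₀ (one_le_pow₀ hr1)
  · rw [hnr]
    have h1 : (r ^ 175)⁻¹ * (r ^ 25)⁻¹ = 1 / r ^ 200 := by
      field_simp
    have h2 : 3 * (r ^ 175)⁻¹ ^ 2 * (4 * r ^ 150) = 12 / r ^ 200 := by
      field_simp
      ring
    rw [h1, h2]
    apply le_of_eq
    ring

theorem num_add : ∃ n₀ : ℕ, ∀ n ≥ n₀, ∀ N : ℕ, (n : ℝ) ^ (24 / 25 : ℝ) ≤ N + 1 →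
    8 * lamn n * n ^ 2 / (N : ℝ) + (n : ℝ) ^ (5 / 2 : ℝ) +
      972 * n ^ 2 * (4 * (n : ℝ) ^ (3 / 4 : ℝ)) ≤ 4000 * (n : ℝ) ^ (11 / 4 : ℝ) := by
  obtain ⟨n₀, hn₀⟩ := rr_ev 16
  refine ⟨n₀, fun n hn N hN => ?_⟩
  have hr := hn₀ n hn
  set r := rr n with hrdef
  have hr0 : 0 < r := by linarith
  have hr1 : 1 ≤ r := by linarith
  have hNg := N_ge n N (by rw [← hrdef]; linarith) hN
  rw [← hrdef] at hNg
  have hN0 : (0 : ℝ) < N := lt_of_lt_of_le (by positivity) hNg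
  have hnr : (n : ℝ) = r ^ 200 := e1 n
  rw [e34, e78, e52, e114, ← hrdef, hnr]
  have h1 : 8 * (r ^ 175)⁻¹ * (r ^ 200) ^ 2 / (N : ℝ) ≤ r ^ 550 := by
    rw [div_le_iff₀ hN0]
    calc 8 * (r ^ 175)⁻¹ * (r ^ 200) ^ 2 = 8 * r ^ 225 := by
          field_simp
      _ ≤ r ^ 550 * (r ^ 192 / 2) := by
          have h2 : r ^ 550 * (r ^ 192 / 2) = r ^ 517 / 2 * r ^ 225 := by ring
          rw [h2]
          have h3 : (16 : ℝ) ≤ r ^ 517 := le_trans hr (le_self_pow₀ hr1 (by norm_num))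
          have h4 : 0 ≤ r ^ 225 := by positivity
          nlinarith
      _ ≤ _ := by gcongr
  have h2 : r ^ 500 ≤ r ^ 550 := pow_le_pow_right₀ hr1 (by norm_num)
  have h3 : 972 * (r ^ 200) ^ 2 * (4 * r ^ 150) = 3888 * r ^ 550 := by ring
  rw [h3]
  have h4 : 0 ≤ r ^ 550 := by positivity
  linarith

theorem num_deg : ∃ n₀ : ℕ, ∀ n ≥ n₀, ∀ N d : ℕ, (n : ℝ) ^ (24 / 25 : ℝ) ≤ N + 1 →
    Real.exp (lamn n * (2 * (N : ℝ) - d)) ≤ 2 * 10 ^ 9 * (n : ℝ) ^ (15 / 4 : ℝ) →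
    29 * N ≤ 16 * d := by
  obtain ⟨n₀, hn₀⟩ := rr_ev (10 ^ 6)
  refine ⟨n₀, fun n hn N d hN hexp => ?_⟩
  have hr := hn₀ n hn
  set r := rr n with hrdef
  have hr0 : 0 < r := by linarith [show (0 : ℝ) < 10 ^ 6 by norm_num]
  have hr1 : 1 ≤ r := le_trans (by norm_num) hr
  have hNg := N_ge n N (by rw [← hrdef]; exact le_trans (by norm_num) hr) hN
  rw [← hrdef] at hNg
  have hN0 : (0 : ℝ) < N := lt_of_lt_of_le (by positivity) hNg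
  rw [e154, e78, ← hrdef] at hexp
  by_contra hcon
  push Not at hcon
  have hcon' : 16 * (d : ℝ) < 29 * N := by exact_mod_cast hcon
  have h1 : 3 * r ^ 17 / 32 ≤ (r ^ 175)⁻¹ * (2 * (N : ℝ) - d) := by
    have h2 : 3 * (N : ℝ) / 16 ≤ 2 * (N : ℝ) - d := by linarith
    calc 3 * r ^ 17 / 32 = (r ^ 175)⁻¹ * (3 * (r ^ 192 / 2) / 16) := by
          field_simp
          ring
      _ ≤ (r ^ 175)⁻¹ * (3 * (N : ℝ) / 16) := by gcongr
      _ ≤ _ := by gcongr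
  have h2 : (3 * r ^ 17 / 32) ^ 50 / ((50).factorial : ℝ) ≤ 2 * 10 ^ 9 * r ^ 750 := by
    calc (3 * r ^ 17 / 32) ^ 50 / ((50).factorial : ℝ)
        ≤ Real.exp (3 * r ^ 17 / 32) := Real.pow_div_factorial_le_exp _ (by positivity) 50
      _ ≤ Real.exp ((r ^ 175)⁻¹ * (2 * (N : ℝ) - d)) := Real.exp_le_exp.mpr h1
      _ ≤ _ := hexp
  have h3 : (3 * r ^ 17 / 32) ^ 50 / ((50).factorial : ℝ) =
      r ^ 100 * ((3 / 32) ^ 50 / ((50).factorial : ℝ)) * r ^ 750 := by ring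
  rw [h3] at h2
  have h4 : r ^ 100 * ((3 / 32) ^ 50 / ((50).factorial : ℝ)) ≤ 2 * 10 ^ 9 :=
    le_of_mul_le_mul_right h2 (by positivity)
  have h5 : ((10 : ℝ) ^ 6) ^ 100 ≤ r ^ 100 := pow_le_pow_left₀ (by norm_num) hr 100
  have h6 : ((10 : ℝ) ^ 6) ^ 100 * ((3 / 32) ^ 50 / ((50).factorial : ℝ)) ≤ 2 * 10 ^ 9 := by
    refine le_trans ?_ h4
    gcongr
  norm_num [Nat.factorial] at h6

theorem num_q : ∃ n₀ : ℕ, ∀ n ≥ n₀, ∀ N : ℕ, (n : ℝ) ^ (24 / 25 : ℝ) ≤ N + 1 →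
    2 * 10 ^ 9 * (n : ℝ) ^ (15 / 4 : ℝ) ≤ ((N : ℝ) / 8) ^ 4 := by
  obtain ⟨n₀, hn₀⟩ := rr_ev (10 ^ 6)
  refine ⟨n₀, fun n hn N hN => ?_⟩
  have hr := hn₀ n hn
  set r := rr n with hrdef
  have hr0 : 0 < r := by linarith [show (0 : ℝ) < 10 ^ 6 by norm_num]
  have hNg := N_ge n N (by rw [← hrdef]; exact le_trans (by norm_num) hr) hN
  rw [← hrdef] at hNg
  rw [e154, ← hrdef]
  have h1 : (r ^ 192 / 16) ^ 4 ≤ ((N : ℝ) / 8) ^ 4 := by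
    apply pow_le_pow_left₀ (by positivity)
    linarith
  refine le_trans ?_ h1
  have h2 : (r ^ 192 / 16) ^ 4 = r ^ 18 / 65536 * r ^ 750 := by ring
  rw [h2]
  have h3 : (2 : ℝ) * 10 ^ 9 ≤ r ^ 18 / 65536 := by
    rw [le_div_iff₀ (by norm_num)]
    exact le_trans (by norm_num) (pow_le_pow_left₀ (by norm_num) hr 18)
  exact mul_le_mul_of_nonneg_right h3 (by positivity)

theorem num_exp (n j : ℕ) (hn : 0 < n) (hj : j ≤ n) :
    Real.exp (13 * j / n) * (6 * n + 4000 * j * (n : ℝ) ^ (11 / 4 : ℝ)) ≤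
      2 * 10 ^ 9 * (n : ℝ) ^ (15 / 4 : ℝ) := by
  have hn1 : (1 : ℝ) ≤ n := by exact_mod_cast hn
  have hn0 : (0 : ℝ) < n := by linarith
  have hj' : (j : ℝ) ≤ n := by exact_mod_cast hj
  have h1 : Real.exp (13 * j / n) ≤ 442414 := by
    have h2 : 13 * (j : ℝ) / n ≤ 13 := by
      rw [div_le_iff₀ hn0]
      linarith
    calc Real.exp (13 * j / n) ≤ Real.exp 13 := Real.exp_le_exp.mpr h2
      _ = Real.exp 1 ^ 13 := by rw [← Real.exp_nat_mul]; norm_num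
      _ ≤ (2.7182818286 : ℝ) ^ 13 :=
          pow_le_pow_left₀ (Real.exp_pos 1).le Real.exp_one_lt_d9.le 13
      _ ≤ 442414 := by norm_num
  have h3 : (n : ℝ) * (n : ℝ) ^ (11 / 4 : ℝ) = (n : ℝ) ^ (15 / 4 : ℝ) := by
    have h4 : (n : ℝ) ^ (15 / 4 : ℝ) = (n : ℝ) ^ (1 + 11 / 4 : ℝ) := by norm_num
    rw [h4, Real.rpow_add hn0, Real.rpow_one]
  have h4 : (n : ℝ) ≤ (n : ℝ) ^ (15 / 4 : ℝ) := by
    calc (n : ℝ) = (n : ℝ) ^ (1 : ℝ) := (Real.rpow_one _).symm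
      _ ≤ _ := Real.rpow_le_rpow_of_exponent_le hn1 (by norm_num)
  have h5 : 6 * (n : ℝ) + 4000 * j * (n : ℝ) ^ (11 / 4 : ℝ) ≤ 4006 * (n : ℝ) ^ (15 / 4 : ℝ) := by
    have h6 : (j : ℝ) * (n : ℝ) ^ (11 / 4 : ℝ) ≤ n * (n : ℝ) ^ (11 / 4 : ℝ) := by gcongr
    rw [h3] at h6
    nlinarith
  have h6 : 0 ≤ (n : ℝ) ^ (15 / 4 : ℝ) := by positivity
  calc Real.exp (13 * j / n) * (6 * n + 4000 * j * (n : ℝ) ^ (11 / 4 : ℝ))
      ≤ 442414 * (4006 * (n : ℝ) ^ (15 / 4 : ℝ)) := by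
        refine mul_le_mul h1 h5 (by positivity) (by norm_num)
    _ ≤ _ := by nlinarith

end Pool.Agent.helper7.AQ
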