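import Pool.Agent.helper7.AQ.SampB
import Pool.Agent.helper7.AQ.Merge
import Pool.Agent.helper7.AQ.Cells
import Pool.Agent.helper7.AQ.GRado

/-!
# AQ-OneTree: one sparse rainbow spanning tree of small weight

PROOF.  `G` is nonempty (`|G| = N * (2 n - 1) > 0`).  `merge` gives `κ'`, `cells` gives `m`, `cl` for `κ'`, `sample` for `κ'` (`St n N κ' G`) gives `H`, `x`;
`gRado` for `κ'`, `H`, `x` and the weight `w' e = α * ∑ v ∈ {v | v ∈ e}, w v + f e` gives `T ⊆ H ⊆ G`.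
`Tr`: `inj`: `κ e = κ e' → κ' e = κ' e' → e = e'`.  `meet`: if `|col G κ k| = N` then `col G κ' k' = col G κ k` for some `k'`, its `x`-mass is `1`, so
there is `e ∈ T` with `κ' e = k'`; `e ∈ G`, so `e ∈ col G κ' k' = col G κ k`.
Degrees: `atV T v ⊆ atV H v`.
Weights: `∑ e ∈ T, ∑ v ∈ {v | v ∈ e}, w v = ∑ v, w v * |atV T v|` (exchange of the sums), and
`∑ e, (∑ v ∈ {v | v ∈ e}, w v) * x e = ∑ v, w v * ∑ e ∈ atV univ v, x e ≤ ∑ v, w v * (|atV G v| / N + γ)`.
(`V` is nonempty: `card V = 2 n > 0`.)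
-/

set_option autoImplicit false

open Finset
open scoped Classical

namespace Pool.Agent.helper7.AQ

private theorem oneTree_swap {V : Type} [Fintype V] [DecidableEq V] (T : Finset (Sym2 V)) (w : V → ℝ)
    (x : Sym2 V → ℝ) :
    ∑ e ∈ T, (∑ v ∈ univ.filter (fun v => v ∈ e), w v) * x e =
      ∑ v, w v * ∑ e ∈ atV T v, x e := by
  unfold atV
  simp_rw [Finset.sum_filter, Finset.sum_mul, Finset.mul_sum]
  rw [Finset.sum_comm]
  refine Finset.sum_congr rfl fun v _ => Finset.sum_congr rfl fun e _ => ?_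
  by_cases h : v ∈ e <;> simp [h]

theorem oneTree {V K : Type} [Fintype V] [DecidableEq V] [Fintype K] (n N g : ℕ) (γ t4 t5 : ℝ)
    (hP : Pm n N g γ t4 t5) (hV : Fintype.card V = 2 * n) (κ : Sym2 V → K)
    (G : Finset (Sym2 V)) (hSt : St n N κ G)
    (hsm : ∀ A : Finset V, 2 ≤ A.card → A.card ≤ n → 8 * (inA G A).card ≤ 7 * N * (A.card - 1))
    (hla : ∀ A : Finset V, n < A.card → A.card < 2 * n →
      8 * (inA G A).card + N * (2 * n - A.card) ≤ 8 * N * (A.card - 1))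
    (f : Sym2 V → ℝ) (hf : ∀ e, |f e| ≤ 32 * (n : ℝ) ^ 2) (α : ℝ) (hα : 0 ≤ α) (w : V → ℝ)
    (hw : ∀ v, 0 ≤ w v) :
    ∃ T, Tr N κ G T ∧ (∀ v, ((atV T v).card : ℝ) ≤ 2 * n / g + 1 + t4) ∧
      α * ∑ v, w v * ((atV T v).card : ℝ) + ∑ e ∈ T, f e ≤
        α * ∑ v, w v * (((atV G v).card : ℝ) / N + γ) + 1 / N * ∑ e ∈ G, f e + t5 := by
  have hnp := hP.n_pos
  have hNp := hP.N_pos
  haveI : Nonempty V := Fintype.card_pos_iff.1 (by rw [hV]; omega)
  have hG : G.Nonempty := by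
    rw [← Finset.card_pos, hSt.card]
    exact Nat.mul_pos hNp (by omega)
  obtain ⟨κ', h1, h2, h3, h4⟩ := merge G κ N g hP.g_pos hP.gN hSt.colr
  obtain ⟨m, cl, hcl⟩ := cells G hG κ' g hP.g_pos h3
  have hSt' : St n N κ' G := ⟨hSt.nd, hSt.card, h2⟩
  obtain ⟨H, hHG, x, hFr, hx1, hx2, hx3, hx4⟩ :=
    sample γ t4 t5 hP hV hSt' hcl hsm hla f hf
  obtain ⟨T, hTH, htree, hcard, hinj, hmeet, hwt⟩ :=
    gRado κ' H (fun e he => hSt.nd e (hHG he)) x hFr
      (fun e => α * (∑ v ∈ univ.filter (fun v => v ∈ e), w v) + f e)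
  refine ⟨T, ⟨hTH.trans hHG, htree, hcard, fun e he e' he' h => hinj e he e' he' (h1 e e' h), ?_⟩,
    ?_, ?_⟩
  · intro k hk
    obtain ⟨k', hk'⟩ := h4 k hk
    obtain ⟨e, he, hek⟩ := hmeet k' (hx1 k' (by rw [hk']; exact hk))
    refine ⟨e, he, ?_⟩
    have h5 : e ∈ col G κ' k' := by
      unfold col
      exact Finset.mem_filter.2 ⟨hHG (hTH he), hek⟩
    rw [hk'] at h5
    unfold col at h5
    exact (Finset.mem_filter.1 h5).2
  · intro v
    refine le_trans ?_ (hx3 v)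
    have h5 : atV T v ⊆ atV H v := by
      unfold atV
      exact Finset.filter_subset_filter _ hTH
    exact_mod_cast Finset.card_le_card h5
  · have e1 : ∑ e ∈ T, (α * (∑ v ∈ univ.filter (fun v => v ∈ e), w v) + f e) =
        α * ∑ v, w v * ((atV T v).card : ℝ) + ∑ e ∈ T, f e := by
      rw [Finset.sum_add_distrib, ← Finset.mul_sum]
      have h5 := oneTree_swap T w (fun _ => 1)
      simp only [mul_one, Finset.sum_const, nsmul_eq_mul] at h5
      rw [h5]
    have e2 : ∑ e, (α * (∑ v ∈ univ.filter (fun v => v ∈ e), w v) + f e) * x e =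
        α * ∑ v, w v * ∑ e ∈ atV univ v, x e + ∑ e, f e * x e := by
      rw [← oneTree_swap univ w x, Finset.mul_sum, ← Finset.sum_add_distrib]
      refine Finset.sum_congr rfl fun e _ => ?_
      ring
    rw [e1, e2] at hwt
    have e3 : ∑ v, w v * ∑ e ∈ atV univ v, x e ≤
        ∑ v, w v * (((atV G v).card : ℝ) / N + γ) :=
      Finset.sum_le_sum fun v _ => mul_le_mul_of_nonneg_left (hx2 v) (hw v)
    have e4 := mul_le_mul_of_nonneg_left e3 hα
    linarith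

end Pool.Agent.helper7.AQ
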