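import Pool.Agent.helper7.AQ.Q4
import Pool.Agent.helper7.AQ.FM

/-!
# AQ-Pot: the growth of the potential in one step

Let `N₁ = N + 1`, `G' = G \ T`, `d v = |atV T v| ∈ [1, Δ]`, `D v = |atV G v|`, `w v = wv lam N₁ G v`, `W = ∑ v, w v`, `M = Mx n N₁ G`, `α = lam (1 + lam Δ)`.
PROOF of `pot_step`.
(1) `wv lam N G' v = w v * exp (lam (d v - 2))` (`|atV G' v| = D v - d v`).  For `|y| ≤ 1`: `exp y ≤ 1 + y + y ^ 2`; `y = lam (d v - 2)`, `|y| ≤ 1` as
`lam Δ ≤ 1` and `lam ≤ 1` (`1 ≤ Δ`); `y ^ 2 ≤ lam ^ 2 Δ d v` since `(t - 2) ^ 2 ≤ t ^ 2 ≤ Δ t` for `1 ≤ t ≤ Δ`.  So the new vertex part is at most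
`W - 2 lam W + α * ∑ v, w v * d v`.
(2) `Mx n N G' = M + X` with `X u v = - adj T u v + (1 / n) off u v` (`T ⊆ G`).  `|X u v| ≤ 1`, `∑ u, |X u v| ≤ d v + 2 =: s v ≤ 3 d v` (`deg_adj`,
`(2 n - 1) / n ≤ 2`).  `∑ v, d v = 2 (2 n - 1) ≤ 4 n` (`deg_sum`, `|T| = 2 n - 1`), `∑ v, s v ^ 2 ≤ 9 Δ * 4 n`, `∑ v, s v ^ 3 ≤ 27 Δ ^ 2 * 4 n ≤ 108 n ^ 2 Δ` (`Δ ≤ n`).
`q4_step`: the new `q4` is at most `q4 M + 4 ⟨M M M, X⟩ + 6 * 2 n * 36 n Δ + 540 n ^ 2 Δ = q4 M + 4 ⟨M M M, X⟩ + 972 n ^ 2 Δ`, and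
`4 ⟨M M M, X⟩ = ∑ e ∈ T, fM M e + (4 / n) ⟨M M M, off⟩` (`fM_sum`).
(3) By `hT` the sum of `α * ∑ v, w v * d v + ∑ e ∈ T, fM M e` is at most `α ∑ v, w v (D v / N₁ + γ) + (1 / N₁) ∑ e ∈ G, fM M e + t5`, and
`(1 / N₁) ∑ e ∈ G, fM M e = - (4 / N₁) ⟨M M M, adj G⟩ = - (4 / N₁) ⟨M M M, M⟩ - (4 / n) ⟨M M M, off⟩` (`adj G = M + (N₁ / n) off`), where
`⟨M M M, M⟩ = q4 M ≥ 0` (`q4_eq`).  The terms with `off` cancel.
(4) `w v * D v / N₁ ≤ 2 w v + 2 n / N₁`: if `D v ≤ 2 N₁` clear; otherwise `w v ≤ 1` and `D v ≤ 2 n`.  So `∑ v, w v (D v / N₁ + γ) ≤ (2 + γ) W + 4 n ^ 2 / N₁`.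
(5) `α (2 + γ) - 2 lam = lam γ + lam ^ 2 Δ (2 + γ) ≤ lam γ + 3 lam ^ 2 Δ`, `α * 4 n ^ 2 / N₁ ≤ 8 lam n ^ 2 / N₁`, `W ≤ Ps`.
-/

set_option autoImplicit false
set_option linter.unusedSectionVars false

open Finset

namespace Pool.Agent.helper7.AQ

variable {V : Type} [Fintype V] [DecidableEq V]

theorem pot_card (G T : Finset (Sym2 V)) (hTG : T ⊆ G) (v : V) :
    ((atV (G \ T) v).card : ℝ) = ((atV G v).card : ℝ) - ((atV T v).card : ℝ) := by
  classical
  have h1 : atV (G \ T) v = atV G v \ atV T v := by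
    ext e
    simp only [atV, Finset.mem_filter, Finset.mem_sdiff]
    tauto
  have h2 : atV T v ⊆ atV G v := by
    intro e he
    simp only [atV, Finset.mem_filter] at he ⊢
    exact ⟨hTG he.1, he.2⟩
  rw [h1, Finset.card_sdiff_of_subset h2, Nat.cast_sub (Finset.card_le_card h2)]

theorem pot_adj01 (G : Finset (Sym2 V)) (u v : V) : 0 ≤ adj G u v ∧ adj G u v ≤ 1 := by
  unfold adj
  split_ifs <;> constructor <;> norm_num

theorem pot_off01 (u v : V) : 0 ≤ off V u v ∧ off V u v ≤ 1 := by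
  unfold off
  split_ifs <;> constructor <;> norm_num

theorem pot_adj_sdiff (G T : Finset (Sym2 V)) (hTG : T ⊆ G) (u v : V) :
    adj (G \ T) u v = adj G u v - adj T u v := by
  unfold adj
  by_cases h1 : s(u, v) ∈ T
  · have h2 : s(u, v) ∈ G := hTG h1
    simp [h1, h2]
  · by_cases h2 : s(u, v) ∈ G
    · simp [h1, h2]
    · simp [h1, h2]

theorem pot_step (n N : ℕ) (hn : 0 < n) (hNn : N + 1 ≤ n) (hV : Fintype.card V = 2 * n)
    (G T : Finset (Sym2 V)) (hG : ∀ e ∈ G, ¬ e.IsDiag) (hTG : T ⊆ G)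
    (htree : (SimpleGraph.fromEdgeSet (T : Set (Sym2 V))).IsTree)
    (hTc : T.card + 1 = Fintype.card V) (lam γ t5 Δ : ℝ) (hl : 0 < lam) (hγ : 0 ≤ γ)
    (hγ1 : γ ≤ 1) (ht : 0 ≤ t5) (hΔ1 : 1 ≤ Δ) (hΔn : Δ ≤ n) (hlΔ : lam * Δ ≤ 1)
    (hd : ∀ v, ((atV T v).card : ℝ) ≤ Δ)
    (hT : lam * (1 + lam * Δ) * ∑ v, wv lam (N + 1) G v * ((atV T v).card : ℝ) +
      ∑ e ∈ T, fM (Mx n (N + 1) G) e ≤
      lam * (1 + lam * Δ) *
        ∑ v, wv lam (N + 1) G v * (((atV G v).card : ℝ) / ((N + 1 : ℕ) : ℝ) + γ) +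
      1 / ((N + 1 : ℕ) : ℝ) * ∑ e ∈ G, fM (Mx n (N + 1) G) e + t5) :
    Ps lam n N (G \ T) ≤ (1 + lam * γ + 3 * lam ^ 2 * Δ) * Ps lam n (N + 1) G +
      8 * lam * n ^ 2 / ((N + 1 : ℕ) : ℝ) + t5 + 972 * n ^ 2 * Δ := by
  have hn0 : (0 : ℝ) < n := by exact_mod_cast hn
  have hN0 : (0 : ℝ) < ((N + 1 : ℕ) : ℝ) := by exact_mod_cast Nat.succ_pos N
  set d : V → ℝ := fun v => ((atV T v).card : ℝ) with hddef
  set D : V → ℝ := fun v => ((atV G v).card : ℝ) with hDdef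
  set w : V → ℝ := fun v => wv lam (N + 1) G v with hwdef
  set W : ℝ := ∑ v, w v with hWdef
  set M : Matrix V V ℝ := Mx n (N + 1) G with hMdef
  have hw0 : ∀ v, 0 < w v := fun v => Real.exp_pos _
  have hW0 : 0 ≤ W := Finset.sum_nonneg fun v _ => (hw0 v).le
  have hd1 : ∀ v, 1 ≤ d v := by
    intro v
    have h1 := deg_pos T (by omega) htree.1 v
    have h2 : (1 : ℝ) ≤ ((atV T v).card : ℝ) := by exact_mod_cast h1
    exact h2
  have hD2 : ∀ v, D v ≤ 2 * n := by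
    intro v
    have h1 := deg_adj G v
    have h2 : ∑ u, adj G u v ≤ ∑ _u : V, (1 : ℝ) :=
      Finset.sum_le_sum fun u _ => (pot_adj01 G u v).2
    rw [h1] at h2
    rw [Finset.sum_const, nsmul_eq_mul, mul_one, Finset.card_univ, hV] at h2
    push_cast at h2
    exact h2
  -- vertex part
  have hvert : ∑ v, wv lam N (G \ T) v ≤
      W - 2 * lam * W + lam * (1 + lam * Δ) * ∑ v, w v * d v := by
    have h1 : ∀ v, wv lam N (G \ T) v ≤
        w v * (1 - 2 * lam) + lam * (1 + lam * Δ) * (w v * d v) := by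
      intro v
      have h2 : wv lam N (G \ T) v = w v * Real.exp (lam * (d v - 2)) := by
        simp only [hwdef, wv]
        rw [← Real.exp_add, pot_card G T hTG v]
        congr 1
        simp only [hddef]
        push_cast
        ring
      have h3 : |lam * (d v - 2)| ≤ 1 := by
        rw [abs_mul, abs_of_pos hl]
        have h4 : |d v - 2| ≤ Δ := by
          rw [abs_le]
          constructor
          · have := hd1 v; linarith
          · have := hd v; linarith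
        calc lam * |d v - 2| ≤ lam * Δ := mul_le_mul_of_nonneg_left h4 hl.le
          _ ≤ 1 := hlΔ
      have h5 := Real.abs_exp_sub_one_sub_id_le h3
      have h6 : Real.exp (lam * (d v - 2)) ≤ 1 + lam * (d v - 2) + (lam * (d v - 2)) ^ 2 := by
        have := (abs_le.1 h5).2
        linarith
      have h7 : (d v - 2) ^ 2 ≤ Δ * d v := by
        have h8 := hd1 v
        have h9 := hd v
        have h10 : (d v - 2) ^ 2 ≤ d v * d v := by nlinarith
        have h11 : d v * d v ≤ Δ * d v := mul_le_mul_of_nonneg_right h9 (by linarith)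
        linarith
      have h12 : (lam * (d v - 2)) ^ 2 ≤ lam ^ 2 * (Δ * d v) := by
        rw [mul_pow]
        exact mul_le_mul_of_nonneg_left h7 (by positivity)
      have h13 : Real.exp (lam * (d v - 2)) ≤ 1 + lam * (d v - 2) + lam ^ 2 * (Δ * d v) := by
        linarith
      have h14 := mul_le_mul_of_nonneg_left h13 (hw0 v).le
      rw [h2]
      calc w v * Real.exp (lam * (d v - 2))
          ≤ w v * (1 + lam * (d v - 2) + lam ^ 2 * (Δ * d v)) := h14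
        _ = w v * (1 - 2 * lam) + lam * (1 + lam * Δ) * (w v * d v) := by ring
    calc ∑ v, wv lam N (G \ T) v
        ≤ ∑ v, (w v * (1 - 2 * lam) + lam * (1 + lam * Δ) * (w v * d v)) :=
          Finset.sum_le_sum fun v _ => h1 v
      _ = W - 2 * lam * W + lam * (1 + lam * Δ) * ∑ v, w v * d v := by
          rw [Finset.sum_add_distrib, ← Finset.sum_mul, ← Finset.mul_sum]
          ring
  -- matrix part
  set X : Matrix V V ℝ := Mx n N (G \ T) - M with hXdef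
  have hXe : ∀ u v, X u v = - adj T u v + 1 / n * off V u v := by
    intro u v
    simp only [hXdef, hMdef, Mx, Matrix.sub_apply, Matrix.smul_apply, smul_eq_mul]
    rw [pot_adj_sdiff G T hTG u v]
    push_cast
    field_simp
    ring
  have hinv : (1 : ℝ) / n ≤ 1 := by
    rw [div_le_one hn0]
    exact_mod_cast hn
  have hinv0 : (0 : ℝ) ≤ 1 / n := by positivity
  have hX1 : ∀ u v, |X u v| ≤ 1 := by
    intro u v
    rw [hXe, abs_le]
    obtain ⟨a1, a2⟩ := pot_adj01 T u v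
    obtain ⟨b1, b2⟩ := pot_off01 u v
    have h1 : 0 ≤ 1 / (n : ℝ) * off V u v := mul_nonneg hinv0 b1
    have h2 : 1 / (n : ℝ) * off V u v ≤ 1 := by
      calc 1 / (n : ℝ) * off V u v ≤ 1 * 1 := mul_le_mul hinv b2 b1 zero_le_one
        _ = 1 := one_mul 1
    constructor <;> linarith
  have hXs : ∀ v, ∑ u, |X u v| ≤ d v + 2 := by
    intro v
    have h1 : ∀ u, |X u v| ≤ adj T u v + 1 / n := by
      intro u
      rw [hXe, abs_le]
      obtain ⟨a1, a2⟩ := pot_adj01 T u v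
      obtain ⟨b1, b2⟩ := pot_off01 u v
      have h1 : 0 ≤ 1 / (n : ℝ) * off V u v := mul_nonneg hinv0 b1
      have h2 : 1 / (n : ℝ) * off V u v ≤ 1 / n := by
        calc 1 / (n : ℝ) * off V u v ≤ 1 / n * 1 := mul_le_mul_of_nonneg_left b2 hinv0
          _ = 1 / n := mul_one _
      constructor <;> linarith
    calc ∑ u, |X u v| ≤ ∑ u, (adj T u v + 1 / n) := Finset.sum_le_sum fun u _ => h1 u
      _ = d v + 2 := by
          rw [Finset.sum_add_distrib, deg_adj T v, Finset.sum_const, Finset.card_univ, hV,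
            nsmul_eq_mul]
          have h2 : ((2 * n : ℕ) : ℝ) * (1 / n) = 2 := by
            push_cast
            field_simp
          rw [h2]
  have hMs : M.IsSymm := mx_symm n (N + 1) G
  have hXsym : X.IsSymm := by
    have h1 : (Mx n N (G \ T)).IsSymm := mx_symm n N (G \ T)
    exact h1.sub hMs
  have hM1 : ∀ u v, |M u v| ≤ 1 := fun u v => mx_abs n (N + 1) hn hNn G hG u v
  have hq := q4_step M X hMs hXsym hM1 hX1 (fun v => d v + 2) hXs
  have hMX : M + X = Mx n N (G \ T) := by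
    rw [hXdef]; abel
  rw [hMX] at hq
  -- degree sums
  have hTd : ∀ e ∈ T, ¬ e.IsDiag := fun e he => hG e (hTG he)
  have hdsum : ∑ v, d v ≤ 4 * n := by
    have h1 := deg_sum T hTd
    have h2 : (∑ v, d v) = ((∑ v, (atV T v).card : ℕ) : ℝ) := by
      simp only [hddef]
      push_cast
      rfl
    rw [h2, h1]
    have h3 : 2 * T.card ≤ 4 * n := by omega
    exact_mod_cast h3
  have hs2 : ∑ v, (d v + 2) ^ 2 ≤ 36 * n * Δ := by
    have h1 : ∀ v, (d v + 2) ^ 2 ≤ 9 * Δ * d v := by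
      intro v
      have h8 := hd1 v
      have h9 := hd v
      have h10 : (d v + 2) ^ 2 ≤ 9 * (d v * d v) := by nlinarith
      have h11 : d v * d v ≤ Δ * d v := mul_le_mul_of_nonneg_right h9 (by linarith)
      linarith
    calc ∑ v, (d v + 2) ^ 2 ≤ ∑ v, 9 * Δ * d v := Finset.sum_le_sum fun v _ => h1 v
      _ = 9 * Δ * ∑ v, d v := by rw [Finset.mul_sum]
      _ ≤ 9 * Δ * (4 * n) := mul_le_mul_of_nonneg_left hdsum (by linarith)
      _ = 36 * n * Δ := by ring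
  have hs3 : ∑ v, (d v + 2) ^ 3 ≤ 108 * n ^ 2 * Δ := by
    have h1 : ∀ v, (d v + 2) ^ 3 ≤ 27 * Δ * n * d v := by
      intro v
      have h8 := hd1 v
      have h9 := hd v
      have h10 : d v + 2 ≤ 3 * d v := by linarith
      have h11 : (d v + 2) ^ 3 ≤ (3 * d v) ^ 3 := pow_le_pow_left₀ (by linarith) h10 3
      have h12 : d v * d v ≤ Δ * n := mul_le_mul h9 (h9.trans hΔn) (by linarith) (by linarith)
      have h13 : d v * d v * d v ≤ Δ * n * d v := mul_le_mul_of_nonneg_right h12 (by linarith)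
      calc (d v + 2) ^ 3 ≤ (3 * d v) ^ 3 := h11
        _ = 27 * (d v * d v * d v) := by ring
        _ ≤ 27 * (Δ * n * d v) := by linarith
        _ = 27 * Δ * n * d v := by ring
    calc ∑ v, (d v + 2) ^ 3 ≤ ∑ v, 27 * Δ * n * d v := Finset.sum_le_sum fun v _ => h1 v
      _ = 27 * Δ * n * ∑ v, d v := by rw [Finset.mul_sum]
      _ ≤ 27 * Δ * n * (4 * n) := mul_le_mul_of_nonneg_left hdsum (by positivity)
      _ = 108 * n ^ 2 * Δ := by ring
  -- the inner products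
  set J : ℝ := ∑ u, ∑ v, (M * M * M) u v * off V u v with hJdef
  have hXin : 4 * ∑ u, ∑ v, (M * M * M) u v * X u v = ∑ e ∈ T, fM M e + 4 / n * J := by
    have h1 : ∀ u v, (M * M * M) u v * X u v =
        (1 / n) * ((M * M * M) u v * off V u v) - (M * M * M) u v * adj T u v := by
      intro u v
      rw [hXe]; ring
    simp only [h1]
    rw [fM_sum]
    simp only [Finset.sum_sub_distrib, ← Finset.mul_sum]
    rw [← hJdef]
    ring
  have hGin : 1 / ((N + 1 : ℕ) : ℝ) * ∑ e ∈ G, fM M e ≤ - (4 / n * J) := by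
    rw [fM_sum]
    have h1 : ∀ u v, (M * M * M) u v * adj G u v =
        (M * M * M) u v * M u v + ((N + 1 : ℕ) : ℝ) / n * ((M * M * M) u v * off V u v) := by
      intro u v
      have h2 : adj G u v = M u v + ((N + 1 : ℕ) : ℝ) / n * off V u v := by
        simp only [hMdef, Mx, Matrix.sub_apply, Matrix.smul_apply, smul_eq_mul]
        ring
      rw [h2]; ring
    simp only [h1]
    simp only [Finset.sum_add_distrib, ← Finset.mul_sum]
    rw [← hJdef, ← q4_eq M hMs]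
    have h3 : 0 ≤ 1 / ((N + 1 : ℕ) : ℝ) * (4 * q4 M) := by
      have := q4_nonneg M
      positivity
    have h4 : 1 / ((N + 1 : ℕ) : ℝ) * (-4 * (q4 M + ((N + 1 : ℕ) : ℝ) / n * J)) =
        - (1 / ((N + 1 : ℕ) : ℝ) * (4 * q4 M)) - (4 / n * J) := by
      field_simp
      ring
    rw [h4]
    linarith
  -- the vertex weights
  have hwD : ∑ v, w v * (D v / ((N + 1 : ℕ) : ℝ) + γ) ≤
      (2 + γ) * W + 4 * n ^ 2 / ((N + 1 : ℕ) : ℝ) := by
    have h1 : ∀ v, w v * (D v / ((N + 1 : ℕ) : ℝ) + γ) ≤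
        (2 + γ) * w v + 2 * n / ((N + 1 : ℕ) : ℝ) := by
      intro v
      have h2 : w v * (D v / ((N + 1 : ℕ) : ℝ)) ≤ 2 * w v + 2 * n / ((N + 1 : ℕ) : ℝ) := by
        have h0 := hw0 v
        have h20 : 0 ≤ 2 * (n : ℝ) / ((N + 1 : ℕ) : ℝ) := by positivity
        by_cases hc : D v ≤ 2 * ((N + 1 : ℕ) : ℝ)
        · have h3 : D v / ((N + 1 : ℕ) : ℝ) ≤ 2 := by
            rw [div_le_iff₀ hN0]; exact hc
          have h4 := mul_le_mul_of_nonneg_left h3 h0.le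
          linarith
        · push Not at hc
          have h3 : w v ≤ 1 := by
            have h5 : w v = Real.exp (lam * (2 * ((N + 1 : ℕ) : ℝ) - D v)) := rfl
            rw [h5]
            apply Real.exp_le_one_iff.2
            apply mul_nonpos_of_nonneg_of_nonpos hl.le
            linarith
          have h4 : D v / ((N + 1 : ℕ) : ℝ) ≤ 2 * n / ((N + 1 : ℕ) : ℝ) :=
            div_le_div_of_nonneg_right (hD2 v) hN0.le
          have h5 : 0 ≤ D v / ((N + 1 : ℕ) : ℝ) := by positivity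
          have h6 : w v * (D v / ((N + 1 : ℕ) : ℝ)) ≤ 1 * (2 * n / ((N + 1 : ℕ) : ℝ)) :=
            mul_le_mul h3 h4 h5 zero_le_one
          linarith
      calc w v * (D v / ((N + 1 : ℕ) : ℝ) + γ)
          = w v * (D v / ((N + 1 : ℕ) : ℝ)) + γ * w v := by ring
        _ ≤ (2 + γ) * w v + 2 * n / ((N + 1 : ℕ) : ℝ) := by linarith
    calc ∑ v, w v * (D v / ((N + 1 : ℕ) : ℝ) + γ)
        ≤ ∑ v, ((2 + γ) * w v + 2 * n / ((N + 1 : ℕ) : ℝ)) :=
          Finset.sum_le_sum fun v _ => h1 v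
      _ = (2 + γ) * W + 4 * n ^ 2 / ((N + 1 : ℕ) : ℝ) := by
          rw [Finset.sum_add_distrib, ← Finset.mul_sum, Finset.sum_const, Finset.card_univ, hV,
            nsmul_eq_mul]
          push_cast
          ring
  -- assembly
  have hα0 : 0 ≤ lam * (1 + lam * Δ) := by positivity
  have hwD' := mul_le_mul_of_nonneg_left hwD hα0
  have hPs' : Ps lam n N (G \ T) = ∑ v, wv lam N (G \ T) v + q4 (Mx n N (G \ T)) := rfl
  have hPs : Ps lam n (N + 1) G = W + q4 M := rfl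
  have hq0 : 0 ≤ q4 M := q4_nonneg M
  have hVr : (Fintype.card V : ℝ) = 2 * n := by rw [hV]; push_cast; ring
  rw [hVr] at hq
  have hq' : q4 (Mx n N (G \ T)) ≤ q4 M + (∑ e ∈ T, fM M e + 4 / n * J) +
      972 * n ^ 2 * Δ := by
    have h1 : 6 * (2 * (n : ℝ)) * ∑ v, (d v + 2) ^ 2 ≤ 6 * (2 * (n : ℝ)) * (36 * n * Δ) :=
      mul_le_mul_of_nonneg_left hs2 (by positivity)
    have h2 : 6 * (2 * (n : ℝ)) * (36 * n * Δ) = 432 * n ^ 2 * Δ := by ring
    have h3 : (5 : ℝ) * ∑ v, (d v + 2) ^ 3 ≤ 540 * n ^ 2 * Δ := by linarith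
    rw [hXin] at hq
    linarith
  have hc1 : lam * (1 + lam * Δ) * ((2 + γ) * W + 4 * n ^ 2 / ((N + 1 : ℕ) : ℝ)) ≤
      (2 * lam + lam * γ + 3 * lam ^ 2 * Δ) * W + 8 * lam * n ^ 2 / ((N + 1 : ℕ) : ℝ) := by
    have h1 : lam * (1 + lam * Δ) * (2 + γ) ≤ 2 * lam + lam * γ + 3 * lam ^ 2 * Δ := by
      have h2 : lam ^ 2 * Δ * (2 + γ) ≤ lam ^ 2 * Δ * 3 :=
        mul_le_mul_of_nonneg_left (by linarith) (by positivity)
      nlinarith
    have h3 : lam * (1 + lam * Δ) ≤ 2 * lam := by nlinarith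
    have h4 : 0 ≤ 4 * (n : ℝ) ^ 2 / ((N + 1 : ℕ) : ℝ) := by positivity
    have h5 := mul_le_mul_of_nonneg_right h1 hW0
    have h6 := mul_le_mul_of_nonneg_right h3 h4
    have h7 : 2 * lam * (4 * (n : ℝ) ^ 2 / ((N + 1 : ℕ) : ℝ)) =
        8 * lam * n ^ 2 / ((N + 1 : ℕ) : ℝ) := by ring
    have h8 : lam * (1 + lam * Δ) * ((2 + γ) * W + 4 * n ^ 2 / ((N + 1 : ℕ) : ℝ)) =
        lam * (1 + lam * Δ) * (2 + γ) * W +
          lam * (1 + lam * Δ) * (4 * n ^ 2 / ((N + 1 : ℕ) : ℝ)) := by ring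
    rw [h8]
    linarith
  have hc20 : 0 ≤ lam * γ + 3 * lam ^ 2 * Δ := by
    have h1 : 0 ≤ lam * γ := mul_nonneg hl.le hγ
    have h2 : 0 ≤ 3 * lam ^ 2 * Δ := by positivity
    linarith
  have hc2 : 0 ≤ (lam * γ + 3 * lam ^ 2 * Δ) * q4 M := mul_nonneg hc20 hq0
  rw [hPs', hPs]
  have hfin : (1 + lam * γ + 3 * lam ^ 2 * Δ) * (W + q4 M) =
      W + q4 M + (lam * γ + 3 * lam ^ 2 * Δ) * W + (lam * γ + 3 * lam ^ 2 * Δ) * q4 M := by ring
  rw [hfin]
  have hT' : lam * (1 + lam * Δ) * ∑ v, w v * d v + ∑ e ∈ T, fM M e ≤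
      lam * (1 + lam * Δ) * ∑ v, w v * (D v / ((N + 1 : ℕ) : ℝ) + γ) +
      1 / ((N + 1 : ℕ) : ℝ) * ∑ e ∈ G, fM M e + t5 := hT
  linarith

end Pool.Agent.helper7.AQ
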