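import Pool.Agent.helper7.AQ.Defs

/-!
# AQ-Q4: the change of the fourth Schatten norm (author: helper59)

Write `‖Y‖² = ∑ u v, (Y u v) ^ 2`, `⟨Y, Z⟩ = ∑ u v, Y u v * Z u v`.
* `q4_nonneg`, `q4_eq`: for symmetric `M`: `q4 M = ‖M M‖² = ⟨M M M, M⟩` (`∑ u v, (M M) u v * (M M) u v = ∑ u v w, (M M) u v * M u w * M w v`, and
  `∑ v, (M M) u v * M w v = (M M M) u w`).
* `frob_bound`: `‖M X‖² ≤ card V * ∑ v, s v ^ 2`: `|(M X) u v| ≤ ∑ w, |M u w| * |X w v| ≤ s v`.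
* `tr_bound`: `∑ a b c d, |X a b| * |X b c| * |X c d|`-type sums are at most `∑ v, s v ^ 3`: sum over `a` and `d` first:
  `∑ b c, s b * |X b c| * s c ≤ ∑ b c, |X b c| * (s b ^ 2 + s c ^ 2) / 2 ≤ ∑ b, s b ^ 3` (`X` symmetric, `s ≥ 0`).
* `q4_step`.  `(M + X)(M + X) = M M + (M X + X M) + X X`, so
  `q4 (M + X) = ‖M M‖² + 2 ⟨M M, M X + X M⟩ + ‖M X + X M‖² + 2 ⟨M M, X X⟩ + 2 ⟨M X + X M, X X⟩ + ‖X X‖²`.
  (1) `⟨M M, M X⟩ = ⟨M M, X M⟩ = ⟨M M M, X⟩` (symmetric matrices).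
  (2) `‖M X + X M‖² ≤ 2 ‖M X‖² + 2 ‖X M‖² = 4 ‖M X‖²` (`X M` is the transpose of `M X`).
  (3) `⟨M M, X X⟩ = ‖M X‖²`.
  So (2) and (3) together contribute at most `6 ‖M X‖² ≤ 6 * card V * ∑ v, s v ^ 2`.
  (4) `⟨M X, X X⟩ = ⟨X M, X X⟩ = ∑ u v, M u v * (X X X) u v`, at most `∑ u v, |(X X X) u v| ≤ ∑ v, s v ^ 3`; contribution at most `4 * ∑ v, s v ^ 3`.
  (5) `‖X X‖² = ∑ a b c d, X a b * X b c * X c d * X d a ≤ ∑ v, s v ^ 3` (`|X d a| ≤ 1`).
-/

set_option autoImplicit false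

open Finset

namespace Pool.Agent.helper7.AQ

variable {V : Type} [Fintype V] [DecidableEq V]

/-- the inner product of two matrices -/
private def q4ip (Y Z : Matrix V V ℝ) : ℝ := ∑ u, ∑ v, Y u v * Z u v

private lemma q4ip_comm (Y Z : Matrix V V ℝ) : q4ip Y Z = q4ip Z Y :=
  sum_congr rfl fun _ _ => sum_congr rfl fun _ _ => mul_comm _ _

private lemma q4ip_add_left (Y Y' Z : Matrix V V ℝ) : q4ip (Y + Y') Z = q4ip Y Z + q4ip Y' Z := by
  simp only [q4ip, Matrix.add_apply, add_mul, sum_add_distrib]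

private lemma q4ip_add_right (Y Z Z' : Matrix V V ℝ) : q4ip Y (Z + Z') = q4ip Y Z + q4ip Y Z' := by
  simp only [q4ip, Matrix.add_apply, mul_add, sum_add_distrib]

private lemma q4ip_self_nonneg (Y : Matrix V V ℝ) : 0 ≤ q4ip Y Y :=
  sum_nonneg fun _ _ => sum_nonneg fun _ _ => mul_self_nonneg _

private lemma q4ip_transpose (Y Z : Matrix V V ℝ) : q4ip Y.transpose Z.transpose = q4ip Y Z := by
  simp only [q4ip, Matrix.transpose_apply]
  exact sum_comm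

private lemma q4ip_mul_right (A B C : Matrix V V ℝ) :
    q4ip (A * B) C = q4ip A (C * B.transpose) := by
  simp only [q4ip, Matrix.mul_apply, Matrix.transpose_apply, sum_mul, mul_sum]
  refine sum_congr rfl fun u _ => ?_
  rw [sum_comm]
  refine sum_congr rfl fun w _ => sum_congr rfl fun v _ => ?_
  ring

private lemma q4ip_mul_left (A B C : Matrix V V ℝ) :
    q4ip (A * B) C = q4ip B (A.transpose * C) := by
  rw [← q4ip_transpose, Matrix.transpose_mul, q4ip_mul_right, ← q4ip_transpose]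
  simp only [Matrix.transpose_mul, Matrix.transpose_transpose]

private lemma q4_eq_ip (M : Matrix V V ℝ) : q4 M = q4ip (M * M) (M * M) := by
  simp only [q4, q4ip, pow_two]

theorem q4_nonneg (M : Matrix V V ℝ) : 0 ≤ q4 M := by
  rw [q4_eq_ip]
  exact q4ip_self_nonneg _

theorem q4_eq (M : Matrix V V ℝ) (hM : M.IsSymm) :
    q4 M = ∑ u, ∑ v, (M * M * M) u v * M u v := by
  rw [q4_eq_ip, q4ip_mul_right, hM.eq, q4ip_comm]
  rfl

private lemma q4_s_nonneg {X : Matrix V V ℝ} {s : V → ℝ} (hs : ∀ v, ∑ u, |X u v| ≤ s v) (v : V) :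
    0 ≤ s v :=
  (sum_nonneg fun _ _ => abs_nonneg _).trans (hs v)

/-- `‖M X‖² ≤ card V * ∑ v, s v ^ 2` -/
private lemma q4_frob (M X : Matrix V V ℝ) (h1 : ∀ u v, |M u v| ≤ 1) (s : V → ℝ)
    (hs : ∀ v, ∑ u, |X u v| ≤ s v) :
    q4ip (M * X) (M * X) ≤ (Fintype.card V : ℝ) * ∑ v, s v ^ 2 := by
  have hb : ∀ u v, |(M * X) u v| ≤ s v := by
    intro u v
    rw [Matrix.mul_apply]
    refine (abs_sum_le_sum_abs _ _).trans ((sum_le_sum fun w _ => ?_).trans (hs v))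
    rw [abs_mul]
    exact mul_le_of_le_one_left (abs_nonneg _) (h1 u w)
  have h3 : q4ip (M * X) (M * X) ≤ ∑ _u : V, ∑ v, s v ^ 2 := by
    refine sum_le_sum fun u _ => sum_le_sum fun v _ => ?_
    rw [← pow_two, ← sq_abs]
    exact pow_le_pow_left₀ (abs_nonneg _) (hb u v) 2
  refine h3.trans (le_of_eq ?_)
  rw [sum_const, card_univ, nsmul_eq_mul]

/-- `∑ u v, |(X X X) u v| ≤ ∑ v, s v ^ 3` -/
private lemma q4_tr (X : Matrix V V ℝ) (hX : X.IsSymm) (s : V → ℝ)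
    (hs : ∀ v, ∑ u, |X u v| ≤ s v) :
    ∑ u, ∑ v, |(X * X * X) u v| ≤ ∑ v, s v ^ 3 := by
  have hs0 := q4_s_nonneg hs
  have hs' : ∀ v, ∑ u, |X v u| ≤ s v := by
    intro v
    refine le_trans (le_of_eq (sum_congr rfl fun u _ => ?_)) (hs v)
    rw [hX.apply]
  have e1 : ∑ u, ∑ v, |(X * X * X) u v| ≤
      ∑ u, ∑ v, ∑ c, ∑ b, |X u b| * |X b c| * |X c v| := by
    refine sum_le_sum fun u _ => sum_le_sum fun v _ => ?_
    rw [Matrix.mul_apply]
    refine (abs_sum_le_sum_abs _ _).trans (sum_le_sum fun c _ => ?_)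
    rw [abs_mul, Matrix.mul_apply, ← sum_mul]
    refine mul_le_mul_of_nonneg_right ?_ (abs_nonneg _)
    refine (abs_sum_le_sum_abs _ _).trans (sum_le_sum fun b _ => ?_)
    rw [abs_mul]
  have e2 : ∑ u, ∑ v, ∑ c, ∑ b, |X u b| * |X b c| * |X c v| =
      ∑ b, ∑ c, (∑ u, |X u b|) * |X b c| * (∑ v, |X c v|) := by
    have a1 : ∑ u, ∑ v, ∑ c, ∑ b, |X u b| * |X b c| * |X c v| =
        ∑ u, ∑ b, ∑ c, |X u b| * |X b c| * ∑ v, |X c v| := by
      refine sum_congr rfl fun u _ => ?_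
      rw [sum_comm]
      simp only [mul_sum]
      rw [sum_comm (s := univ) (t := univ) (f := fun b c => ∑ v, |X u b| * |X b c| * |X c v|)]
      refine sum_congr rfl fun c _ => ?_
      exact sum_comm
    rw [a1, sum_comm]
    refine sum_congr rfl fun b _ => ?_
    rw [sum_comm]
    refine sum_congr rfl fun c _ => ?_
    rw [sum_mul, sum_mul]
  have e3 : ∑ b, ∑ c, (∑ u, |X u b|) * |X b c| * (∑ v, |X c v|) ≤
      ∑ b, ∑ c, |X b c| * ((s b ^ 2 + s c ^ 2) / 2) := by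
    refine sum_le_sum fun b _ => sum_le_sum fun c _ => ?_
    have k1 : (∑ u, |X u b|) * |X b c| * (∑ v, |X c v|) ≤ s b * |X b c| * s c := by
      refine mul_le_mul ?_ (hs' c) (sum_nonneg fun _ _ => abs_nonneg _)
        (mul_nonneg (hs0 b) (abs_nonneg _))
      exact mul_le_mul_of_nonneg_right (hs b) (abs_nonneg _)
    have k2 : s b * s c ≤ (s b ^ 2 + s c ^ 2) / 2 := by nlinarith [sq_nonneg (s b - s c)]
    calc (∑ u, |X u b|) * |X b c| * (∑ v, |X c v|) ≤ s b * |X b c| * s c := k1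
      _ = |X b c| * (s b * s c) := by ring
      _ ≤ |X b c| * ((s b ^ 2 + s c ^ 2) / 2) := mul_le_mul_of_nonneg_left k2 (abs_nonneg _)
  have e4 : ∑ b, ∑ c, |X b c| * ((s b ^ 2 + s c ^ 2) / 2) =
      (∑ b, s b ^ 2 * ∑ c, |X b c|) / 2 + (∑ c, s c ^ 2 * ∑ b, |X b c|) / 2 := by
    have a1 : ∑ b, ∑ c, |X b c| * ((s b ^ 2 + s c ^ 2) / 2) =
        ∑ b, ∑ c, (s b ^ 2 * |X b c| / 2) + ∑ b, ∑ c, (s c ^ 2 * |X b c| / 2) := by
      rw [← sum_add_distrib]
      refine sum_congr rfl fun b _ => ?_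
      rw [← sum_add_distrib]
      refine sum_congr rfl fun c _ => ?_
      ring
    rw [a1, sum_comm (s := univ) (t := univ) (f := fun b c => s c ^ 2 * |X b c| / 2)]
    simp only [sum_div, mul_sum]
  have e5 : ∀ b, s b ^ 2 * ∑ c, |X b c| ≤ s b ^ 3 := by
    intro b
    calc s b ^ 2 * ∑ c, |X b c| ≤ s b ^ 2 * s b :=
          mul_le_mul_of_nonneg_left (hs' b) (sq_nonneg _)
      _ = s b ^ 3 := by ring
  have e6 : ∀ c, s c ^ 2 * ∑ b, |X b c| ≤ s c ^ 3 := by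
    intro c
    calc s c ^ 2 * ∑ b, |X b c| ≤ s c ^ 2 * s c :=
          mul_le_mul_of_nonneg_left (hs c) (sq_nonneg _)
      _ = s c ^ 3 := by ring
  have e7 := sum_le_sum fun b (_ : b ∈ (univ : Finset V)) => e5 b
  have e8 := sum_le_sum fun b (_ : b ∈ (univ : Finset V)) => e6 b
  linarith

/-- an inner product with a matrix with entries at most one -/
private lemma q4ip_le_abs (Y Z : Matrix V V ℝ) (h : ∀ u v, |Y u v| ≤ 1) :
    q4ip Y Z ≤ ∑ u, ∑ v, |Z u v| := by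
  refine sum_le_sum fun u _ => sum_le_sum fun v _ => ?_
  refine (le_abs_self _).trans ?_
  rw [abs_mul]
  exact mul_le_of_le_one_left (abs_nonneg _) (h u v)

theorem q4_step (M X : Matrix V V ℝ) (hM : M.IsSymm) (hX : X.IsSymm) (h1 : ∀ u v, |M u v| ≤ 1)
    (h2 : ∀ u v, |X u v| ≤ 1) (s : V → ℝ) (hs : ∀ v, ∑ u, |X u v| ≤ s v) :
    q4 (M + X) ≤ q4 M + 4 * ∑ u, ∑ v, (M * M * M) u v * X u v +
      6 * (Fintype.card V : ℝ) * ∑ v, s v ^ 2 + 5 * ∑ v, s v ^ 3 := by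
  have hsq : (M + X) * (M + X) = M * M + (M * X + X * M) + X * X := by
    rw [add_mul, mul_add, mul_add]
    abel
  set A := M * M with hA
  set B := M * X with hB
  set D := X * X with hD
  set S3 := X * X * X with hS3
  have hC : X * M = B.transpose := by
    rw [hB, Matrix.transpose_mul, hM.eq, hX.eq]
  have hS := q4_tr X hX s hs
  have hF := q4_frob M X h1 s hs
  -- the six terms
  have t1 : q4ip A B = q4ip (M * M * M) X := by
    rw [q4ip_comm, hB, q4ip_mul_left, hM.eq, q4ip_comm, hA, Matrix.mul_assoc]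
  have t1' : q4ip A (X * M) = q4ip (M * M * M) X := by
    rw [q4ip_comm, q4ip_mul_right, hM.eq, q4ip_comm, hA]
  have t2 : q4ip (X * M) (X * M) = q4ip B B := by
    rw [hC, q4ip_transpose]
  have t2' : q4ip (B + X * M) (B + X * M) ≤ 4 * q4ip B B := by
    have h := q4ip_self_nonneg (B - X * M)
    have e : ∀ Y Z : Matrix V V ℝ, q4ip (Y - Z) (Y - Z) + q4ip (Y + Z) (Y + Z) =
        2 * q4ip Y Y + 2 * q4ip Z Z := by
      intro Y Z
      simp only [q4ip, Matrix.sub_apply, Matrix.add_apply, mul_sum, ← sum_add_distrib]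
      refine sum_congr rfl fun u _ => sum_congr rfl fun v _ => ?_
      ring
    have h' := e B (X * M)
    rw [t2] at h'
    linarith
  have t3 : q4ip A D = q4ip B B := by
    rw [hA, q4ip_mul_left, hM.eq, hB, q4ip_mul_right, hX.eq, hD, Matrix.mul_assoc]
  have t4 : q4ip B D = q4ip M S3 := by
    rw [hB, q4ip_mul_right, hX.eq]
  have t4' : q4ip (X * M) D = q4ip M S3 := by
    rw [q4ip_mul_left, hX.eq, hS3, hD, Matrix.mul_assoc]
  have t5 : q4ip D D = q4ip X S3 := by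
    rw [hD, q4ip_mul_right, hX.eq]
  have u4 : q4ip M S3 ≤ ∑ v, s v ^ 3 := (q4ip_le_abs M S3 h1).trans hS
  have u5 : q4ip X S3 ≤ ∑ v, s v ^ 3 := (q4ip_le_abs X S3 h2).trans hS
  have hq : q4 (M + X) = q4ip A A + 2 * q4ip A B + 2 * q4ip A (X * M) +
      q4ip (B + X * M) (B + X * M) + 2 * q4ip A D + 2 * q4ip B D + 2 * q4ip (X * M) D +
      q4ip D D := by
    rw [q4_eq_ip, hsq]
    simp only [q4ip_add_left, q4ip_add_right]
    rw [q4ip_comm D A, q4ip_comm D B, q4ip_comm D (X * M), q4ip_comm B A, q4ip_comm (X * M) A]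
    ring
  have hM3 : q4ip (M * M * M) X = ∑ u, ∑ v, (M * M * M) u v * X u v := rfl
  rw [hq, q4_eq_ip M, ← hA, t1, t1', t3, t4, t4', t5, ← hM3]
  nlinarith [t2', hF, u4, u5]

end Pool.Agent.helper7.AQ
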