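import Pool.Agent.helper7.AQ.Defs

/-!
# AQ-Quad: quadratic forms and the number of edges in a vertex set (proofs: helper51)

* `quad`: let `y = M x` (`Matrix.mulVec`), `z = M y`.  Cauchy-Schwarz (`Finset.sum_mul_sq_le_sq_mul_sq`) three times:
  `(x · M x) ^ 2 ≤ |x|² |y|²`; `|y|² = x · M M x = x · z`, so `(|y|²) ^ 2 ≤ |x|² |z|²`; `z = (M M) x`, `|z|² ≤ |x|² * q4 M` (row by row Cauchy-Schwarz).  So
  `(x · M x) ^ 4 ≤ |x|⁴ (|y|²) ^ 2 ≤ |x|⁶ |z|² ≤ |x|⁸ q4 M`, where `|x|² = ∑ (x u) ^ 2`.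
* `mx_symm`: `s(u, v) = s(v, u)`.  `mx_abs`: the entries are `0` (diagonal, `G` has no diagonal elements), `1 - N / n` or `- N / n` with `0 ≤ N / n ≤ 1`.
* `sum_adj`: `∑ u ∈ A, ∑ v ∈ A, adj G u v = 2 * |inA G A|` (every non-diagonal `e` inside `A` comes from two ordered pairs).
* `inA_le`: `quad` for `x` = indicator of `A`: `x · M x = 2 |inA G A| - (N / n) * a (a - 1)`, `|x|² = a`; so its fourth power is at most `a ^ 4 * τ ^ 4`, and
  `2 |inA G A| - (N / n) a (a - 1) ≤ a τ` (`pow_le_pow_left` / `abs_le_of_pow_le_pow`).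
-/

set_option autoImplicit false

open Finset

namespace Pool.Agent.helper7.AQ

variable {V : Type} [Fintype V] [DecidableEq V]

private lemma quad_cs (a b : V → ℝ) : (∑ u, a u * b u) ^ 2 ≤ (∑ u, a u ^ 2) * ∑ u, b u ^ 2 :=
  Finset.sum_mul_sq_le_sq_mul_sq _ _ _

theorem quad (M : Matrix V V ℝ) (hM : M.IsSymm) (x : V → ℝ) :
    (∑ u, ∑ v, x u * M u v * x v) ^ 4 ≤ (∑ u, x u ^ 2) ^ 4 * q4 M := by
  set y : V → ℝ := M.mulVec x with hy
  set z : V → ℝ := M.mulVec y with hz
  set a : ℝ := ∑ u, x u ^ 2 with ha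
  have ha0 : 0 ≤ a := Finset.sum_nonneg fun u _ => sq_nonneg _
  have e1 : ∑ u, ∑ v, x u * M u v * x v = ∑ u, x u * y u := by
    refine Finset.sum_congr rfl fun u _ => ?_
    rw [hy, Matrix.mulVec, dotProduct, Finset.mul_sum]
    exact Finset.sum_congr rfl fun v _ => by ring
  have h1 : (∑ u, x u * y u) ^ 2 ≤ a * ∑ u, y u ^ 2 := quad_cs x y
  have e2 : ∑ u, y u ^ 2 = ∑ u, x u * z u := by
    have s1 : ∑ u, y u ^ 2 = ∑ u, ∑ v, y u * (M u v * x v) := by
      refine Finset.sum_congr rfl fun u _ => ?_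
      rw [sq]
      conv_lhs => rw [hy]
      rw [← hy, ← Finset.mul_sum]
      rfl
    have s2 : ∑ u, x u * z u = ∑ u, ∑ v, x u * (M u v * y v) := by
      refine Finset.sum_congr rfl fun u _ => ?_
      rw [← Finset.mul_sum]
      rfl
    rw [s1, s2, Finset.sum_comm]
    refine Finset.sum_congr rfl fun u _ => Finset.sum_congr rfl fun v _ => ?_
    have : M v u = M u v := hM.apply u v
    rw [this]; ring
  have h2 : (∑ u, y u ^ 2) ^ 2 ≤ a * ∑ u, z u ^ 2 := by
    rw [e2]; exact quad_cs x z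
  have h3 : ∑ u, z u ^ 2 ≤ a * q4 M := by
    have s1 : ∀ u, z u = ∑ v, (M * M) u v * x v := by
      intro u
      have : z = (M * M).mulVec x := by rw [hz, hy, Matrix.mulVec_mulVec]
      rw [this]; rfl
    rw [q4, mul_comm, Finset.sum_mul]
    refine Finset.sum_le_sum fun u _ => ?_
    rw [s1 u]
    exact quad_cs _ _
  have hy0 : 0 ≤ ∑ u, y u ^ 2 := Finset.sum_nonneg fun u _ => sq_nonneg _
  rw [e1]
  calc (∑ u, x u * y u) ^ 4 = ((∑ u, x u * y u) ^ 2) ^ 2 := by ring
    _ ≤ (a * ∑ u, y u ^ 2) ^ 2 := pow_le_pow_left₀ (sq_nonneg _) h1 2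
    _ = a ^ 2 * (∑ u, y u ^ 2) ^ 2 := by ring
    _ ≤ a ^ 2 * (a * ∑ u, z u ^ 2) := mul_le_mul_of_nonneg_left h2 (by positivity)
    _ = a ^ 3 * ∑ u, z u ^ 2 := by ring
    _ ≤ a ^ 3 * (a * q4 M) := mul_le_mul_of_nonneg_left h3 (by positivity)
    _ = a ^ 4 * q4 M := by ring

theorem mx_symm (n N : ℕ) (G : Finset (Sym2 V)) : (Mx n N G).IsSymm := by
  refine Matrix.IsSymm.ext fun u v => ?_
  have h1 : adj G v u = adj G u v := by
    unfold adj
    rw [Sym2.eq_swap]
  have h2 : off V v u = off V u v := by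
    unfold off
    by_cases h : u = v
    · rw [if_pos h, if_pos h.symm]
    · rw [if_neg h, if_neg (Ne.symm h)]
  simp only [Mx, Matrix.sub_apply, Matrix.smul_apply]
  rw [h1, h2]

theorem mx_abs (n N : ℕ) (hn : 0 < n) (hN : N ≤ n) (G : Finset (Sym2 V))
    (hG : ∀ e ∈ G, ¬ e.IsDiag) (u v : V) : |Mx n N G u v| ≤ 1 := by
  have hn' : (0 : ℝ) < n := by exact_mod_cast hn
  have hN' : (N : ℝ) ≤ n := by exact_mod_cast hN
  have hq0 : 0 ≤ (N : ℝ) / n := by positivity
  have hq1 : (N : ℝ) / n ≤ 1 := (div_le_one hn').2 hN'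
  simp only [Mx, Matrix.sub_apply, Matrix.smul_apply, smul_eq_mul]
  by_cases h : u = v
  · subst h
    have h1 : s(u, u) ∉ G := fun h => hG _ h (Sym2.mk_isDiag_iff.2 rfl)
    simp [adj, off, h1]
  · by_cases h1 : s(u, v) ∈ G
    · simp only [adj, off, h1, h, if_true, if_false, mul_one]
      rw [abs_le]; constructor <;> linarith
    · simp only [adj, off, h1, h, if_false, mul_one]
      rw [abs_le]; constructor <;> linarith

theorem sum_adj (G : Finset (Sym2 V)) (hG : ∀ e ∈ G, ¬ e.IsDiag) (A : Finset V) :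
    ∑ u ∈ A, ∑ v ∈ A, adj G u v = 2 * ((inA G A).card : ℝ) := by
  classical
  have h1 : ∑ u ∈ A, ∑ v ∈ A, adj G u v =
      (((A ×ˢ A).filter fun p : V × V => s(p.1, p.2) ∈ G).card : ℝ) := by
    rw [← Finset.sum_product', Finset.card_filter]
    push_cast
    refine Finset.sum_congr rfl fun p _ => ?_
    unfold adj
    by_cases h : s(p.1, p.2) ∈ G
    · simp only [h, if_true]
    · simp only [h, if_false]
  have h2 : ((A ×ˢ A).filter fun p : V × V => s(p.1, p.2) ∈ G).card = 2 * (inA G A).card := by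
    rw [Finset.card_eq_sum_card_fiberwise (f := fun p : V × V => s(p.1, p.2)) (t := inA G A)]
    · rw [mul_comm, ← smul_eq_mul, ← Finset.sum_const]
      refine Finset.sum_congr rfl fun e he => ?_
      induction e using Sym2.ind with
      | _ a b =>
        have he' := he
        simp only [inA, Finset.mem_filter, Sym2.mem_iff, forall_eq_or_imp, forall_eq] at he'
        obtain ⟨heG, ha, hb⟩ := he'
        have hab : a ≠ b := fun h => hG _ heG (Sym2.mk_isDiag_iff.2 h)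
        have h3 : (((A ×ˢ A).filter fun p : V × V => s(p.1, p.2) ∈ G).filter
            fun p : V × V => s(p.1, p.2) = s(a, b)) = {(a, b), (b, a)} := by
          ext ⟨c, d⟩
          simp only [Finset.mem_filter, Finset.mem_product, Finset.mem_insert,
            Finset.mem_singleton, Prod.mk.injEq]
          constructor
          · rintro ⟨-, h⟩
            exact Sym2.eq_iff.1 h
          · rintro (⟨rfl, rfl⟩ | ⟨rfl, rfl⟩)
            · exact ⟨⟨⟨ha, hb⟩, heG⟩, rfl⟩
            · exact ⟨⟨⟨hb, ha⟩, by rw [Sym2.eq_swap]; exact heG⟩, Sym2.eq_swap⟩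
        rw [h3, Finset.card_pair]
        intro h
        exact hab (Prod.mk.inj h).1
    · intro p hp
      have hp' := Finset.mem_filter.1 (Finset.mem_coe.1 hp)
      have hp2 := Finset.mem_product.1 hp'.1
      simp only [inA, Finset.coe_filter, Set.mem_ofPred_eq, Sym2.mem_iff, forall_eq_or_imp,
        forall_eq]
      exact ⟨hp'.2, hp2.1, hp2.2⟩
  rw [h1, h2]
  push_cast
  ring

theorem inA_le (n N : ℕ) (G : Finset (Sym2 V)) (hG : ∀ e ∈ G, ¬ e.IsDiag) (τ : ℝ) (hτ : 0 ≤ τ)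
    (hq : q4 (Mx n N G) ≤ τ ^ 4) (A : Finset V) :
    2 * ((inA G A).card : ℝ) ≤ (N : ℝ) / n * (A.card * (A.card - 1)) + A.card * τ := by
  classical
  set x : V → ℝ := fun u => if u ∈ A then 1 else 0 with hx
  set a : ℝ := (A.card : ℝ) with ha
  have h0 := quad (Mx n N G) (mx_symm n N G) x
  have e1 : ∑ u, x u ^ 2 = a := by
    simp [hx, ha]
  have e2 : ∑ u, ∑ v, x u * Mx n N G u v * x v = ∑ u ∈ A, ∑ v ∈ A, Mx n N G u v := by
    simp only [hx, ite_mul, mul_ite, one_mul, mul_one, zero_mul, mul_zero]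
    simp [Finset.sum_ite_mem]
  have e3 : ∑ u ∈ A, ∑ v ∈ A, off V u v = a * (a - 1) := by
    have : ∀ u ∈ A, ∑ v ∈ A, off V u v = a - 1 := by
      intro u hu
      have h1 : ∀ v, off V u v = 1 - (if u = v then (1 : ℝ) else 0) := by
        intro v
        unfold off
        by_cases h : u = v
        · rw [if_pos h, if_pos h]; ring
        · rw [if_neg h, if_neg h]; ring
      rw [Finset.sum_congr rfl fun v _ => h1 v, Finset.sum_sub_distrib]
      simp [hu, ha]
    rw [Finset.sum_congr rfl this, Finset.sum_const, nsmul_eq_mul]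
  have e4 : ∑ u ∈ A, ∑ v ∈ A, Mx n N G u v =
      2 * ((inA G A).card : ℝ) - (N : ℝ) / n * (a * (a - 1)) := by
    rw [← sum_adj G hG A, ← e3, Finset.mul_sum, ← Finset.sum_sub_distrib]
    refine Finset.sum_congr rfl fun u _ => ?_
    rw [Finset.mul_sum, ← Finset.sum_sub_distrib]
    exact Finset.sum_congr rfl fun v _ => rfl
  rw [e1, e2, e4] at h0
  have ha0 : 0 ≤ a := Nat.cast_nonneg _
  have h1 : (2 * ((inA G A).card : ℝ) - (N : ℝ) / n * (a * (a - 1))) ^ 4 ≤ (a * τ) ^ 4 := by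
    rw [mul_pow]
    exact h0.trans (mul_le_mul_of_nonneg_left hq (by positivity))
  have h2 : 2 * ((inA G A).card : ℝ) - (N : ℝ) / n * (a * (a - 1)) ≤ a * τ := by
    by_contra h
    rw [not_le] at h
    exact absurd h1 (not_le.2 (pow_lt_pow_left₀ h (by positivity) (by norm_num)))
  linarith

end Pool.Agent.helper7.AQ
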