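import Pool.Agent.helper7.AQ.Quad

/-!
# AQ-Robust: the state is robust

Let `|V| = 2 n`, `|G| = N (2 n - 1)`, `a = |A|`, `b = 2 n - a`, `e(A) = |inA G A|`, `θ = 1 / 8`, `τ = N / 8`.  By `inA_le`:
`e(A) / N ≤ a (a - 1) / (2 n) + a / 16`, so `(a - 1) - e(A) / N ≥ (a - 1) (1 - a / (2 n)) - a / 16`.    (1)
* `robust_small`: `2 ≤ a ≤ n`: `1 - a / (2 n) ≥ 1 / 2` and `a ≤ 2 (a - 1)`: (1) is at least `(a - 1) / 2 - (a - 1) / 8 ≥ (a - 1) / 8`.
* `robust_large`: `n < a < 2 n`.  If `a ≤ 3 n / 2`: `1 - a / (2 n) ≥ 1 / 4`, (1) is at least `(a - 1) / 4 - (a - 1) / 8 = (a - 1) / 8 ≥ b / 8`.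
  If `a > 3 n / 2`, i.e. `b < n / 2`: let `B = Aᶜ`, `|B| = b`.  The edges of `G` which are not inside `A` are the edges with an end in `B`; their number is
  `∑ v ∈ B, |atV G v| - |inA G B|` (an edge inside `B` is counted twice, an edge with one end in `B` once)
  `≥ b * 29 N / 16 - N * (b (b - 1) / (2 n) + b / 16) ≥ b N (29 / 16 - 1 / 4 - 1 / 16) = b N * 3 / 2`.  So
  `e(A) ≤ N (2 n - 1) - 3 / 2 * b N = N (a - 1) - b N / 2 ≤ N (a - 1) - b N / 8`.
* `robust_all` (for the Nash-Williams theorem): `|A| = 1`: no edges; `2 ≤ a ≤ n`, `n < a < 2 n`: the two cases above; `a = 2 n`: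
  `|inA G A| = |G| = N (2 n - 1)`.
-/

set_option autoImplicit false

open Finset

namespace Pool.Agent.helper7.AQ

variable {V K : Type} [Fintype V] [DecidableEq V] {n N : ℕ} {κ : Sym2 V → K}
  {G : Finset (Sym2 V)}

theorem robust_small (hn : 0 < n) (hNn : N ≤ n) (hV : Fintype.card V = 2 * n)
    (h : St n N κ G) (hq : q4 (Mx n N G) ≤ ((N : ℝ) / 8) ^ 4) (A : Finset V) (h2 : 2 ≤ A.card)
    (hA : A.card ≤ n) : 8 * (inA G A).card ≤ 7 * N * (A.card - 1) := by
  have hN0 : (0 : ℝ) ≤ N := Nat.cast_nonneg N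
  have key := inA_le n N G h.nd ((N : ℝ) / 8) (by positivity) hq A
  have hn' : (0 : ℝ) < n := by exact_mod_cast hn
  have ha2 : (2 : ℝ) ≤ A.card := by exact_mod_cast h2
  have han : (A.card : ℝ) ≤ n := by exact_mod_cast hA
  have h1 : (N : ℝ) / n * (A.card * (A.card - 1)) ≤ N * (A.card - 1) := by
    rw [div_mul_eq_mul_div, div_le_iff₀ hn']
    have : (A.card : ℝ) * (A.card - 1) ≤ n * (A.card - 1) :=
      mul_le_mul_of_nonneg_right han (by linarith)
    nlinarith
  have h3 : (A.card : ℝ) * (N / 8) ≤ N * (A.card - 1) / 4 := by nlinarith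
  have h4 : 8 * ((inA G A).card : ℝ) ≤ 7 * N * (A.card - 1) := by nlinarith
  have h5 : ((8 * (inA G A).card : ℕ) : ℝ) ≤ ((7 * N * (A.card - 1) : ℕ) : ℝ) := by
    rw [Nat.cast_mul, Nat.cast_mul, Nat.cast_mul, Nat.cast_sub (by omega)]
    push_cast
    linarith
  exact_mod_cast h5

/-- double counting of the edges at the vertices outside `A` -/
theorem sum_atV_le (G : Finset (Sym2 V)) (hG : ∀ e ∈ G, ¬ e.IsDiag) (A : Finset V) :
    ∑ v ∈ Aᶜ, (atV G v).card + (inA G A).card ≤ G.card + (inA G Aᶜ).card := by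
  classical
  have h1 : ∑ v ∈ Aᶜ, (atV G v).card = ∑ e ∈ G, (Aᶜ.filter fun v => v ∈ e).card := by
    simp only [atV, Finset.card_filter]
    rw [Finset.sum_comm]
  have h2 : (inA G A).card = ∑ e ∈ G, if (∀ v ∈ e, v ∈ A) then 1 else 0 := by
    rw [inA, Finset.card_filter]
  have h3 : (inA G Aᶜ).card = ∑ e ∈ G, if (∀ v ∈ e, v ∈ Aᶜ) then 1 else 0 := by
    rw [inA, Finset.card_filter]
  have h4 : G.card = ∑ _e ∈ G, 1 := by simp
  rw [h1, h2, h3, h4, ← Finset.sum_add_distrib, ← Finset.sum_add_distrib]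
  refine Finset.sum_le_sum ?_
  intro e he
  induction e using Sym2.ind with
  | _ x y =>
    have hxy : x ≠ y := by
      have := hG _ he
      simpa using this
    have h5 : (Aᶜ.filter fun v => v ∈ s(x, y)) = ({x, y} : Finset V).filter fun v => v ∈ Aᶜ := by
      ext v
      simp only [Finset.mem_filter, Sym2.mem_iff, Finset.mem_insert, Finset.mem_singleton]
      tauto
    rw [h5, Finset.card_filter, Finset.sum_pair hxy]
    simp only [Sym2.mem_iff, forall_eq_or_imp, forall_eq, Finset.mem_compl]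
    by_cases hx : x ∈ A <;> by_cases hy : y ∈ A <;> simp [hx, hy]

theorem robust_large (hn : 0 < n) (hNn : N ≤ n) (hV : Fintype.card V = 2 * n)
    (h : St n N κ G) (hq : q4 (Mx n N G) ≤ ((N : ℝ) / 8) ^ 4)
    (hd : ∀ v, 29 * N ≤ 16 * (atV G v).card) (A : Finset V) (h1 : n < A.card)
    (h2 : A.card < 2 * n) : 8 * (inA G A).card + N * (2 * n - A.card) ≤ 8 * N * (A.card - 1) := by
  have hN0 : (0 : ℝ) ≤ N := Nat.cast_nonneg N
  have hn' : (0 : ℝ) < n := by exact_mod_cast hn
  have h1' : (n : ℝ) + 1 ≤ A.card := by exact_mod_cast h1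
  have hn1 : (1 : ℝ) ≤ n := by exact_mod_cast hn
  have h2' : (A.card : ℝ) + 1 ≤ 2 * n := by exact_mod_cast h2
  have goalR : 8 * ((inA G A).card : ℝ) + N * (2 * n - A.card) ≤ 8 * N * (A.card - 1) := by
    rcases le_or_gt (2 * A.card) (3 * n) with hc | hc
    · have hc' : 2 * (A.card : ℝ) ≤ 3 * n := by exact_mod_cast hc
      have key := inA_le n N G h.nd ((N : ℝ) / 8) (by positivity) hq A
      have h3 : (N : ℝ) / n * (A.card * (A.card - 1)) ≤ 3 / 2 * N * (A.card - 1) := by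
        rw [div_mul_eq_mul_div, div_le_iff₀ hn']
        have : (A.card : ℝ) * (A.card - 1) ≤ 3 / 2 * n * (A.card - 1) :=
          mul_le_mul_of_nonneg_right (by linarith) (by linarith)
        nlinarith
      have h4 : (A.card : ℝ) * (N / 8) ≤ N * (A.card - 1) / 4 := by nlinarith
      have h5 : (N : ℝ) * (2 * n - A.card) ≤ N * (A.card - 1) :=
        mul_le_mul_of_nonneg_left (by linarith) hN0
      nlinarith
    · have hc' : 3 * (n : ℝ) + 1 ≤ 2 * A.card := by exact_mod_cast hc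
      have hB : Aᶜ.card = 2 * n - A.card := by
        rw [Finset.card_compl, hV]
      have hB' : ((Aᶜ.card : ℕ) : ℝ) = 2 * n - A.card := by
        rw [hB, Nat.cast_sub (by omega)]
        push_cast
        ring
      have key := inA_le n N G h.nd ((N : ℝ) / 8) (by positivity) hq Aᶜ
      have hb1 : (1 : ℝ) ≤ ((Aᶜ.card : ℕ) : ℝ) := by rw [hB']; linarith
      have hb2 : ((Aᶜ.card : ℕ) : ℝ) ≤ n / 2 := by rw [hB']; linarith
      have h3 : (N : ℝ) / n * ((Aᶜ.card : ℕ) * ((Aᶜ.card : ℕ) - 1 : ℝ))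
          ≤ N * ((Aᶜ.card : ℕ) : ℝ) / 2 := by
        rw [div_mul_eq_mul_div, div_le_iff₀ hn']
        have : (N * ((Aᶜ.card : ℕ) : ℝ)) * (((Aᶜ.card : ℕ) : ℝ) - 1)
            ≤ (N * ((Aᶜ.card : ℕ) : ℝ)) * (n / 2) :=
          mul_le_mul_of_nonneg_left (by linarith) (by positivity)
        nlinarith
      have h4 := sum_atV_le G h.nd A
      have h5 : (29 * N) * Aᶜ.card ≤ 16 * ∑ v ∈ Aᶜ, (atV G v).card := by
        rw [Finset.mul_sum]
        calc (29 * N) * Aᶜ.card = ∑ _v ∈ Aᶜ, 29 * N := by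
              rw [Finset.sum_const, smul_eq_mul, mul_comm]
          _ ≤ _ := Finset.sum_le_sum fun v _ => hd v
      rw [h.card] at h4
      have h4' : (((∑ v ∈ Aᶜ, (atV G v).card) + (inA G A).card : ℕ) : ℝ)
          ≤ ((N * (2 * n - 1) + (inA G Aᶜ).card : ℕ) : ℝ) := by exact_mod_cast h4
      have h5' : (((29 * N) * Aᶜ.card : ℕ) : ℝ)
          ≤ ((16 * ∑ v ∈ Aᶜ, (atV G v).card : ℕ) : ℝ) := by exact_mod_cast h5
      rw [Nat.cast_add, Nat.cast_add, Nat.cast_mul, Nat.cast_sub (by omega)] at h4'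
      rw [Nat.cast_mul, Nat.cast_mul, Nat.cast_mul] at h5'
      push_cast at h4' h5'
      have h6 : ((Aᶜ.card : ℕ) : ℝ) * ((N : ℝ) / 8) = N * ((Aᶜ.card : ℕ) : ℝ) / 8 := by ring
      rw [h6] at key
      set b : ℝ := ((Aᶜ.card : ℕ) : ℝ) with hbdef
      have hNb : 0 ≤ (N : ℝ) * b := by positivity
      have hAb : (A.card : ℝ) = 2 * n - b := by rw [hB']; ring
      rw [hAb]
      set Sg : ℝ := ∑ v ∈ Aᶜ, ((atV G v).card : ℝ) with hSg
      nlinarith
  have h5 : ((8 * (inA G A).card + N * (2 * n - A.card) : ℕ) : ℝ)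
      ≤ ((8 * N * (A.card - 1) : ℕ) : ℝ) := by
    rw [Nat.cast_add, Nat.cast_mul, Nat.cast_mul, Nat.cast_sub (by omega), Nat.cast_mul,
      Nat.cast_mul, Nat.cast_sub (by omega)]
    push_cast
    linarith
  exact_mod_cast h5

theorem robust_all (hn : 0 < n) (hNn : N ≤ n) (hV : Fintype.card V = 2 * n)
    (h : St n N κ G) (hq : q4 (Mx n N G) ≤ ((N : ℝ) / 8) ^ 4)
    (hd : ∀ v, 29 * N ≤ 16 * (atV G v).card) (A : Finset V) (hA : A.Nonempty) :
    (inA G A).card ≤ N * (A.card - 1) := by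
  classical
  have hpos := hA.card_pos
  have hle : A.card ≤ 2 * n := by
    rw [← hV]
    exact Finset.card_le_univ A
  rcases Nat.lt_or_ge A.card 2 with h2 | h2
  · have h1 : A.card = 1 := by omega
    obtain ⟨a, ha⟩ := Finset.card_eq_one.1 h1
    have h3 : inA G A = ∅ := by
      rw [Finset.eq_empty_iff_forall_notMem]
      intro e he
      rw [inA, Finset.mem_filter] at he
      obtain ⟨heG, hin⟩ := he
      revert heG hin
      induction e using Sym2.ind with
      | _ x y =>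
        intro heG hin
        have hx := hin x (Sym2.mem_mk_left x y)
        have hy := hin y (Sym2.mem_mk_right x y)
        rw [ha, Finset.mem_singleton] at hx hy
        apply h.nd _ heG
        rw [hx, hy]
        simp
    rw [h3]
    simp
  · rcases Nat.lt_or_ge n A.card with h3 | h3
    · rcases Nat.lt_or_ge A.card (2 * n) with h4 | h4
      · have := robust_large hn hNn hV h hq hd A h3 h4
        have h5 : 8 * N * (A.card - 1) = 8 * (N * (A.card - 1)) := by ring
        rw [h5] at this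
        omega
      · have h5 : A.card = 2 * n := le_antisymm hle h4
        rw [h5, ← h.card]
        exact Finset.card_le_card (Finset.filter_subset _ _)
    · have := robust_small hn hNn hV h hq A h2 h3
      have h5 : 7 * N * (A.card - 1) = 7 * (N * (A.card - 1)) := by ring
      rw [h5] at this
      omega

end Pool.Agent.helper7.AQ
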