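import Pool.Agent.helper7.AQ.Ev

/-!
# AQ-SampA: the constraints for the vertex sets

Let `|V| = 2 n`, `|G| = N * (2 n - 1)`, no diagonal elements; `a = |A|`, `b = 2 n - a`.
* `inA_card_le`: the edges of `G` inside `A` are non-diagonal pairs of elements of `A`: at most `a * (a - 1) / 2`.
  `touch_card_le`: every edge of `G` which is not inside `A` contains a vertex `v ∉ A`, and every vertex is in at most `2 n` edges.
* `bad_small`: `ev_up` with `S = inA G A`, `D = a (a - 1) / 2`, `t = (a - 1) / 8`: `|S| / N + t ≤ 7 / 8 * (a - 1) + (a - 1) / 8 = a - 1`;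
  the sum of `xs` over `inA univ A` is the sum over `S` (`xs = 0` outside of `G`); the exponent is
  `((a - 1) / 8) ^ 2 N ^ 2 / (16 g ^ 2 a (a - 1) / 2) = (a - 1) N ^ 2 / (512 g ^ 2 a) ≥ N ^ 2 / (1024 g ^ 2)` for `a ≥ 2`.
* `bad_large`: `ev_low` with `S = G \ inA G A`, `D = 2 n b`, `t = b / 8`: `|S| = N (2 n - 1) - |inA G A| ≥ N (b + b / 8)` by `hla`; if the sum over
  `inA univ A` is larger than `a - 1` then, as the total is `|G| / N = 2 n - 1` (`xs_tot`), the sum over `S` is less than
  `2 n - a = b ≤ |S| / N - b / 8`.  The exponent is `(b / 8) ^ 2 N ^ 2 / (16 g ^ 2 * 2 n b) = b N ^ 2 / (2048 n g ^ 2)`.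
* `bad_sets`: for `a = 1` and `a = 2 n` the constraint always holds (no edges of `G`; total `2 n - 1`).  Union bound (`Finset.card_biUnion_le`):
  the small `A`: at most `2 ^ (2 n)` sets, total at most `|Om| / 8` by `p1`; the large `A` with `2 n - |A| = b`: at most
  `(2 n).choose b ≤ (2 n) ^ b` sets, total at most `|Om| * ∑ b ≥ 1, (2 n * exp (-(N ^ 2 / (2048 n g ^ 2)))) ^ b ≤ |Om| * ∑ b ≥ 1, (1 / 16) ^ b ≤ |Om| / 8`
  by `p2`.
-/

set_option autoImplicit false

open Finset
open scoped Classical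

namespace Pool.Agent.helper7.AQ

variable {V K : Type} [Fintype V] [DecidableEq V] {G : Finset (Sym2 V)} {m : ℕ}
  {cl : Sym2 V → Fin m} {n N g : ℕ} {κ : Sym2 V → K}

theorem inA_card_le (hG : ∀ e ∈ G, ¬ e.IsDiag) (A : Finset V) :
    2 * (inA G A).card ≤ A.card * (A.card - 1) := by
  have hsub : inA G A ⊆ A.offDiag.image (Quot.mk _ : V × V → Sym2 V) := by
    intro e he
    unfold inA at he
    rw [mem_filter] at he
    induction e with
    | _ x y =>
      have hx : x ∈ A := he.2 x (Sym2.mem_mk_left x y)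
      have hy : y ∈ A := he.2 y (Sym2.mem_mk_right x y)
      have hxy : x ≠ y := fun h => hG _ he.1 (by rw [Sym2.mk_isDiag_iff]; exact h)
      rw [mem_image]
      exact ⟨(x, y), mem_offDiag.2 ⟨hx, hy, hxy⟩, rfl⟩
  have h1 := card_le_card hsub
  have h2 : (A.offDiag.image (Quot.mk _ : V × V → Sym2 V)).card = A.card.choose 2 := by
    have := Sym2.card_image_offDiag A
    exact this
  rw [h2, Nat.choose_two_right] at h1
  have h3 := Nat.mul_div_le (A.card * (A.card - 1)) 2
  omega

theorem touch_card_le (hV : Fintype.card V = 2 * n) (A : Finset V) :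
    (G \ inA G A).card ≤ 2 * n * (2 * n - A.card) := by
  have hsub : G \ inA G A ⊆ (univ \ A).biUnion fun v => univ.image fun u => s(v, u) := by
    intro e he
    rw [mem_sdiff] at he
    obtain ⟨heG, heA⟩ := he
    unfold inA at heA
    rw [mem_filter] at heA
    have : ∃ v ∈ e, v ∉ A := by
      by_contra hcon
      push Not at hcon
      exact heA ⟨heG, hcon⟩
    obtain ⟨v, hv, hvA⟩ := this
    obtain ⟨u, rfl⟩ := Sym2.mem_iff_exists.1 hv
    rw [mem_biUnion]
    exact ⟨v, mem_sdiff.2 ⟨mem_univ _, hvA⟩, mem_image.2 ⟨u, mem_univ _, rfl⟩⟩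
  refine (card_le_card hsub).trans ?_
  refine (card_biUnion_le_card_mul _ _ (2 * n) ?_).trans ?_
  · intro v _
    refine card_image_le.trans ?_
    rw [card_univ, hV]
  · rw [card_sdiff_of_subset (subset_univ _), card_univ, hV, mul_comm]

theorem sampA_sum_inA (ω : Fin m → Sym2 V) (A : Finset V) :
    ∑ e ∈ inA univ A, xs G cl N ω e = ∑ e ∈ inA G A, xs G cl N ω e := by
  symm
  refine sum_subset ?_ ?_
  · intro e he
    unfold inA at he ⊢
    rw [mem_filter] at he ⊢
    exact ⟨mem_univ _, he.2⟩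
  · intro e he he'
    unfold inA at he he'
    rw [mem_filter] at he he'
    have : e ∉ G := fun h => he' ⟨h, he.2⟩
    unfold xs
    rw [if_neg (fun h => this h.1)]

theorem bad_small (hG : ∀ e ∈ G, ¬ e.IsDiag) (h : Cell G κ m cl g) (hN : 0 < N) (hg : 0 < g)
    (A : Finset V) (h2 : 2 ≤ A.card) (hA : 8 * (inA G A).card ≤ 7 * N * (A.card - 1)) :
    (((Om G cl).filter fun ω => (A.card : ℝ) - 1 <
      ∑ e ∈ inA univ A, xs G cl N ω e).card : ℝ) ≤
      (Om G cl).card * Real.exp (-((N : ℝ) ^ 2 / (1024 * g ^ 2))) := by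
  have hN' : (0 : ℝ) < N := by exact_mod_cast hN
  have hg' : (0 : ℝ) < g := by exact_mod_cast hg
  have ha : (2 : ℝ) ≤ A.card := by exact_mod_cast h2
  have hc := inA_card_le hG A
  have e1 : ((A.card - 1 : ℕ) : ℝ) = (A.card : ℝ) - 1 := by
    rw [Nat.cast_sub (by omega)]; simp
  have hc' : 2 * ((inA G A).card : ℝ) ≤ A.card * ((A.card : ℝ) - 1) := by
    rw [← e1]; exact_mod_cast hc
  have hA' : 8 * ((inA G A).card : ℝ) ≤ 7 * N * ((A.card : ℝ) - 1) := by
    rw [← e1]; exact_mod_cast hA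
  have hsub : inA G A ⊆ G := filter_subset _ _
  have hD : (0 : ℝ) < A.card * ((A.card : ℝ) - 1) / 2 := by
    have : (0 : ℝ) < A.card * ((A.card : ℝ) - 1) := by
      apply mul_pos <;> linarith
    linarith
  have hev := ev_up h hN hg (inA G A) hsub (A.card * ((A.card : ℝ) - 1) / 2)
    (((A.card : ℝ) - 1) / 8) hD (by linarith) (by linarith)
  have hcard : (((Om G cl).filter fun ω => (A.card : ℝ) - 1 <
      ∑ e ∈ inA univ A, xs G cl N ω e).card : ℝ) ≤
      (((Om G cl).filter fun ω => ((inA G A).card : ℝ) / N + ((A.card : ℝ) - 1) / 8 ≤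
        ∑ e ∈ inA G A, xs G cl N ω e).card : ℝ) := by
    have : ((Om G cl).filter fun ω => (A.card : ℝ) - 1 <
      ∑ e ∈ inA univ A, xs G cl N ω e) ⊆ ((Om G cl).filter fun ω =>
        ((inA G A).card : ℝ) / N + ((A.card : ℝ) - 1) / 8 ≤
        ∑ e ∈ inA G A, xs G cl N ω e) := by
      intro ω hω
      rw [mem_filter] at hω ⊢
      refine ⟨hω.1, ?_⟩
      have h3 := hω.2
      rw [sampA_sum_inA] at h3
      have h4 : ((inA G A).card : ℝ) / N ≤ 7 / 8 * ((A.card : ℝ) - 1) := by
        rw [div_le_iff₀ hN']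
        linarith
      linarith
    exact_mod_cast card_le_card this
  refine hcard.trans (hev.trans ?_)
  apply mul_le_mul_of_nonneg_left _ (by positivity)
  apply Real.exp_le_exp.2
  apply neg_le_neg
  rw [div_le_div_iff₀ (by positivity) (by
    have : (0 : ℝ) < 16 * g ^ 2 := by positivity
    exact mul_pos this hD)]
  have h5 : (0 : ℝ) ≤ (N : ℝ) ^ 2 * g ^ 2 * ((A.card : ℝ) - 1) * ((A.card : ℝ) - 2) := by
    apply mul_nonneg
    · apply mul_nonneg
      · positivity
      · linarith
    · linarith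
  nlinarith [h5]

theorem bad_large (hV : Fintype.card V = 2 * n) (hc : G.card = N * (2 * n - 1))
    (h : Cell G κ m cl g) (hN : 0 < N) (hg : 0 < g) (A : Finset V) (h2 : A.card < 2 * n)
    (h1 : 1 ≤ A.card)
    (hA : 8 * (inA G A).card + N * (2 * n - A.card) ≤ 8 * N * (A.card - 1)) :
    (((Om G cl).filter fun ω => (A.card : ℝ) - 1 <
      ∑ e ∈ inA univ A, xs G cl N ω e).card : ℝ) ≤
      (Om G cl).card * Real.exp (-(((2 * n - A.card : ℕ) : ℝ) * (N ^ 2 / (2048 * n * g ^ 2)))) := by
  have hn : 0 < n := by omega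
  have hN' : (0 : ℝ) < N := by exact_mod_cast hN
  have hn' : (0 : ℝ) < n := by exact_mod_cast hn
  have hg' : (0 : ℝ) < g := by exact_mod_cast hg
  obtain ⟨b, hb⟩ : ∃ b, 2 * n - A.card = b := ⟨_, rfl⟩
  have hb0 : 0 < b := by omega
  have hb' : (0 : ℝ) < b := by exact_mod_cast hb0
  have hab : (A.card : ℝ) + b = 2 * n := by
    have : A.card + b = 2 * n := by omega
    exact_mod_cast this
  rw [hb] at hA ⊢
  have e1 : ((A.card - 1 : ℕ) : ℝ) = (A.card : ℝ) - 1 := by
    rw [Nat.cast_sub (by omega)]; simp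
  have e2 : ((2 * n - 1 : ℕ) : ℝ) = 2 * (n : ℝ) - 1 := by
    rw [Nat.cast_sub (by omega)]; simp
  have hA' : 8 * ((inA G A).card : ℝ) + N * b ≤ 8 * N * ((A.card : ℝ) - 1) := by
    rw [← e1]; exact_mod_cast hA
  have hc' : (G.card : ℝ) = N * (2 * (n : ℝ) - 1) := by
    rw [← e2]; exact_mod_cast hc
  have hsub : inA G A ⊆ G := filter_subset _ _
  have hScard : ((G \ inA G A).card : ℝ) = G.card - (inA G A).card := by
    rw [card_sdiff_of_subset hsub, Nat.cast_sub (card_le_card hsub)]
  have ht := touch_card_le (G := G) hV A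
  rw [hb] at ht
  have ht' : ((G \ inA G A).card : ℝ) ≤ 2 * n * b := by exact_mod_cast ht
  have hD : (0 : ℝ) < 2 * n * b := by positivity
  have hev := ev_low h hN hg (G \ inA G A) sdiff_subset (2 * n * b) ((b : ℝ) / 8) hD ht'
    (by positivity)
  have hcard : (((Om G cl).filter fun ω => (A.card : ℝ) - 1 <
      ∑ e ∈ inA univ A, xs G cl N ω e).card : ℝ) ≤
      (((Om G cl).filter fun ω => ∑ e ∈ G \ inA G A, xs G cl N ω e ≤
        ((G \ inA G A).card : ℝ) / N - (b : ℝ) / 8).card : ℝ) := by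
    have : ((Om G cl).filter fun ω => (A.card : ℝ) - 1 <
      ∑ e ∈ inA univ A, xs G cl N ω e) ⊆ ((Om G cl).filter fun ω =>
        ∑ e ∈ G \ inA G A, xs G cl N ω e ≤ ((G \ inA G A).card : ℝ) / N - (b : ℝ) / 8) := by
      intro ω hω
      rw [mem_filter] at hω ⊢
      refine ⟨hω.1, ?_⟩
      have h3 := hω.2
      rw [sampA_sum_inA] at h3
      have h4 := xs_tot (N := N) hω.1
      have h5 : ∑ e ∈ G, xs G cl N ω e = ∑ e, xs G cl N ω e := by
        refine sum_subset (subset_univ _) ?_
        intro e _ he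
        unfold xs
        rw [if_neg (fun h => he h.1)]
      have h6 := sum_sdiff (f := fun e => xs G cl N ω e) hsub
      have h7 : (G.card : ℝ) / N = 2 * (n : ℝ) - 1 := by
        rw [hc']; field_simp
      have h8 : (9 : ℝ) / 8 * b ≤ ((G \ inA G A).card : ℝ) / N := by
        rw [le_div_iff₀ hN', hScard, hc']
        have : (A.card : ℝ) = 2 * n - b := by linarith
        rw [this] at hA'
        nlinarith
      rw [h5, h4, h7] at h6
      linarith
    exact_mod_cast card_le_card this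
  refine hcard.trans (hev.trans (le_of_eq ?_))
  congr 3
  field_simp
  ring

theorem bad_sets (hn : 0 < n) (hV : Fintype.card V = 2 * n) (hG : ∀ e ∈ G, ¬ e.IsDiag)
    (hc : G.card = N * (2 * n - 1)) (h : Cell G κ m cl g) (hN : 0 < N) (hg : 0 < g)
    (hsm : ∀ A : Finset V, 2 ≤ A.card → A.card ≤ n → 8 * (inA G A).card ≤ 7 * N * (A.card - 1))
    (hla : ∀ A : Finset V, n < A.card → A.card < 2 * n →
      8 * (inA G A).card + N * (2 * n - A.card) ≤ 8 * N * (A.card - 1))
    (p1 : (2 : ℝ) ^ (2 * n) * Real.exp (-((N : ℝ) ^ 2 / (1024 * g ^ 2))) ≤ 1 / 8)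
    (p2 : 2 * (n : ℝ) * Real.exp (-((N : ℝ) ^ 2 / (2048 * n * g ^ 2))) ≤ 1 / 16) :
    (((Om G cl).filter fun ω => ∃ A : Finset V, A.Nonempty ∧ (A.card : ℝ) - 1 <
      ∑ e ∈ inA univ A, xs G cl N ω e).card : ℝ) ≤ (Om G cl).card / 4 := by
  have hN' : (0 : ℝ) < N := by exact_mod_cast hN
  have hn' : (0 : ℝ) < n := by exact_mod_cast hn
  set B : Finset V → Finset (Fin m → Sym2 V) := fun A => (Om G cl).filter fun ω =>
    (A.card : ℝ) - 1 < ∑ e ∈ inA univ A, xs G cl N ω e with hB
  set Sm : Finset (Finset V) := univ.filter fun A => 2 ≤ A.card ∧ A.card ≤ n with hSm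
  set La : Finset (Finset V) := univ.filter fun A => n < A.card ∧ A.card < 2 * n with hLa
  have hsub : ((Om G cl).filter fun ω => ∃ A : Finset V, A.Nonempty ∧ (A.card : ℝ) - 1 <
      ∑ e ∈ inA univ A, xs G cl N ω e) ⊆ Sm.biUnion B ∪ La.biUnion B := by
    intro ω hω
    rw [mem_filter] at hω
    obtain ⟨hω0, A, hA1, hA2⟩ := hω
    have hAB : ω ∈ B A := by
      rw [hB]; exact mem_filter.2 ⟨hω0, hA2⟩
    have hAc : A.card ≤ 2 * n := by
      rw [← hV]; exact card_le_univ _
    have hA0 : 1 ≤ A.card := hA1.card_pos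
    rcases Nat.lt_or_ge A.card 2 with h2 | h2
    · exfalso
      have hA1' : A.card = 1 := by omega
      have hle := inA_card_le hG A
      rw [hA1'] at hle
      have h0 : inA G A = ∅ := by
        rw [← card_eq_zero]; omega
      rw [sampA_sum_inA, h0, hA1'] at hA2
      simp at hA2
    · rcases Nat.lt_or_ge n A.card with h3 | h3
      · rcases Nat.lt_or_ge A.card (2 * n) with h4 | h4
        · exact mem_union_right _ (mem_biUnion.2 ⟨A, by rw [hLa]; simp [h3, h4], hAB⟩)
        · exfalso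
          have h5 : A.card = 2 * n := by omega
          have h6 : ∑ e ∈ inA univ A, xs G cl N ω e ≤ ∑ e, xs G cl N ω e :=
            sum_le_univ_sum_of_nonneg (fun e => xs_nonneg ω e)
          rw [xs_tot hω0, hc] at h6
          have e2 : ((2 * n - 1 : ℕ) : ℝ) = 2 * (n : ℝ) - 1 := by
            rw [Nat.cast_sub (by omega)]; simp
          have h7 : (((N * (2 * n - 1) : ℕ) : ℝ)) / N = 2 * (n : ℝ) - 1 := by
            rw [Nat.cast_mul, e2]; field_simp
          rw [h7] at h6
          have h8 : (A.card : ℝ) = 2 * n := by exact_mod_cast h5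
          linarith
      · exact mem_union_left _ (mem_biUnion.2 ⟨A, by rw [hSm]; simp [h2, h3], hAB⟩)
  have hOm : (0 : ℝ) ≤ (Om G cl).card := by positivity
  have hc1 : (((Sm.biUnion B).card : ℕ) : ℝ) ≤ (Om G cl).card / 8 := by
    have h1 : (((Sm.biUnion B).card : ℕ) : ℝ) ≤ ∑ A ∈ Sm, ((B A).card : ℝ) := by
      exact_mod_cast card_biUnion_le
    have h2 : ∑ A ∈ Sm, ((B A).card : ℝ) ≤
        ∑ A ∈ Sm, ((Om G cl).card * Real.exp (-((N : ℝ) ^ 2 / (1024 * g ^ 2)))) := by
      apply sum_le_sum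
      intro A hA
      rw [hSm, mem_filter] at hA
      exact bad_small hG h hN hg A hA.2.1 (hsm A hA.2.1 hA.2.2)
    rw [sum_const, nsmul_eq_mul] at h2
    have h3 : (Sm.card : ℝ) ≤ 2 ^ (2 * n) := by
      have : Sm.card ≤ 2 ^ (2 * n) := by
        refine (card_le_univ _).trans ?_
        rw [Fintype.card_finset, hV]
      exact_mod_cast this
    have hE := Real.exp_pos (-((N : ℝ) ^ 2 / (1024 * g ^ 2)))
    have h4 : (Sm.card : ℝ) * ((Om G cl).card * Real.exp (-((N : ℝ) ^ 2 / (1024 * g ^ 2)))) ≤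
        (Om G cl).card * (1 / 8) := by
      calc _ ≤ (2 : ℝ) ^ (2 * n) * ((Om G cl).card * Real.exp (-((N : ℝ) ^ 2 / (1024 * g ^ 2)))) :=
            mul_le_mul_of_nonneg_right h3 (by positivity)
        _ = (Om G cl).card * ((2 : ℝ) ^ (2 * n) * Real.exp (-((N : ℝ) ^ 2 / (1024 * g ^ 2)))) := by
            ring
        _ ≤ _ := mul_le_mul_of_nonneg_left p1 hOm
    linarith
  have hc2 : (((La.biUnion B).card : ℕ) : ℝ) ≤ (Om G cl).card / 8 := by
    set q : ℝ := Real.exp (-((N : ℝ) ^ 2 / (2048 * n * g ^ 2))) with hq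
    have hq0 : 0 < q := Real.exp_pos _
    have h1 : (((La.biUnion B).card : ℕ) : ℝ) ≤ ∑ A ∈ La, ((B A).card : ℝ) := by
      exact_mod_cast card_biUnion_le
    have h2 : ∑ A ∈ La, ((B A).card : ℝ) ≤
        ∑ A ∈ La, ((Om G cl).card * q ^ (2 * n - A.card)) := by
      apply sum_le_sum
      intro A hA
      rw [hLa, mem_filter] at hA
      have hb := bad_large hV hc h hN hg A hA.2.2 (by omega) (hla A hA.2.1 hA.2.2)
      refine hb.trans (le_of_eq ?_)
      rw [hq, ← Real.exp_nat_mul]
      congr 2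
      ring
    rw [← mul_sum] at h2
    have h3 : ∑ A ∈ La, q ^ (2 * n - A.card) ≤ (1 + q) ^ (2 * n) - 1 := by
      have h4 := Finset.sum_pow_mul_eq_add_pow (1 : ℝ) q (univ : Finset V)
      rw [card_univ, hV] at h4
      have h5 : ∑ A ∈ La, q ^ (2 * n - A.card) + 1 ≤
          ∑ t ∈ (univ : Finset V).powerset, (1 : ℝ) ^ t.card * q ^ (2 * n - t.card) := by
        have h6 : (univ : Finset V) ∉ La := by
          rw [hLa, mem_filter, card_univ, hV]
          rintro ⟨_, _, h7⟩
          omega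
        have h7 : ∑ A ∈ insert (univ : Finset V) La, q ^ (2 * n - A.card) =
            1 + ∑ A ∈ La, q ^ (2 * n - A.card) := by
          rw [sum_insert h6, card_univ, hV]
          simp
        rw [add_comm, ← h7]
        calc ∑ A ∈ insert (univ : Finset V) La, q ^ (2 * n - A.card) ≤
            ∑ A ∈ (univ : Finset V).powerset, q ^ (2 * n - A.card) := by
              apply sum_le_sum_of_subset_of_nonneg
              · intro A _
                exact mem_powerset.2 (subset_univ _)
              · intro A _ _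
                positivity
          _ = _ := by
              apply sum_congr rfl
              intro A _
              rw [one_pow, one_mul]
      rw [h4] at h5
      linarith
    have h8 : (1 + q) ^ (2 * n) ≤ 1 + 1 / 8 := by
      have h9 : 1 + q ≤ Real.exp q := by linarith [Real.add_one_le_exp q]
      calc (1 + q) ^ (2 * n) ≤ Real.exp q ^ (2 * n) := pow_le_pow_left₀ (by positivity) h9 _
        _ = Real.exp ((2 * n : ℕ) * q) := by rw [Real.exp_nat_mul]
        _ ≤ Real.exp (1 / 16) := by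
            apply Real.exp_le_exp.2
            push_cast
            exact p2
        _ ≤ 1 + 1 / 8 := by
            have h10 := Real.abs_exp_sub_one_sub_id_le (x := (1 / 16 : ℝ))
              (by rw [abs_of_pos] <;> norm_num)
            have h11 := abs_le.1 h10
            have := h11.2
            norm_num at this ⊢
            linarith
    have h9 : (Om G cl).card * ∑ A ∈ La, q ^ (2 * n - A.card) ≤ (Om G cl).card * (1 / 8 : ℝ) := by
      apply mul_le_mul_of_nonneg_left _ hOm
      linarith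
    linarith
  have hfin : (((Om G cl).filter fun ω => ∃ A : Finset V, A.Nonempty ∧ (A.card : ℝ) - 1 <
      ∑ e ∈ inA univ A, xs G cl N ω e).card : ℝ) ≤
      ((Sm.biUnion B).card : ℝ) + ((La.biUnion B).card : ℝ) := by
    have := (card_le_card hsub).trans (card_union_le _ _)
    exact_mod_cast this
  linarith

end Pool.Agent.helper7.AQ
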