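import Pool.Agent.helper7.AQ.SampA

/-!
# AQ-SampB: a sparse fractional rainbow spanning tree with prescribed properties

PROOF of `sample`.  `cells` is not needed here: the cells are given.  The bad events for `ω ∈ Om G cl`:
(1) `bad_sets`: at most `|Om| / 4`.
(2) for some `v`: `|atV G v| / N + γ ≤ ∑ e ∈ atV G v, xs`: `ev_up` with `D = 2 n` (`|atV G v| ≤ 2 n`: `e ↦` the other end, or
`Sym2.mem_iff`; every `e ∋ v` is `s(v, u)`), `2 n * exp (-(γ ^ 2 N ^ 2 / (32 n g ^ 2))) ≤ 1 / 8` by `p3`.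
(3) for some `v`: `2 n / g + 1 + t4 ≤ |{z | ω z ∈ atV G v}|`: `ev_deg` with `D = 2 n`: `p4`.
(4) `1 / N * ∑ e ∈ G, f e + t5 ≤ ∑ e, f e * xs`: `ev_fun` with `B = 32 n ^ 2`, `D = 3 n N / g`: `m ≤ |G| / g + 1 ≤ 2 n N / g + 1 ≤ 3 n N / g` (`cell_count`,
`g ≤ N ≤ n N`); `64 g ^ 2 B ^ 2 D = 196608 g n ^ 5 N`, so the exponent is `t5 ^ 2 N / (196608 g n ^ 5)`: `p5`.
The sum of the bounds is `|Om| * (1 / 4 + 1 / 8 + 1 / 8 + 1 / 8) < |Om|`, so there is a good `ω`.
`x = xs G cl N ω`, `H = {e ∈ G | ω (cl e) = e}`.  `Fr`: `xs_nonneg`; `xs_tot`: `|G| / N = 2 n - 1 = card V - 1`; `colr`: `xs_col` and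
`|col G κ k| ≤ N`.  The sum of `x` over `atV univ v` is the sum over `atV G v`.  `|atV H v| = |{z | ω z ∈ atV G v}|`: `e ↦ cl e` is a bijection.
-/

set_option autoImplicit false

open Finset
open scoped Classical

namespace Pool.Agent.helper7.AQ

/-- the conditions for the parameters -/
structure Pm (n N g : ℕ) (γ t4 t5 : ℝ) : Prop where
  n_pos : 0 < n
  N_pos : 0 < N
  g_pos : 0 < g
  gN : 2 * g ≤ N
  Nn : N ≤ n
  γ0 : 0 ≤ γ
  t40 : 0 ≤ t4
  t50 : 0 ≤ t5
  p1 : (2 : ℝ) ^ (2 * n) * Real.exp (-((N : ℝ) ^ 2 / (1024 * g ^ 2))) ≤ 1 / 8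
  p2 : 2 * (n : ℝ) * Real.exp (-((N : ℝ) ^ 2 / (2048 * n * g ^ 2))) ≤ 1 / 16
  p3 : 2 * (n : ℝ) * Real.exp (-(γ ^ 2 * N ^ 2 / (32 * n * g ^ 2))) ≤ 1 / 8
  p4 : 2 * (n : ℝ) * Real.exp (-(t4 ^ 2 / (8 * n))) ≤ 1 / 8
  p5 : Real.exp (-(t5 ^ 2 * N / (196608 * g * n ^ 5))) ≤ 1 / 8

variable {V K : Type} [Fintype V] [DecidableEq V] {G : Finset (Sym2 V)} {m : ℕ}
  {cl : Sym2 V → Fin m} {n N g : ℕ} {κ : Sym2 V → K}

private theorem SampB_atV_card (hV : Fintype.card V = 2 * n) (v : V) :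
    (atV G v).card ≤ 2 * n := by
  have h1 : atV G v ⊆ (univ : Finset V).image (fun u => s(v, u)) := by
    intro e he
    simp only [atV, Finset.mem_filter] at he
    obtain ⟨u, hu⟩ := he.2
    exact Finset.mem_image.2 ⟨u, Finset.mem_univ _, hu.symm⟩
  calc (atV G v).card ≤ ((univ : Finset V).image (fun u => s(v, u))).card :=
        Finset.card_le_card h1
    _ ≤ (univ : Finset V).card := Finset.card_image_le
    _ = 2 * n := by rw [Finset.card_univ, hV]

/-- union bound over the vertices -/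
private theorem SampB_union (hV : Fintype.card V = 2 * n) (Ω : Finset (Fin m → Sym2 V))
    (P : V → (Fin m → Sym2 V) → Prop) (b : ℝ)
    (hb : ∀ v, ((Ω.filter fun ω => P v ω).card : ℝ) ≤ Ω.card * b)
    (h2 : 2 * (n : ℝ) * b ≤ 1 / 8) :
    ((Ω.filter fun ω => ∃ v, P v ω).card : ℝ) ≤ Ω.card / 8 := by
  have h1 : Ω.filter (fun ω => ∃ v, P v ω) ⊆
      (univ : Finset V).biUnion (fun v => Ω.filter fun ω => P v ω) := by
    intro ω hω
    rw [Finset.mem_filter] at hω
    obtain ⟨h, v, hv⟩ := hω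
    exact Finset.mem_biUnion.2 ⟨v, Finset.mem_univ _, Finset.mem_filter.2 ⟨h, hv⟩⟩
  have h3 : ((Ω.filter fun ω => ∃ v, P v ω).card : ℝ) ≤
      ∑ v : V, ((Ω.filter fun ω => P v ω).card : ℝ) := by
    have h4 := (Finset.card_le_card h1).trans Finset.card_biUnion_le
    exact_mod_cast h4
  calc ((Ω.filter fun ω => ∃ v, P v ω).card : ℝ)
      ≤ ∑ v : V, ((Ω.filter fun ω => P v ω).card : ℝ) := h3
    _ ≤ ∑ _v : V, (Ω.card : ℝ) * b := Finset.sum_le_sum fun v _ => hb v
    _ = Ω.card * (2 * (n : ℝ) * b) := by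
        rw [Finset.sum_const, Finset.card_univ, hV, nsmul_eq_mul]
        push_cast
        ring
    _ ≤ Ω.card * (1 / 8) := mul_le_mul_of_nonneg_left h2 (Nat.cast_nonneg _)
    _ = Ω.card / 8 := by ring

theorem sample (γ t4 t5 : ℝ) (hP : Pm n N g γ t4 t5) (hV : Fintype.card V = 2 * n)
    (hSt : St n N κ G) (h : Cell G κ m cl g)
    (hsm : ∀ A : Finset V, 2 ≤ A.card → A.card ≤ n → 8 * (inA G A).card ≤ 7 * N * (A.card - 1))
    (hla : ∀ A : Finset V, n < A.card → A.card < 2 * n →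
      8 * (inA G A).card + N * (2 * n - A.card) ≤ 8 * N * (A.card - 1))
    (f : Sym2 V → ℝ) (hf : ∀ e, |f e| ≤ 32 * (n : ℝ) ^ 2) :
    ∃ H ⊆ G, ∃ x : Sym2 V → ℝ, Fr κ H x ∧
      (∀ k, (col G κ k).card = N → ∑ e ∈ col univ κ k, x e = 1) ∧
      (∀ v, ∑ e ∈ atV univ v, x e ≤ ((atV G v).card : ℝ) / N + γ) ∧
      (∀ v, ((atV H v).card : ℝ) ≤ 2 * n / g + 1 + t4) ∧
      ∑ e, f e * x e ≤ 1 / N * ∑ e ∈ G, f e + t5 := by
  have hn : 0 < n := hP.n_pos
  have hN : 0 < N := hP.N_pos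
  have hg : 0 < g := hP.g_pos
  have hnR : (0 : ℝ) < n := Nat.cast_pos.2 hn
  have hNR : (0 : ℝ) < N := Nat.cast_pos.2 hN
  have hgR : (0 : ℝ) < g := Nat.cast_pos.2 hg
  have hD2 : (0 : ℝ) < 2 * n := by positivity
  have hat : ∀ v, ((atV G v).card : ℝ) ≤ 2 * n := fun v => by
    exact_mod_cast SampB_atV_card (G := G) hV v
  have hatG : ∀ v, atV G v ⊆ G := fun v => Finset.filter_subset _ _
  -- the bad events
  have b1 : (((Om G cl).filter fun ω => ∃ A : Finset V, A.Nonempty ∧ (A.card : ℝ) - 1 <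
      ∑ e ∈ inA univ A, xs G cl N ω e).card : ℝ) ≤ (Om G cl).card / 4 :=
    bad_sets hn hV hSt.nd hSt.card h hN hg hsm hla hP.p1 hP.p2
  have b2 : (((Om G cl).filter fun ω => ∃ v, ((atV G v).card : ℝ) / N + γ ≤
      ∑ e ∈ atV G v, xs G cl N ω e).card : ℝ) ≤ (Om G cl).card / 8 := by
    refine SampB_union hV _ _ (Real.exp (-(γ ^ 2 * N ^ 2 / (32 * n * g ^ 2)))) (fun v => ?_) hP.p3
    have := ev_up h hN hg (atV G v) (hatG v) (2 * n) γ hD2 (hat v) hP.γ0
    have he : (16 : ℝ) * g ^ 2 * (2 * n) = 32 * n * g ^ 2 := by ring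
    rw [he] at this
    exact this
  have b3 : (((Om G cl).filter fun ω => ∃ v, 2 * (n : ℝ) / g + 1 + t4 ≤
      ((univ.filter fun z : Fin m => ω z ∈ atV G v).card : ℝ)).card : ℝ) ≤
      (Om G cl).card / 8 := by
    refine SampB_union hV _ _ (Real.exp (-(t4 ^ 2 / (8 * n)))) (fun v => ?_) hP.p4
    have h0 := ev_deg h hg (atV G v) (hatG v) (2 * n) t4 hD2 (hat v) hP.t40
    have he : (4 : ℝ) * (2 * n) = 8 * n := by ring
    rw [he] at h0
    refine le_trans ?_ h0
    refine Nat.cast_le.2 (Finset.card_le_card ?_)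
    intro ω hω
    rw [Finset.mem_filter] at hω ⊢
    refine ⟨hω.1, le_trans ?_ (hω.2.trans (le_of_eq ?_))⟩
    · have := div_le_div_of_nonneg_right (hat v) hgR.le
      linarith
    · congr!
  have b4 : (((Om G cl).filter fun ω => 1 / N * ∑ e ∈ G, f e + t5 ≤
      ∑ e, f e * xs G cl N ω e).card : ℝ) ≤ (Om G cl).card / 8 := by
    have hB : (0 : ℝ) < 32 * (n : ℝ) ^ 2 := by positivity
    have hD : (0 : ℝ) < 3 * n * N / g := by positivity
    have hmD : (m : ℝ) ≤ 3 * n * N / g := by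
      rw [le_div_iff₀ hgR]
      have h1 := cell_count h
      have h2 : (G.card : ℝ) ≤ N * (2 * n) := by
        rw [hSt.card]
        have : N * (2 * n - 1) ≤ N * (2 * n) := Nat.mul_le_mul_left _ (Nat.sub_le _ _)
        exact_mod_cast this
      have h3 : (2 : ℝ) * g ≤ N := by exact_mod_cast hP.gN
      have h4 : (1 : ℝ) ≤ n := by exact_mod_cast hn
      nlinarith
    have h0 := ev_fun h hN hg f (32 * (n : ℝ) ^ 2) (3 * n * N / g) t5 hB hf hD hmD hP.t50
    have he : t5 ^ 2 * (N : ℝ) ^ 2 / (64 * g ^ 2 * (32 * (n : ℝ) ^ 2) ^ 2 * (3 * n * N / g)) =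
        t5 ^ 2 * N / (196608 * g * n ^ 5) := by
      field_simp
      ring
    rw [he] at h0
    refine h0.trans ?_
    calc ((Om G cl).card : ℝ) * Real.exp (-(t5 ^ 2 * N / (196608 * g * n ^ 5)))
        ≤ (Om G cl).card * (1 / 8) := mul_le_mul_of_nonneg_left hP.p5 (Nat.cast_nonneg _)
      _ = (Om G cl).card / 8 := by ring
  have hpos : (0 : ℝ) < (Om G cl).card := by exact_mod_cast om_pos h
  -- a good choice
  obtain ⟨ω, hω, g1, g2, g3, g4⟩ : ∃ ω ∈ Om G cl,
      (¬ ∃ A : Finset V, A.Nonempty ∧ (A.card : ℝ) - 1 < ∑ e ∈ inA univ A, xs G cl N ω e) ∧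
      (¬ ∃ v, ((atV G v).card : ℝ) / N + γ ≤ ∑ e ∈ atV G v, xs G cl N ω e) ∧
      (¬ ∃ v, 2 * (n : ℝ) / g + 1 + t4 ≤
        ((univ.filter fun z : Fin m => ω z ∈ atV G v).card : ℝ)) ∧
      ¬ (1 / N * ∑ e ∈ G, f e + t5 ≤ ∑ e, f e * xs G cl N ω e) := by
    by_contra hcon
    push Not at hcon
    have hsub : Om G cl ⊆
        (((Om G cl).filter fun ω => ∃ A : Finset V, A.Nonempty ∧ (A.card : ℝ) - 1 <
          ∑ e ∈ inA univ A, xs G cl N ω e) ∪
        ((Om G cl).filter fun ω => ∃ v, ((atV G v).card : ℝ) / N + γ ≤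
          ∑ e ∈ atV G v, xs G cl N ω e)) ∪
        (((Om G cl).filter fun ω => ∃ v, 2 * (n : ℝ) / g + 1 + t4 ≤
          ((univ.filter fun z : Fin m => ω z ∈ atV G v).card : ℝ)) ∪
        ((Om G cl).filter fun ω => 1 / N * ∑ e ∈ G, f e + t5 ≤
          ∑ e, f e * xs G cl N ω e)) := by
      intro ω hω
      by_contra hno
      rw [Finset.mem_union, Finset.mem_union, Finset.mem_union, Finset.mem_filter,
        Finset.mem_filter, Finset.mem_filter, Finset.mem_filter] at hno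
      push Not at hno
      obtain ⟨⟨n1, n2⟩, n3, n4⟩ := hno
      have c1 := n1 hω
      have c2 := n2 hω
      have c3 := n3 hω
      have c4 := n4 hω
      exact absurd (hcon ω hω c1 c2 c3) (not_le.2 c4)
    have hc1 := Finset.card_le_card hsub
    have hc2 := hc1.trans ((Finset.card_union_le _ _).trans
      (add_le_add (Finset.card_union_le _ _) (Finset.card_union_le _ _)))
    have hc3 : ((Om G cl).card : ℝ) ≤
        ((((Om G cl).filter fun ω => ∃ A : Finset V, A.Nonempty ∧ (A.card : ℝ) - 1 <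
          ∑ e ∈ inA univ A, xs G cl N ω e).card : ℝ) +
        (((Om G cl).filter fun ω => ∃ v, ((atV G v).card : ℝ) / N + γ ≤
          ∑ e ∈ atV G v, xs G cl N ω e).card : ℝ)) +
        ((((Om G cl).filter fun ω => ∃ v, 2 * (n : ℝ) / g + 1 + t4 ≤
          ((univ.filter fun z : Fin m => ω z ∈ atV G v).card : ℝ)).card : ℝ) +
        (((Om G cl).filter fun ω => 1 / N * ∑ e ∈ G, f e + t5 ≤
          ∑ e, f e * xs G cl N ω e).card : ℝ)) := by
      exact_mod_cast hc2
    linarith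
  push Not at g1 g2 g3 g4
  have hxs0 : ∀ e, ¬ (e ∈ G ∧ ω (cl e) = e) → xs G cl N ω e = 0 := by
    intro e he
    unfold xs
    rw [if_neg he]
  refine ⟨G.filter fun e => ω (cl e) = e, Finset.filter_subset _ _, xs G cl N ω, ?_, ?_, ?_, ?_,
    g4.le⟩
  · refine ⟨fun e => xs_nonneg ω e, ?_, ?_, ?_, ?_⟩
    · intro e he
      refine hxs0 e fun hh => he ?_
      exact Finset.mem_filter.2 hh
    · rw [xs_tot hω, hSt.card, hV]
      have h1 : 1 ≤ 2 * n := by omega
      rw [div_eq_iff hNR.ne']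
      push_cast [Nat.cast_sub h1]
      ring
    · intro A hA
      exact g1 A hA
    · intro k
      rw [xs_col h hω k, div_le_one hNR]
      exact_mod_cast hSt.colr k
  · intro k hk
    rw [xs_col h hω k, hk, div_self hNR.ne']
  · intro v
    have heq : ∑ e ∈ atV univ v, xs G cl N ω e = ∑ e ∈ atV G v, xs G cl N ω e := by
      symm
      refine Finset.sum_subset ?_ ?_
      · intro e he
        simp only [atV, Finset.mem_filter, Finset.mem_univ, true_and] at he ⊢
        exact he.2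
      · intro e he hne
        refine hxs0 e fun hh => hne ?_
        simp only [atV, Finset.mem_filter, Finset.mem_univ, true_and] at he ⊢
        exact ⟨hh.1, he⟩
    rw [heq]
    exact (g2 v).le
  · intro v
    have hle : (atV (G.filter fun e => ω (cl e) = e) v).card ≤
        (univ.filter fun z : Fin m => ω z ∈ atV G v).card := by
      refine Finset.card_le_card_of_injOn cl ?_ ?_
      · intro e he
        simp only [atV, Finset.coe_filter, Finset.mem_filter, Set.mem_ofPred_eq] at he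
        simp only [atV, Finset.coe_filter, Finset.mem_filter, Finset.mem_univ, true_and,
          Set.mem_ofPred_eq]
        rw [he.1.2]
        exact ⟨he.1.1, he.2⟩
      · intro e he e' he' hee
        simp only [atV, Finset.coe_filter, Finset.mem_filter, Set.mem_ofPred_eq] at he he'
        rw [← he.1.2, ← he'.1.2, hee]
    have := (g3 v).le
    have hle' : ((atV (G.filter fun e => ω (cl e) = e) v).card : ℝ) ≤
        ((univ.filter fun z : Fin m => ω z ∈ atV G v).card : ℝ) := by exact_mod_cast hle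
    exact hle'.trans this

end Pool.Agent.helper7.AQ
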