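import Pool.Agent.helper7.AQ.Defs

/-!
# AQ-Shrink: the main step of Rado's theorem

For a family `A : K → Finset E` and `J ⊆ K` let `A_J` be the union of the `A k`, `k ∈ J` (`J.biUnion A`).  Conditions:
(a) `|J| ≤ σ (A_J)` for all `J ⊆ Kt`; (b) `r + |J| ≤ σ (A_J) + |K|` for all `J`.
PROOF.  Induction on `∑ k, (A k).card`.  If all `(A k).card ≤ 1` take `B = A`.  Otherwise let `x ≠ y` be two elements of `A k`.  Let `A^x` be the
family with `A k` replaced by `(A k).erase x` (`Function.update`), `A^y` similarly.  CLAIM: `A^x` or `A^y` satisfies (a) and (b);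
then apply the induction hypothesis to it.
Suppose that both fail.  A set `J` for which a condition of `A^x` fails contains `k` (otherwise `A^x_J = A_J`); `J = insert k J'`, `k ∉ J'`;
let `L = insert k L'`, `k ∉ L'`, be such a set for `A^y`.  Then `A_{J ∪ L} ⊆ A^x_J ∪ A^y_L` (`A k = (A k).erase x ∪ (A k).erase y`) and
`A_{J' ∩ L'} ⊆ A^x_J ∩ A^y_L`, so by `submod` and `mono`
`σ (A_{J ∪ L}) + σ (A_{J' ∩ L'}) ≤ σ (A^x_J) + σ (A^y_L)`.    (1)
Also `|J ∪ L| + |J' ∩ L'| = |J| + |L| - 1`.    (2)
Case (a), (a): `J, L ⊆ Kt`, `σ (A^x_J) < |J|`, `σ (A^y_L) < |L|`; by (a) for `J ∪ L` and `J' ∩ L'` the left side of (1) is at least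
`|J| + |L| - 1`, the right side at most `|J| + |L| - 2`.
Case (b), (b): `σ (A^x_J) + |K| < r + |J|`, `σ (A^y_L) + |K| < r + |L|`; by (b) the left side of (1) is at least
`2 r + |J ∪ L| + |J' ∩ L'| - 2 |K|` (as integers), the right side at most `2 r + |J| + |L| - 2 - 2 |K|`; contradiction to (2).
Case (a), (b): `J ⊆ Kt`, `σ (A^x_J) < |J|`, `σ (A^y_L) + |K| < r + |L|`; `J' ∩ L' ⊆ Kt`; by (b) for `J ∪ L` and (a) for `J' ∩ L'` the left side of
(1) is at least `r + |J ∪ L| - |K| + |J' ∩ L'|`, the right side at most `|J| - 1 + r + |L| - 1 - |K|`; contradiction to (2).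
Case (b), (a): the same with the roles exchanged.
(Use `omega` with the four cardinalities.)
-/

set_option autoImplicit false

open Finset

namespace Pool.Agent.helper7.AQ

private theorem Shrink_same {E K : Type} [DecidableEq E] [DecidableEq K] (A : K → Finset E)
    (k : K) (x : E) {J : Finset K} (h : k ∉ J) :
    J.biUnion (Function.update A k ((A k).erase x)) = J.biUnion A := by
  refine Finset.biUnion_congr rfl fun j hj => ?_
  rw [Function.update_of_ne]
  rintro rfl
  exact h hj

private theorem Shrink_key {E K : Type} [DecidableEq E] [DecidableEq K] (σ : Finset E → ℕ)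
    (hσ : Rk σ) (A : K → Finset E) (k : K) {x y : E} (hxy : x ≠ y) {J L : Finset K}
    (hJ : k ∈ J) (hL : k ∈ L) :
    σ ((J ∪ L).biUnion A) + σ (((J.erase k) ∩ (L.erase k)).biUnion A) ≤
      σ (J.biUnion (Function.update A k ((A k).erase x))) +
        σ (L.biUnion (Function.update A k ((A k).erase y))) := by
  refine le_trans (Nat.add_le_add (hσ.mono _ _ ?_) (hσ.mono _ _ ?_)) (hσ.submod _ _)
  · intro e he
    rw [Finset.mem_biUnion] at he
    obtain ⟨j, hj, he⟩ := he
    rw [Finset.mem_union, Finset.mem_biUnion, Finset.mem_biUnion]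
    by_cases hjk : j = k
    · subst hjk
      by_cases hex : e = x
      · right
        refine ⟨j, hL, ?_⟩
        rw [Function.update_self, Finset.mem_erase]
        exact ⟨by rw [hex]; exact hxy, he⟩
      · left
        refine ⟨j, hJ, ?_⟩
        rw [Function.update_self, Finset.mem_erase]
        exact ⟨hex, he⟩
    · rcases Finset.mem_union.1 hj with h | h
      · left
        refine ⟨j, h, ?_⟩
        rw [Function.update_of_ne hjk]
        exact he
      · right
        refine ⟨j, h, ?_⟩
        rw [Function.update_of_ne hjk]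
        exact he
  · intro e he
    rw [Finset.mem_biUnion] at he
    obtain ⟨j, hj, he⟩ := he
    rw [Finset.mem_inter, Finset.mem_erase, Finset.mem_erase] at hj
    obtain ⟨⟨hjk, h1⟩, -, h2⟩ := hj
    rw [Finset.mem_inter, Finset.mem_biUnion, Finset.mem_biUnion]
    refine ⟨⟨j, h1, ?_⟩, ⟨j, h2, ?_⟩⟩
    · rw [Function.update_of_ne hjk]
      exact he
    · rw [Function.update_of_ne hjk]
      exact he

private theorem Shrink_card {K : Type} [DecidableEq K] {k : K} {J L : Finset K}
    (hJ : k ∈ J) (hL : k ∈ L) :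
    (J ∪ L).card + ((J.erase k) ∩ (L.erase k)).card + 1 = J.card + L.card := by
  have h1 : (J.erase k) ∩ (L.erase k) = (J ∩ L).erase k := by
    ext j
    simp only [Finset.mem_inter, Finset.mem_erase]
    tauto
  have h2 : ((J ∩ L).erase k).card + 1 = (J ∩ L).card :=
    Finset.card_erase_add_one (Finset.mem_inter.2 ⟨hJ, hL⟩)
  have h3 := Finset.card_union_add_card_inter J L
  rw [h1]
  omega

private theorem Shrink_aux {E K : Type} [DecidableEq E] [Fintype K] (σ : Finset E → ℕ)
    (hσ : Rk σ) (Kt : Finset K) (r : ℕ) (N : ℕ) : ∀ A : K → Finset E,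
    ∑ k, (A k).card ≤ N → (∀ J ⊆ Kt, J.card ≤ σ (J.biUnion A)) →
    (∀ J : Finset K, r + J.card ≤ σ (J.biUnion A) + Fintype.card K) →
    ∃ B : K → Finset E, (∀ k, B k ⊆ A k) ∧ (∀ k, (B k).card ≤ 1) ∧
      (∀ J ⊆ Kt, J.card ≤ σ (J.biUnion B)) ∧
      ∀ J : Finset K, r + J.card ≤ σ (J.biUnion B) + Fintype.card K := by
  classical
  induction N with
  | zero =>
    intro A hA ha hb
    refine ⟨A, fun k => Finset.Subset.refl _, fun k => ?_, ha, hb⟩
    have h1 : (A k).card ≤ ∑ k, (A k).card :=
      Finset.single_le_sum (f := fun k => (A k).card) (fun _ _ => Nat.zero_le _)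
        (Finset.mem_univ k)
    omega
  | succ N ih =>
    intro A hA ha hb
    by_cases hall : ∀ k, (A k).card ≤ 1
    · exact ⟨A, fun k => Finset.Subset.refl _, hall, ha, hb⟩
    · push Not at hall
      obtain ⟨k, hk⟩ := hall
      obtain ⟨x, hx, y, hy, hxy⟩ := Finset.one_lt_card.1 hk
      have hstep : ∀ z ∈ A k,
          (∀ J ⊆ Kt, J.card ≤ σ (J.biUnion (Function.update A k ((A k).erase z)))) →
          (∀ J : Finset K, r + J.card ≤
            σ (J.biUnion (Function.update A k ((A k).erase z))) + Fintype.card K) →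
          ∃ B : K → Finset E, (∀ k, B k ⊆ A k) ∧ (∀ k, (B k).card ≤ 1) ∧
            (∀ J ⊆ Kt, J.card ≤ σ (J.biUnion B)) ∧
            ∀ J : Finset K, r + J.card ≤ σ (J.biUnion B) + Fintype.card K := by
        intro z hz h1 h2
        have hsub : ∀ j, Function.update A k ((A k).erase z) j ⊆ A j := by
          intro j
          by_cases hjk : j = k
          · subst hjk
            rw [Function.update_self]
            exact Finset.erase_subset _ _
          · rw [Function.update_of_ne hjk]
        have hlt : ∑ j, (Function.update A k ((A k).erase z) j).card < ∑ j, (A j).card := by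
          refine Finset.sum_lt_sum (fun j _ => Finset.card_le_card (hsub j))
            ⟨k, Finset.mem_univ k, ?_⟩
          rw [Function.update_self]
          exact Finset.card_erase_lt_of_mem hz
        obtain ⟨B, hB1, hB2, hB3, hB4⟩ := ih _ (by omega) h1 h2
        exact ⟨B, fun j => (hB1 j).trans (hsub j), hB2, hB3, hB4⟩
      have hfail : ∀ z, ¬ ((∀ J ⊆ Kt, J.card ≤
            σ (J.biUnion (Function.update A k ((A k).erase z)))) ∧
          (∀ J : Finset K, r + J.card ≤
            σ (J.biUnion (Function.update A k ((A k).erase z))) + Fintype.card K)) →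
          ∃ J : Finset K, k ∈ J ∧
            ((J ⊆ Kt ∧ σ (J.biUnion (Function.update A k ((A k).erase z))) < J.card) ∨
            σ (J.biUnion (Function.update A k ((A k).erase z))) + Fintype.card K <
              r + J.card) := by
        intro z hz
        rw [not_and_or] at hz
        rcases hz with h | h
        · push Not at h
          obtain ⟨J, hJ1, hJ2⟩ := h
          refine ⟨J, ?_, Or.inl ⟨hJ1, hJ2⟩⟩
          by_contra hkJ
          rw [Shrink_same A k z hkJ] at hJ2
          have := ha J hJ1
          omega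
        · push Not at h
          obtain ⟨J, hJ2⟩ := h
          refine ⟨J, ?_, Or.inr hJ2⟩
          by_contra hkJ
          rw [Shrink_same A k z hkJ] at hJ2
          have := hb J
          omega
      by_cases h1 : (∀ J ⊆ Kt, J.card ≤
            σ (J.biUnion (Function.update A k ((A k).erase x)))) ∧
          (∀ J : Finset K, r + J.card ≤
            σ (J.biUnion (Function.update A k ((A k).erase x))) + Fintype.card K)
      · exact hstep x hx h1.1 h1.2
      by_cases h2 : (∀ J ⊆ Kt, J.card ≤
            σ (J.biUnion (Function.update A k ((A k).erase y)))) ∧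
          (∀ J : Finset K, r + J.card ≤
            σ (J.biUnion (Function.update A k ((A k).erase y))) + Fintype.card K)
      · exact hstep y hy h2.1 h2.2
      exfalso
      obtain ⟨J, hkJ, hJ⟩ := hfail x h1
      obtain ⟨L, hkL, hL⟩ := hfail y h2
      have hkey := Shrink_key σ hσ A k hxy hkJ hkL
      have hcard := Shrink_card hkJ hkL
      have hbU := hb (J ∪ L)
      have hbI := hb ((J.erase k) ∩ (L.erase k))
      have hIJ : (J.erase k) ∩ (L.erase k) ⊆ J :=
        Finset.inter_subset_left.trans (Finset.erase_subset _ _)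
      have hIL : (J.erase k) ∩ (L.erase k) ⊆ L :=
        Finset.inter_subset_right.trans (Finset.erase_subset _ _)
      rcases hJ with ⟨hJ1, hJ2⟩ | hJ2
      · have haI := ha _ (hIJ.trans hJ1)
        rcases hL with ⟨hL1, hL2⟩ | hL2
        · have haU := ha _ (Finset.union_subset hJ1 hL1)
          omega
        · omega
      · rcases hL with ⟨hL1, hL2⟩ | hL2
        · have haI := ha _ (hIL.trans hL1)
          omega
        · omega

theorem shrink {E K : Type} [DecidableEq E] [Fintype K] (σ : Finset E → ℕ) (hσ : Rk σ)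
    (Kt : Finset K) (r : ℕ) (A : K → Finset E) (ha : ∀ J ⊆ Kt, J.card ≤ σ (J.biUnion A))
    (hb : ∀ J : Finset K, r + J.card ≤ σ (J.biUnion A) + Fintype.card K) :
    ∃ B : K → Finset E, (∀ k, B k ⊆ A k) ∧ (∀ k, (B k).card ≤ 1) ∧
      (∀ J ⊆ Kt, J.card ≤ σ (J.biUnion B)) ∧
      ∀ J : Finset K, r + J.card ≤ σ (J.biUnion B) + Fintype.card K :=
  Shrink_aux σ hσ Kt r _ A le_rfl ha hb

end Pool.Agent.helper7.AQ
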