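import Pool.Agent.helper7.AQ.OneTree
import Pool.Agent.helper7.AQ.Pot
import Pool.Agent.helper7.AQ.Robust
import Pool.Agent.helper7.AQ.Num

/-!
# AQ-Step: one step of the construction

* `pot_robust`: every summand of `Ps` is nonnegative (`q4_nonneg`), so `wv ... v ≤ Ps` and `q4 ≤ Ps`; `num_deg`, `num_q`.
* `step`.  Let `N₁ = N + 1`, `f = fM (Mx n N₁ G)` (`fM_abs`, `mx_abs`), `lam = lamn n`, `Δ = 4 n ^ (3 / 4)`, `γ = n ^ (-1 / 8)`, `α = lam (1 + lam Δ)`,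
  `w = wv lam N₁ G ≥ 0`.  `pot_robust` and `robust_small`, `robust_large` give the hypotheses of `oneTree` (with `num_pm` for `N₁`), which gives `T`;
  `|atV T v| ≤ 2 n / g + 1 + n ^ (3 / 4) ≤ Δ` (`num_delta`).  `pot_step`, `num_delta`, `num_add` (for `N₁`) give the bound for `Ps lam n N (G \ T)`.
  `St n N κ (G \ T)`: `|G \ T| = N₁ (2 n - 1) - (2 n - 1) = N (2 n - 1)`; if `|col G κ k| = N₁` then `T` meets the class, so
  `|col (G \ T) κ k| ≤ N`; otherwise `|col G κ k| ≤ N` already.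
* `full_step`: `T` has exactly one element in the class.
-/

set_option autoImplicit false

open Finset

namespace Pool.Agent.helper7.AQ

lemma Step_wv_nonneg {V : Type} [Fintype V] [DecidableEq V] (lam : ℝ) (N : ℕ)
    (G : Finset (Sym2 V)) (v : V) : 0 ≤ wv lam N G v := (Real.exp_pos _).le

lemma Step_q4_le {V : Type} [Fintype V] [DecidableEq V] (lam : ℝ) (n N : ℕ)
    (G : Finset (Sym2 V)) : q4 (Mx n N G) ≤ Ps lam n N G := by
  have h : 0 ≤ ∑ v, wv lam N G v := sum_nonneg fun v _ => Step_wv_nonneg lam N G v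
  unfold Ps
  linarith

lemma Step_wv_le {V : Type} [Fintype V] [DecidableEq V] (lam : ℝ) (n N : ℕ)
    (G : Finset (Sym2 V)) (v : V) : wv lam N G v ≤ Ps lam n N G := by
  have h : wv lam N G v ≤ ∑ v, wv lam N G v :=
    single_le_sum (f := fun v => wv lam N G v) (fun v _ => Step_wv_nonneg lam N G v) (mem_univ v)
  have h2 := q4_nonneg (Mx n N G)
  unfold Ps
  linarith

lemma Step_Ps_nonneg {V : Type} [Fintype V] [DecidableEq V] (lam : ℝ) (n N : ℕ)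
    (G : Finset (Sym2 V)) : 0 ≤ Ps lam n N G :=
  (q4_nonneg (Mx n N G)).trans (Step_q4_le lam n N G)

theorem pot_robust : ∃ n₀ : ℕ, ∀ n ≥ n₀, ∀ N : ℕ, (n : ℝ) ^ (24 / 25 : ℝ) ≤ N + 1 →
    ∀ (V : Type) [Fintype V] [DecidableEq V] (G : Finset (Sym2 V)),
      Ps (lamn n) n N G ≤ 2 * 10 ^ 9 * (n : ℝ) ^ (15 / 4 : ℝ) →
      q4 (Mx n N G) ≤ ((N : ℝ) / 8) ^ 4 ∧ ∀ v, 29 * N ≤ 16 * (atV G v).card := by
  obtain ⟨n1, h1⟩ := num_deg
  obtain ⟨n2, h2⟩ := num_q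
  refine ⟨max n1 n2, fun n hn N hN V _ _ G hP => ⟨?_, fun v => ?_⟩⟩
  · exact ((Step_q4_le (lamn n) n N G).trans hP).trans (h2 n ((le_max_right _ _).trans hn) N hN)
  · refine h1 n ((le_max_left _ _).trans hn) N (atV G v).card hN ?_
    exact (Step_wv_le (lamn n) n N G v).trans hP

lemma Step_full {V K : Type} [Fintype V] [DecidableEq V] {N : ℕ} {κ : Sym2 V → K}
    {G T : Finset (Sym2 V)} (h : Tr (N + 1) κ G T) (k : K) (hk : (col G κ k).card = N + 1) :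
    (col (G \ T) κ k).card = N := by
  classical
  obtain ⟨e, heT, hek⟩ := h.meet k hk
  have h1 : col (G \ T) κ k = (col G κ k).erase e := by
    ext x
    simp only [col, mem_filter, mem_sdiff, mem_erase]
    constructor
    · rintro ⟨⟨hxG, hxT⟩, hxk⟩
      exact ⟨fun hx => hxT (hx ▸ heT), hxG, hxk⟩
    · rintro ⟨hne, hxG, hxk⟩
      exact ⟨⟨hxG, fun hxT => hne (h.inj x hxT e heT (hxk.trans hek.symm))⟩, hxk⟩
  have h2 : e ∈ col G κ k := by
    simp only [col, mem_filter]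
    exact ⟨h.sub heT, hek⟩
  rw [h1, card_erase_of_mem h2, hk]
  rfl

theorem step : ∃ n₀ : ℕ, ∀ n ≥ n₀, ∀ N : ℕ, (n : ℝ) ^ (24 / 25 : ℝ) ≤ N + 1 → N + 1 ≤ n →
    ∀ (V K : Type) [Fintype V] [DecidableEq V] [Fintype K] (κ : Sym2 V → K)
      (G : Finset (Sym2 V)), Fintype.card V = 2 * n → St n (N + 1) κ G →
      Ps (lamn n) n (N + 1) G ≤ 2 * 10 ^ 9 * (n : ℝ) ^ (15 / 4 : ℝ) →
      ∃ T, Tr (N + 1) κ G T ∧ St n N κ (G \ T) ∧
        Ps (lamn n) n N (G \ T) ≤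
          (1 + 13 / n) * Ps (lamn n) n (N + 1) G + 4000 * (n : ℝ) ^ (11 / 4 : ℝ) := by
  obtain ⟨n1, h1⟩ := pot_robust
  obtain ⟨n2, h2⟩ := num_pm
  obtain ⟨n3, h3⟩ := num_delta
  obtain ⟨n4, h4⟩ := num_add
  refine ⟨n1 + n2 + n3 + n4 + 1, fun n hn N hN hNn V K _ _ _ κ G hV hSt hP => ?_⟩
  have hn0 : 0 < n := by omega
  have hN' : (n : ℝ) ^ (24 / 25 : ℝ) ≤ ((N + 1 : ℕ) : ℝ) + 1 := by
    push_cast
    linarith
  obtain ⟨hq, hdeg⟩ := h1 n (by omega) (N + 1) hN' V G hP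
  have hPm := h2 n (by omega) (N + 1) hN' hNn
  obtain ⟨d1, d2, _, d4, d5, d6, d7, d8⟩ := h3 n (by omega)
  have hadd := h4 n (by omega) (N + 1) hN'
  have hγ0 : (0 : ℝ) ≤ (n : ℝ) ^ (-(1 / 8) : ℝ) := Real.rpow_nonneg (Nat.cast_nonneg _) _
  have ht5 : (0 : ℝ) ≤ (n : ℝ) ^ (5 / 2 : ℝ) := Real.rpow_nonneg (Nat.cast_nonneg _) _
  have hΔ0 : (0 : ℝ) ≤ 4 * (n : ℝ) ^ (3 / 4 : ℝ) := by linarith
  have hα : 0 ≤ lamn n * (1 + lamn n * (4 * (n : ℝ) ^ (3 / 4 : ℝ))) :=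
    mul_nonneg d2.le (by linarith [mul_nonneg d2.le hΔ0])
  obtain ⟨T, hTr, hTd, hTw⟩ := oneTree n (N + 1) (gn n) _ _ _ hPm hV κ G hSt
    (fun A h2 hA => robust_small hn0 hNn hV hSt hq A h2 hA)
    (fun A ha hb => robust_large hn0 hNn hV hSt hq hdeg A ha hb)
    (fM (Mx n (N + 1) G))
    (fun e => fM_abs hV _ (fun u v => mx_abs n (N + 1) hn0 hNn G hSt.nd u v) e)
    (lamn n * (1 + lamn n * (4 * (n : ℝ) ^ (3 / 4 : ℝ)))) hα (wv (lamn n) (N + 1) G)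
    (fun v => Step_wv_nonneg _ _ _ v)
  refine ⟨T, hTr, ⟨fun e he => hSt.nd e (mem_sdiff.1 he).1, ?_, fun k => ?_⟩, ?_⟩
  · have e1 := card_sdiff_add_card_eq_card hTr.sub
    have e2 := hTr.card
    have e3 := hSt.card
    rw [hV] at e2
    have e4 : T.card = 2 * n - 1 := by omega
    have e5 : (N + 1) * (2 * n - 1) = N * (2 * n - 1) + (2 * n - 1) := Nat.succ_mul _ _
    rw [e3, e4, e5] at e1
    omega
  · by_cases hk : (col G κ k).card = N + 1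
    · exact (Step_full hTr k hk).le
    · have e1 := hSt.colr k
      have e2 : (col (G \ T) κ k).card ≤ (col G κ k).card := by
        refine card_le_card fun x hx => ?_
        simp only [col, mem_filter, mem_sdiff] at hx ⊢
        exact ⟨hx.1.1, hx.2⟩
      omega
  · have hpot := pot_step n N hn0 hNn hV G T hSt.nd hTr.sub hTr.tree hTr.card (lamn n)
      ((n : ℝ) ^ (-(1 / 8) : ℝ)) ((n : ℝ) ^ (5 / 2 : ℝ)) (4 * (n : ℝ) ^ (3 / 4 : ℝ)) d2 hγ0 d7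
      ht5 d5 d6 d4 (fun v => (hTd v).trans d1) hTw
    have hP0 := Step_Ps_nonneg (lamn n) n (N + 1) G
    have hm := mul_le_mul_of_nonneg_right d8 hP0
    linarith

theorem full_step {V K : Type} [Fintype V] [DecidableEq V] {N : ℕ} {κ : Sym2 V → K}
    {G T : Finset (Sym2 V)} (h : Tr (N + 1) κ G T) (k : K) (hk : (col G κ k).card = N + 1) :
    (col (G \ T) κ k).card = N := Step_full h k hk

end Pool.Agent.helper7.AQ
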