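import Pool.Agent.helper7.AQ.Aug
import Pool.Agent.helper7.AQ.Shrink

/-!
# AQ-Trans: independent transversals (Rado)

PROOF.  `shrink` for `A k = col S κ k` (then `J.biUnion A = cols S κ J`) gives `B`.  Let `F₀ = Kt.biUnion B`.  By (a) for `J = Kt`:
`|Kt| ≤ σ F₀ ≤ |F₀| ≤ ∑ k ∈ Kt, |B k| ≤ |Kt|`, so `F₀.card = σ F₀`, and `|B k| = 1` for all `k ∈ Kt` (the sum of the `|B k| ≤ 1` over `Kt` is `|Kt|`).
`aug` with `S = univ.biUnion B` gives `F ⊇ F₀` with `F.card = σ F = σ (univ.biUnion B)`, and `r ≤ σ (univ.biUnion B)` by (b) for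
`J = univ`.  If `e, e' ∈ F`, `κ e = κ e' = k`: `e ∈ B k'` for some `k'`, and `B k' ⊆ col S κ k'` so `k' = κ e = k`; the same for `e'`; so `e = e'` as
`|B k| ≤ 1`.  For `k ∈ Kt` the element of `B k` is in `F₀ ⊆ F` and has the colour `k`.
-/

set_option autoImplicit false

open Finset

namespace Pool.Agent.helper7.AQ

theorem transversal {E K : Type} [DecidableEq E] [Fintype K] (σ : Finset E → ℕ) (hσ : Rk σ)
    (κ : E → K) (S : Finset E) (Kt : Finset K) (r : ℕ)
    (ha : ∀ J ⊆ Kt, J.card ≤ σ (cols S κ J))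
    (hb : ∀ J : Finset K, r + J.card ≤ σ (cols S κ J) + Fintype.card K) :
    ∃ F ⊆ S, F.card = σ F ∧ r ≤ σ F ∧ (∀ e ∈ F, ∀ e' ∈ F, κ e = κ e' → e = e') ∧
      ∀ k ∈ Kt, ∃ e ∈ F, κ e = k := by
  classical
  have hbi : ∀ J : Finset K, J.biUnion (fun k => col S κ k) = cols S κ J := by
    intro J
    ext e
    simp only [Finset.mem_biUnion, col, cols, Finset.mem_filter]
    constructor
    · rintro ⟨k, hk, he, rfl⟩
      exact ⟨he, hk⟩
    · rintro ⟨he, hk⟩
      exact ⟨κ e, hk, he, rfl⟩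
  obtain ⟨B, hB, hB1, hBa, hBb⟩ := shrink σ hσ Kt r (fun k => col S κ k)
    (fun J hJ => by
      have h := ha J hJ
      rw [← hbi J] at h
      exact h)
    (fun J => by
      have h := hb J
      rw [← hbi J] at h
      exact h)
  have hBS : ∀ k, ∀ e ∈ B k, e ∈ S ∧ κ e = k := by
    intro k e he
    have h := hB k he
    simp only [col, Finset.mem_filter] at h
    exact h
  have h1 := hBa Kt (Finset.Subset.refl _)
  have h2 := rk_le_card hσ (Kt.biUnion B)
  have h3 : (Kt.biUnion B).card ≤ ∑ k ∈ Kt, (B k).card := Finset.card_biUnion_le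
  have h4 : ∑ k ∈ Kt, (B k).card ≤ ∑ k ∈ Kt, 1 := Finset.sum_le_sum fun k _ => hB1 k
  have h4' : ∑ k ∈ Kt, 1 = Kt.card := by simp
  have hF0 : (Kt.biUnion B).card = σ (Kt.biUnion B) := by omega
  have hone : ∀ k ∈ Kt, (B k).card = 1 := by
    have h5 : ∑ k ∈ Kt, (B k).card = ∑ k ∈ Kt, 1 := by omega
    exact (Finset.sum_eq_sum_iff_of_le fun k _ => hB1 k).1 h5
  have hsub : Kt.biUnion B ⊆ (Finset.univ : Finset K).biUnion B :=
    Finset.biUnion_subset_biUnion_of_subset_left B (Finset.subset_univ Kt)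
  obtain ⟨F, hF1, hF2, hF3, hF4⟩ := aug hσ (Kt.biUnion B) ((Finset.univ : Finset K).biUnion B)
    hsub hF0
  have hFB : ∀ e ∈ F, e ∈ S ∧ e ∈ B (κ e) := by
    intro e he
    have h := hF2 he
    rw [Finset.mem_biUnion] at h
    obtain ⟨k, -, hk⟩ := h
    obtain ⟨hs, hk'⟩ := hBS k e hk
    subst hk'
    exact ⟨hs, hk⟩
  refine ⟨F, fun e he => (hFB e he).1, hF3, ?_, ?_, ?_⟩
  · have h := hBb Finset.univ
    rw [Finset.card_univ] at h
    omega
  · intro e he e' he' hκ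
    have h := (hFB e he).2
    have h' := (hFB e' he').2
    rw [← hκ] at h'
    exact Finset.card_le_one.1 (hB1 (κ e)) e h e' h'
  · intro k hk
    obtain ⟨e, he⟩ := Finset.card_pos.1 (by rw [hone k hk]; exact one_pos)
    exact ⟨e, hF1 (Finset.mem_biUnion.2 ⟨k, hk, he⟩), (hBS k e he).2⟩

end Pool.Agent.helper7.AQ
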