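import Pool.Agent.helper7.AQ.Face

/-!
# AQ-WRado: weighted rainbow bases (integrality of the matroid intersection polytope)

PROOF.  Let `Q` be the set of the `y : E → ℝ` with `Pol ρ κ y`, `y e = 0` for `e ∉ H`, and `∑ e ∈ col univ κ k, y e = 1` for all `k` with
`∑ e ∈ col univ κ k, x e = 1`.  `Q` is closed (finitely many linear equations and inequalities, `isClosed_le`, `isClosed_eq`,
`isClosed_iInter`; one may write `Q` as a set defined by these conditions), bounded (`0 ≤ y e ≤ ρ {e} ≤ 1`), and contains `x`; so it is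
compact (subset of `Set.pi univ (Set.Icc 0 1)`, `IsCompact.of_isClosed_subset`) and there is `y ∈ Q` which minimises `∑ e, w e * y e`
(`IsCompact.exists_isMinOn`).  Let `F` be as in `face` for `y`.  `F ⊆ H` since `y e > 0` for `e ∈ F`.  `F` meets all `k` with `y`-mass `1`, in
particular those with `x`-mass `1`.
For `0 < ε < 1` let `y_ε e = (y e - ε * (if e ∈ F then 1 else 0)) / (1 - ε)`.  CLAIM: `y_ε ∈ Q` for all small `ε > 0`
(`∀ᶠ ε in 𝓝[>] 0`, `Filter.eventually_all`, finitely many conditions):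
* `y_ε e ≥ 0`: clear for `e ∉ F`; `y e > 0` for `e ∈ F`.
* `y_ε S ≤ ρ S`, i.e. `y S - ε * |F ∩ S| ≤ (1 - ε) * ρ S`: if `S` is tight then `|F ∩ S| = ρ S` and equality holds; otherwise `y S < ρ S`.
* `y_ε univ = ρ univ` because `|F| = ρ univ`.
* colours: `y (col k) - ε * |F ∩ col k| ≤ 1 - ε`: if `y (col k) = 1` then `|F ∩ col k| = 1` (`F` meets `k`, `κ` is injective on `F`) and equality
  holds; otherwise `y (col k) < 1`.
* `y_ε e = 0` for `e ∉ H`.
By minimality `w · y ≤ w · y_ε = (w · y - ε * w F) / (1 - ε)`, so `w F ≤ w · y ≤ w · x`.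
-/

set_option autoImplicit false

open Finset

namespace Pool.Agent.helper7.AQ

/-- linear functional of the perturbed point -/
private theorem WRado_lin {E : Type} [DecidableEq E] (F S : Finset E) (g y : E → ℝ) (ε : ℝ) :
    ∑ e ∈ S, g e * ((y e - ε * (if e ∈ F then 1 else 0)) / (1 - ε)) =
      (∑ e ∈ S, g e * y e - ε * ∑ e ∈ F ∩ S, g e) / (1 - ε) := by
  have h1 : ∑ e ∈ F ∩ S, g e = ∑ e ∈ S, g e * (if e ∈ F then 1 else 0) := by
    rw [Finset.inter_comm, ← Finset.filter_mem_eq_inter, Finset.sum_filter]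
    refine Finset.sum_congr rfl fun e _ => ?_
    split_ifs <;> simp
  rw [h1, Finset.mul_sum, ← Finset.sum_sub_distrib, Finset.sum_div]
  refine Finset.sum_congr rfl fun e _ => ?_
  ring

/-- sum of the perturbed point over a set -/
private theorem WRado_sum {E : Type} [DecidableEq E] (F S : Finset E) (y : E → ℝ) (ε : ℝ) :
    ∑ e ∈ S, ((y e - ε * (if e ∈ F then 1 else 0)) / (1 - ε)) =
      (∑ e ∈ S, y e - ε * ((F ∩ S).card : ℝ)) / (1 - ε) := by
  have h := WRado_lin F S (fun _ => (1 : ℝ)) y ε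
  simp only [one_mul] at h
  rw [h]
  simp

/-- existence of a minimiser of `w` in the face -/
private theorem WRado_min {E K : Type} [Fintype E] [DecidableEq E] [Fintype K] (ρ : Finset E → ℕ)
    (hρ : Rk ρ) (κ : E → K) (x : E → ℝ) (hx : Pol ρ κ x) (H : Finset E)
    (hH : ∀ e, e ∉ H → x e = 0) (w : E → ℝ) :
    ∃ y : E → ℝ, (Pol ρ κ y ∧ (∀ e, e ∉ H → y e = 0) ∧
        ∀ k, ∑ e ∈ col univ κ k, x e = 1 → ∑ e ∈ col univ κ k, y e = 1) ∧
      ∀ z : E → ℝ, (Pol ρ κ z ∧ (∀ e, e ∉ H → z e = 0) ∧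
        ∀ k, ∑ e ∈ col univ κ k, x e = 1 → ∑ e ∈ col univ κ k, z e = 1) →
        ∑ e, w e * y e ≤ ∑ e, w e * z e := by
  set Q : Set (E → ℝ) := {y | Pol ρ κ y ∧ (∀ e, e ∉ H → y e = 0) ∧
        ∀ k, ∑ e ∈ col univ κ k, x e = 1 → ∑ e ∈ col univ κ k, y e = 1} with hQ
  have hQ' : Q = (⋂ e, {y | 0 ≤ y e}) ∩ ((⋂ S : Finset E, {y | ∑ e ∈ S, y e ≤ (ρ S : ℝ)}) ∩
      ({y | ∑ e, y e = (ρ univ : ℝ)} ∩ ((⋂ k, {y | ∑ e ∈ col univ κ k, y e ≤ 1}) ∩
      ((⋂ e, ⋂ (_ : e ∉ H), {y | y e = 0}) ∩
      (⋂ k, ⋂ (_ : ∑ e ∈ col univ κ k, x e = 1), {y | ∑ e ∈ col univ κ k, y e = 1}))))) := by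
    ext y
    simp only [hQ, Set.mem_ofPred_eq, Set.mem_inter_iff, Set.mem_iInter]
    constructor
    · rintro ⟨h, h2, h3⟩
      exact ⟨h.nonneg, h.le, h.tot, h.colr, h2, h3⟩
    · rintro ⟨a, b, c, d, e, f⟩
      exact ⟨⟨a, b, c, d⟩, e, f⟩
  have hcl : IsClosed Q := by
    rw [hQ']
    refine (isClosed_iInter fun e => isClosed_le continuous_const (continuous_apply e)).inter ?_
    refine (isClosed_iInter fun S => isClosed_le
      (continuous_finsetSum _ fun e _ => continuous_apply e) continuous_const).inter ?_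
    refine (isClosed_eq
      (continuous_finsetSum _ fun e _ => continuous_apply e) continuous_const).inter ?_
    refine (isClosed_iInter fun k => isClosed_le
      (continuous_finsetSum _ fun e _ => continuous_apply e) continuous_const).inter ?_
    refine (isClosed_iInter fun e => isClosed_iInter fun _ =>
      isClosed_eq (continuous_apply e) continuous_const).inter ?_
    exact isClosed_iInter fun k => isClosed_iInter fun _ => isClosed_eq
      (continuous_finsetSum _ fun e _ => continuous_apply e) continuous_const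
  have hsub : Q ⊆ Set.pi Set.univ (fun _ : E => Set.Icc (0 : ℝ) 1) := by
    rintro y ⟨h, -, -⟩ e -
    refine ⟨h.nonneg e, ?_⟩
    have h1 := h.le {e}
    rw [Finset.sum_singleton] at h1
    have h2 : ρ {e} ≤ 1 := by
      have h3 := hρ.unit ∅ e
      rw [hρ.empty] at h3
      simpa using h3
    exact h1.trans (by exact_mod_cast h2)
  have hcomp : IsCompact Q :=
    IsCompact.of_isClosed_subset (isCompact_univ_pi fun _ => isCompact_Icc) hcl hsub
  have hne : Q.Nonempty := ⟨x, hx, hH, fun k hk => hk⟩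
  have hcont : ContinuousOn (fun y : E → ℝ => ∑ e, w e * y e) Q :=
    (continuous_finsetSum _ fun e _ => continuous_const.mul (continuous_apply e)).continuousOn
  obtain ⟨y, hy, hmin⟩ := hcomp.exists_isMinOn hne hcont
  exact ⟨y, hy, fun z hz => hmin hz⟩

theorem wrado {E K : Type} [Fintype E] [DecidableEq E] [Fintype K] (ρ : Finset E → ℕ)
    (hρ : Rk ρ) (κ : E → K) (x : E → ℝ) (hx : Pol ρ κ x) (H : Finset E)
    (hH : ∀ e, e ∉ H → x e = 0) (w : E → ℝ) :
    ∃ F ⊆ H, F.card = ρ univ ∧ ρ F = ρ univ ∧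
      (∀ e ∈ F, ∀ e' ∈ F, κ e = κ e' → e = e') ∧
      (∀ k, ∑ e ∈ col univ κ k, x e = 1 → ∃ e ∈ F, κ e = k) ∧
      ∑ e ∈ F, w e ≤ ∑ e, w e * x e := by
  obtain ⟨y, ⟨hy, hyH, hyk⟩, hmin⟩ := WRado_min ρ hρ κ x hx H hH w
  obtain ⟨F, hFpos, hFcard, hFρ, hFinj, hFtight, hFcol⟩ := face ρ hρ κ y hy
  refine ⟨F, ?_, hFcard, hFρ, hFinj, fun k hk => hFcol k (hyk k hk), ?_⟩
  · intro e he
    by_contra h
    have := hFpos e he
    rw [hyH e h] at this
    exact lt_irrefl _ this
  -- choice of the size of the perturbation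
  have ev1 : ∀ᶠ ε : ℝ in nhdsWithin 0 (Set.Ioi 0), ∀ e, e ∈ F → ε < y e := by
    refine Filter.eventually_all.2 fun e => ?_
    by_cases he : e ∈ F
    · filter_upwards [eventually_nhdsWithin_of_eventually_nhds
        (eventually_lt_nhds (hFpos e he))] with ε hε _ using hε
    · exact Filter.Eventually.of_forall fun ε h => absurd h he
  have ev2 : ∀ᶠ ε : ℝ in nhdsWithin 0 (Set.Ioi 0), ∀ S : Finset E, ¬ Tight ρ y S →
      ε * (ρ S : ℝ) < ρ S - ∑ e ∈ S, y e := by
    refine Filter.eventually_all.2 fun S => ?_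
    by_cases hS : Tight ρ y S
    · exact Filter.Eventually.of_forall fun ε h => absurd hS h
    · have hlt : ∑ e ∈ S, y e < ρ S := lt_of_le_of_ne (hy.le S) hS
      have ht : Filter.Tendsto (fun ε : ℝ => ε * (ρ S : ℝ)) (nhds 0) (nhds 0) := by
        have hc : Continuous (fun ε : ℝ => ε * (ρ S : ℝ)) := continuous_id.mul continuous_const
        have := hc.tendsto (0 : ℝ)
        simpa using this
      have h2 := ht.eventually_lt_const (sub_pos.2 hlt)
      filter_upwards [eventually_nhdsWithin_of_eventually_nhds h2] with ε hε _ using hε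
  have ev3 : ∀ᶠ ε : ℝ in nhdsWithin 0 (Set.Ioi 0), ∀ k : K, ∑ e ∈ col univ κ k, y e < 1 →
      ε < 1 - ∑ e ∈ col univ κ k, y e := by
    refine Filter.eventually_all.2 fun k => ?_
    by_cases hk : ∑ e ∈ col univ κ k, y e < 1
    · filter_upwards [eventually_nhdsWithin_of_eventually_nhds
        (eventually_lt_nhds (sub_pos.2 hk))] with ε hε _ using hε
    · exact Filter.Eventually.of_forall fun ε h => absurd h hk
  have ev4 : ∀ᶠ ε : ℝ in nhdsWithin 0 (Set.Ioi 0), ε < 1 :=
    eventually_nhdsWithin_of_eventually_nhds (eventually_lt_nhds one_pos)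
  have ev5 : ∀ᶠ ε : ℝ in nhdsWithin 0 (Set.Ioi 0), 0 < ε := eventually_mem_nhdsWithin
  obtain ⟨ε, h1, h2, h3, h4, h5⟩ := (ev1.and (ev2.and (ev3.and (ev4.and ev5)))).exists
  have hpos : 0 < 1 - ε := sub_pos.2 h4
  -- the perturbed point
  have hz : Pol ρ κ (fun e => (y e - ε * (if e ∈ F then 1 else 0)) / (1 - ε)) ∧
      (∀ e, e ∉ H → (fun e => (y e - ε * (if e ∈ F then 1 else 0)) / (1 - ε)) e = 0) ∧
      ∀ k, ∑ e ∈ col univ κ k, x e = 1 →
        ∑ e ∈ col univ κ k, (fun e => (y e - ε * (if e ∈ F then 1 else 0)) / (1 - ε)) e = 1 := by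
    have hcolk : ∀ k, ∑ e ∈ col univ κ k, y e = 1 → ((F ∩ col univ κ k).card : ℝ) = 1 := by
      intro k hk
      obtain ⟨e, heF, hek⟩ := hFcol k hk
      have : F ∩ col univ κ k = {e} := by
        ext e'
        simp only [Finset.mem_inter, col, Finset.mem_filter, Finset.mem_univ, true_and,
          Finset.mem_singleton]
        constructor
        · rintro ⟨h, h'⟩
          exact hFinj e' h e heF (h'.trans hek.symm)
        · rintro rfl
          exact ⟨heF, hek⟩
      rw [this]
      simp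
    refine ⟨⟨?_, ?_, ?_, ?_⟩, ?_, ?_⟩
    · intro e
      refine div_nonneg ?_ hpos.le
      by_cases he : e ∈ F
      · simp only [he, if_true, mul_one]
        exact sub_nonneg.2 (h1 e he).le
      · simp only [he, if_false, mul_zero, sub_zero]
        exact hy.nonneg e
    · intro S
      rw [WRado_sum, div_le_iff₀ hpos]
      by_cases hS : Tight ρ y S
      · have ha := hFtight S hS
        have hb : ∑ e ∈ S, y e = ρ S := hS
        rw [ha, hb]
        exact le_of_eq (by ring)
      · have ha := h2 S hS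
        have hb : (0 : ℝ) ≤ ε * ((F ∩ S).card : ℝ) := by positivity
        nlinarith
    · rw [WRado_sum, Finset.inter_univ, hFcard, hy.tot, div_eq_iff hpos.ne']
      ring
    · intro k
      rw [WRado_sum, div_le_iff₀ hpos]
      rcases (hy.colr k).lt_or_eq with hk | hk
      · have ha := h3 k hk
        have hb : (0 : ℝ) ≤ ε * ((F ∩ col univ κ k).card : ℝ) := by positivity
        linarith
      · rw [hcolk k hk, hk]
        exact le_of_eq (by ring)
    · intro e he
      have heF : e ∉ F := by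
        intro h
        have := hFpos e h
        rw [hyH e he] at this
        exact lt_irrefl _ this
      simp [heF, hyH e he]
    · intro k hk
      have hk' := hyk k hk
      rw [WRado_sum, hcolk k hk', hk', div_eq_iff hpos.ne']
      ring
  have hfin := hmin _ hz
  rw [WRado_lin, Finset.inter_univ, le_div_iff₀ hpos] at hfin
  have hyx := hmin x ⟨hx, hH, fun k hk => hk⟩
  have hF : ∑ e ∈ F, w e ≤ ∑ e, w e * y e := by
    have : ε * ∑ e ∈ F, w e ≤ ε * ∑ e, w e * y e := by nlinarith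
    exact le_of_mul_le_mul_left this h5
  exact hF.trans hyx

end Pool.Agent.helper7.AQ
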