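import Pool.Agent.helper7.AQ.Defs

/-!
# AQ-Xs: the random masses

Let `Q z = Qc G cl z`.
* `om_mem`: `Fintype.mem_piFinset`, `Qc`.  `om_pos`: `Fintype.piFinset_nonempty`.
* `xs_sum`: for `ω ∈ Om G cl`: the `e` with `xs ≠ 0` are the `ω z` (`e ∈ G`, `ω (cl e) = e`); `z ↦ ω z` is injective because `cl (ω z) = z`; the
  mass of `ω z` is `|Q z| / N`.  (`Finset.sum_fiberwise` over `cl`: for every `z` the sum over the `e` with `cl e = z` has only the term
  `e = ω z`.)  `xs_set`: `f` = indicator of `S`.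
* `xs_avg`: `(∑ a ∈ Q z, |Q z| / N * f a) / |Q z| = (∑ a ∈ Q z, f a) / N`, and the `Q z` partition `G`.
* `xs_col`: `xs_set` for `S = col univ κ k`: `ω z ∈ S` iff `Q z ⊆ S` (`Cell.colr`), so the sum is `∑ (z, Q z ⊆ col G κ k) |Q z| / N = |col G κ k| / N`.
* `xs_tot`: `f = 1`: `∑ z, |Q z| / N = |G| / N`.
* `cell_count`: `|G| = ∑ z, |Q z| ≥ (m - 1) * g` (all cells but at most one have at least `g` elements).
* `meet_count`: `e ↦ cl e` maps `S` onto the set on the left.
-/

set_option autoImplicit false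

open Finset
open scoped Classical

namespace Pool.Agent.helper7.AQ

variable {E K : Type} {G : Finset E} {m : ℕ} {cl : E → Fin m} {N g : ℕ} {κ : E → K}

theorem om_mem {ω : Fin m → E} (h : ω ∈ Om G cl) (z : Fin m) : ω z ∈ G ∧ cl (ω z) = z := by
  unfold Om at h
  rw [Fintype.mem_piFinset] at h
  have h1 := h z
  unfold Qc at h1
  rwa [Finset.mem_filter] at h1

theorem om_pos (h : Cell G κ m cl g) : 0 < (Om G cl).card := by
  unfold Om
  rw [Finset.card_pos, Fintype.piFinset_nonempty]
  exact h.ne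

theorem xs_nonneg (ω : Fin m → E) (e : E) : 0 ≤ xs G cl N ω e := by
  unfold xs
  split_ifs
  · positivity
  · exact le_refl _

theorem xs_sum [Fintype E] {ω : Fin m → E} (h : ω ∈ Om G cl) (f : E → ℝ) :
    ∑ e, f e * xs G cl N ω e = ∑ z, ((Qc G cl z).card : ℝ) / N * f (ω z) := by
  have h1 : ∑ e, f e * xs G cl N ω e =
      ∑ e ∈ univ.filter (fun e => e ∈ G ∧ ω (cl e) = e),
        ((Qc G cl (cl e)).card : ℝ) / N * f e := by
    rw [Finset.sum_filter]
    refine Finset.sum_congr rfl fun e _ => ?_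
    unfold xs
    split_ifs
    · ring
    · ring
  rw [h1]
  refine Finset.sum_nbij' (i := cl) (j := ω) ?_ ?_ ?_ ?_ ?_
  · intro e _
    exact Finset.mem_univ _
  · intro z _
    rw [Finset.mem_filter]
    refine ⟨Finset.mem_univ _, (om_mem h z).1, ?_⟩
    rw [(om_mem h z).2]
  · intro e he
    exact (Finset.mem_filter.mp he).2.2
  · intro z _
    exact (om_mem h z).2
  · intro e he
    rw [(Finset.mem_filter.mp he).2.2]

theorem xs_set {ω : Fin m → E} (h : ω ∈ Om G cl) (S : Finset E) :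
    ∑ e ∈ S, xs G cl N ω e = ∑ z, ((Qc G cl z).card : ℝ) / N * (if ω z ∈ S then 1 else 0) := by
  have h1 : ∑ e ∈ S, xs G cl N ω e =
      ∑ e ∈ S.filter (fun e => e ∈ G ∧ ω (cl e) = e), ((Qc G cl (cl e)).card : ℝ) / N := by
    rw [Finset.sum_filter]
    exact Finset.sum_congr rfl fun e _ => rfl
  have h2 : ∑ z, ((Qc G cl z).card : ℝ) / N * (if ω z ∈ S then 1 else 0) =
      ∑ z ∈ univ.filter (fun z => ω z ∈ S), ((Qc G cl z).card : ℝ) / N := by
    rw [Finset.sum_filter]
    refine Finset.sum_congr rfl fun z _ => ?_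
    split_ifs
    · ring
    · ring
  rw [h1, h2]
  refine Finset.sum_nbij' (i := cl) (j := ω) ?_ ?_ ?_ ?_ ?_
  · intro e he
    rw [Finset.mem_filter] at he ⊢
    refine ⟨Finset.mem_univ _, ?_⟩
    rw [he.2.2]
    exact he.1
  · intro z hz
    rw [Finset.mem_filter] at hz ⊢
    refine ⟨hz.2, (om_mem h z).1, ?_⟩
    rw [(om_mem h z).2]
  · intro e he
    exact (Finset.mem_filter.mp he).2.2
  · intro z _
    exact (om_mem h z).2
  · intro e _
    rfl

private lemma xs_fiber (f : E → ℝ) : ∑ z, ∑ a ∈ Qc G cl z, f a = ∑ e ∈ G, f e := by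
  unfold Qc
  exact Finset.sum_fiberwise G cl f

private lemma xs_fiber_card (G : Finset E) (cl : E → Fin m) :
    ∑ z, ((Qc G cl z).card : ℝ) = G.card := by
  have h := xs_fiber (G := G) (cl := cl) (fun _ => (1 : ℝ))
  simpa using h

theorem xs_avg (h : Cell G κ m cl g) (f : E → ℝ) :
    ∑ z, (∑ a ∈ Qc G cl z, ((Qc G cl z).card : ℝ) / N * f a) / ((Qc G cl z).card : ℝ) =
      1 / N * ∑ e ∈ G, f e := by
  rw [← xs_fiber (G := G) (cl := cl) f, Finset.mul_sum]
  refine Finset.sum_congr rfl fun z _ => ?_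
  have h1 : ((Qc G cl z).card : ℝ) ≠ 0 := by
    have := Finset.card_pos.mpr (h.ne z)
    positivity
  rw [← Finset.mul_sum]
  field_simp

theorem xs_col [Fintype E] (h : Cell G κ m cl g) {ω : Fin m → E} (hω : ω ∈ Om G cl) (k : K) :
    ∑ e ∈ col univ κ k, xs G cl N ω e = ((col G κ k).card : ℝ) / N := by
  rw [xs_set hω]
  have h1 : ((col G κ k).card : ℝ) =
      ∑ z, ((Qc G cl z).card : ℝ) * (if ω z ∈ col univ κ k then 1 else 0) := by
    have h2 : ((col G κ k).card : ℝ) = ∑ e ∈ G, (if κ e = k then (1 : ℝ) else 0) := by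
      unfold col
      rw [Finset.sum_ite, Finset.sum_const_zero, add_zero, Finset.sum_const, nsmul_eq_mul, mul_one]
    rw [h2, ← xs_fiber (G := G) (cl := cl)]
    refine Finset.sum_congr rfl fun z _ => ?_
    have h3 : ∀ a ∈ Qc G cl z, (if κ a = k then (1 : ℝ) else 0) =
        (if ω z ∈ col univ κ k then 1 else 0) := by
      intro a ha
      unfold Qc at ha
      rw [Finset.mem_filter] at ha
      have h4 : κ a = κ (ω z) := h.colr a ha.1 (ω z) (om_mem hω z).1 (by
        rw [ha.2, (om_mem hω z).2])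
      unfold col
      simp only [Finset.mem_filter, Finset.mem_univ, true_and, h4]
    rw [Finset.sum_congr rfl h3, Finset.sum_const, nsmul_eq_mul]
  rw [h1, Finset.sum_div]
  refine Finset.sum_congr rfl fun z _ => ?_
  ring

theorem xs_tot [Fintype E] {ω : Fin m → E} (hω : ω ∈ Om G cl) :
    ∑ e, xs G cl N ω e = (G.card : ℝ) / N := by
  have h1 := xs_sum (N := N) hω (fun _ => (1 : ℝ))
  simp only [one_mul, mul_one] at h1
  rw [h1, ← Finset.sum_div, xs_fiber_card]

theorem cell_count (h : Cell G κ m cl g) : (m : ℝ) * g ≤ G.card + g := by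
  rw [← xs_fiber_card G cl]
  by_cases hs : ∃ z, (Qc G cl z).card < g
  · obtain ⟨z0, hz0⟩ := hs
    have h1 : ∀ z, (g : ℝ) ≤ ((Qc G cl z).card : ℝ) + (if z = z0 then (g : ℝ) else 0) := by
      intro z
      by_cases hz : z = z0
      · rw [if_pos hz]
        have : (0 : ℝ) ≤ ((Qc G cl z).card : ℝ) := by positivity
        linarith
      · rw [if_neg hz, add_zero]
        by_contra hc
        push Not at hc
        have hc' : (Qc G cl z).card < g := by exact_mod_cast hc
        exact hz (h.ge z z0 hc' hz0)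
    have h2 := Finset.sum_le_sum (s := univ) (fun z _ => h1 z)
    rw [Finset.sum_const, Finset.card_univ, Fintype.card_fin, nsmul_eq_mul,
      Finset.sum_add_distrib, Finset.sum_ite_eq' univ z0] at h2
    simpa using h2
  · push Not at hs
    have h2 := Finset.sum_le_sum (s := (univ : Finset (Fin m)))
      (f := fun _ => (g : ℝ)) (g := fun z => ((Qc G cl z).card : ℝ))
      (fun z _ => by exact_mod_cast hs z)
    rw [Finset.sum_const, Finset.card_univ, Fintype.card_fin, nsmul_eq_mul] at h2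
    have : (0 : ℝ) ≤ (g : ℝ) := by positivity
    linarith

theorem meet_count (S : Finset E) :
    (univ.filter fun z : Fin m => ∃ e ∈ S, cl e = z).card ≤ S.card := by
  have h1 : (univ.filter fun z : Fin m => ∃ e ∈ S, cl e = z) ⊆ S.image cl := by
    intro z hz
    obtain ⟨e, he, hez⟩ := (Finset.mem_filter.mp hz).2
    exact Finset.mem_image.mpr ⟨e, he, hez⟩
  exact (Finset.card_le_card h1).trans Finset.card_image_le

end Pool.Agent.helper7.AQ
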